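import Pool.Agent.Y913.Nb.Ops
import Pool.Agent.H785R2.ABC.Defs

/-!
Integers with a small radical either are divisible by a large power of an integer of suitable size
or are products of powers of few small integers.
-/

set_option autoImplicit false

namespace Pool.Agent.T2H20.ABC

open Finset Pool.Agent.H785R2.ABC Pool.Agent.Y913.Nb

/-- `t` is divisible by `r ^ M` for some `r` between `X ^ (1 / (2 w))` and `X ^ (1 / w)` -/
def Dp (w M X t : ℕ) : Prop := ∃ r : ℕ, X ≤ r ^ (2 * w) ∧ r ^ w ≤ X ∧ r ^ M ∣ t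

/-- a divisor of suitable size of an integer all of whose primes are small -/
lemma greedy {w X n : ℕ} (hw : 1 ≤ w) (hn : n ≠ 0)
    (hp : ∀ p, p.Prime → p ∣ n → p ^ (2 * w) ≤ X) (hX : X ≤ n ^ (2 * w)) :
    ∃ r, r ∣ n ∧ X ≤ r ^ (2 * w) ∧ r ^ w ≤ X ∨ X = 0 := by
  classical
  by_cases hX0 : X = 0
  · exact ⟨0, Or.inr hX0⟩
  have hex : ∃ r, r ∣ n ∧ X ≤ r ^ (2 * w) := ⟨n, dvd_rfl, hX⟩
  obtain ⟨h1, h2⟩ := Nat.find_spec hex
  set r := Nat.find hex with hr
  refine ⟨r, Or.inl ⟨h1, h2, ?_⟩⟩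
  have hr0 : r ≠ 0 := fun h => hn (by rw [h] at h1; exact Nat.eq_zero_of_zero_dvd h1)
  by_cases hr1 : r = 1
  · rw [hr1, one_pow]; omega
  obtain ⟨p, hpp, hpr⟩ := Nat.exists_prime_and_dvd hr1
  have h3 : ¬ (r / p ∣ n ∧ X ≤ (r / p) ^ (2 * w)) := by
    apply Nat.find_min hex
    exact Nat.div_lt_self (Nat.pos_of_ne_zero hr0) hpp.one_lt
  have h4 : r / p ∣ n := (Nat.div_dvd_of_dvd hpr).trans h1
  have h5 : (r / p) ^ (2 * w) < X := by
    by_contra h
    exact h3 ⟨h4, not_lt.mp h⟩
  have h6 : r = p * (r / p) := (Nat.mul_div_cancel' hpr).symm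
  have h7 : (r ^ w) ^ 2 ≤ X ^ 2 := by
    calc (r ^ w) ^ 2 = r ^ (2 * w) := by rw [← pow_mul, mul_comm]
      _ = (p * (r / p)) ^ (2 * w) := by rw [← h6]
      _ = p ^ (2 * w) * (r / p) ^ (2 * w) := mul_pow _ _ _
      _ ≤ X * X := Nat.mul_le_mul (hp p hpp (hpr.trans h1)) h5.le
      _ = X ^ 2 := by ring
  exact (Nat.pow_le_pow_iff_left (by norm_num)).mp h7

/-- few powers -/
theorem nb_of_not_Dp {w M X t : ℕ} (hw : 1 ≤ w) (hM : 1 ≤ M) (hX : 1 ≤ X) (ht : 0 < t)
    (hrad : rad t ≤ X) (h : ¬ Dp w M X t) : NB (2 * w + (1 + M)) (X : ℝ) t := by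
  classical
  have hX0 : (1 : ℝ) ≤ X := by exact_mod_cast hX
  set L := t.primeFactors.filter fun p => X < p ^ (2 * w) with hL
  set S := t.primeFactors.filter fun p => ¬ X < p ^ (2 * w) with hS
  have hprod : (∏ p ∈ L, p ^ t.factorization p) * ∏ p ∈ S, p ^ t.factorization p = t := by
    rw [hL, hS, Finset.prod_filter_mul_prod_filter_not]
    conv_rhs => rw [← Nat.prod_factorization_pow_eq_self ht.ne']
    rfl
  have hsub : ∀ s ⊆ t.primeFactors, ∏ p ∈ s, p ≤ X := by
    intro s hs
    refine le_trans ?_ hrad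
    exact Finset.prod_le_prod_of_subset_of_one_le' hs
      (fun p hp _ => (Nat.prime_of_mem_primeFactors hp).one_le)
  have hple : ∀ p ∈ t.primeFactors, p ≤ X := by
    intro p hp
    have := hsub {p} (by simpa using hp)
    simpa using this
  -- the large primes
  have hLcard : L.card ≤ 2 * w := by
    by_contra hcon
    push Not at hcon
    have hne : L.Nonempty := Finset.card_pos.mp (by omega)
    have h1 : X ^ L.card < (∏ p ∈ L, p) ^ (2 * w) := by
      rw [← Finset.prod_pow, ← Finset.prod_const]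
      exact Finset.prod_lt_prod_of_nonempty (fun p _ => by omega)
        (fun p hp => (Finset.mem_filter.mp hp).2) hne
    have h2 : (∏ p ∈ L, p) ^ (2 * w) ≤ X ^ (2 * w) :=
      Nat.pow_le_pow_left (hsub L (Finset.filter_subset _ _)) _
    have h3 : X ^ (2 * w) ≤ X ^ L.card := Nat.pow_le_pow_right hX (by omega)
    omega
  have hNL : NB (2 * w) (X : ℝ) (∏ p ∈ L, p ^ t.factorization p) := by
    apply NB.mono_n _ hX0 hLcard
    apply NB.of_type (ι := L) (by rw [Fintype.card_coe]) (fun p => p.1)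
      (fun p => t.factorization p.1)
    · rintro ⟨p, hp⟩
      have hp' : p ∈ t.primeFactors := (Finset.mem_filter.mp hp).1
      exact ⟨(Nat.prime_of_mem_primeFactors hp').pos, by exact_mod_cast hple p hp'⟩
    · exact (Finset.prod_coe_sort L (fun p => p ^ t.factorization p)).symm
  -- the small primes
  set r0 := ∏ p ∈ S, p ^ (t.factorization p / M) with hr0
  have hr0ne : r0 ≠ 0 := by
    rw [hr0]
    exact Finset.prod_ne_zero_iff.mpr fun p hp =>
      pow_ne_zero _ (Nat.prime_of_mem_primeFactors (Finset.mem_filter.mp hp).1).ne_zero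
  have hr0dvd : r0 ^ M ∣ ∏ p ∈ S, p ^ t.factorization p := by
    rw [hr0, ← Finset.prod_pow]
    apply Finset.prod_dvd_prod_of_dvd
    intro p _
    rw [← pow_mul]
    exact pow_dvd_pow _ (Nat.div_mul_le_self _ _)
  have hr0X : r0 ≤ X := by
    by_contra hcon
    push Not at hcon
    have h1 : X ≤ r0 ^ (2 * w) := hcon.le.trans (Nat.le_self_pow (by omega) _)
    have h2 : ∀ p, p.Prime → p ∣ r0 → p ^ (2 * w) ≤ X := by
      intro p hp hpr
      rw [hr0] at hpr
      obtain ⟨q, hq, hpq⟩ := (Prime.dvd_finset_prod_iff hp.prime _).mp hpr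
      have hq' := Finset.mem_filter.mp hq
      have hqp := Nat.prime_of_mem_primeFactors hq'.1
      have : p = q := (Nat.prime_dvd_prime_iff_eq hp hqp).mp (hp.dvd_of_dvd_pow hpq)
      rw [this]
      exact not_lt.mp hq'.2
    obtain ⟨r, hr⟩ := greedy hw hr0ne h2 h1
    rcases hr with ⟨hr1, hr2, hr3⟩ | h
    · apply h
      refine ⟨r, hr2, hr3, (pow_dvd_pow_of_dvd hr1 M).trans (hr0dvd.trans ?_)⟩
      exact ⟨_, (by rw [mul_comm]; exact hprod.symm)⟩
    · omega
  have hfac : (∏ p ∈ S, p ^ t.factorization p) =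
      r0 ^ M * ∏ g : Fin M, (∏ p ∈ S.filter fun p => t.factorization p % M = g, p) ^ (g : ℕ) := by
    have h1 : ∀ p ∈ S, p ^ t.factorization p =
        (p ^ (t.factorization p / M)) ^ M * p ^ (t.factorization p % M) := by
      intro p _
      rw [← pow_mul, ← pow_add]
      congr 1
      rw [mul_comm]
      exact (Nat.div_add_mod _ _).symm
    rw [Finset.prod_congr rfl h1, Finset.prod_mul_distrib, Finset.prod_pow, ← hr0]
    congr 1
    let φ : ℕ → Fin M := fun p => ⟨t.factorization p % M, Nat.mod_lt _ hM⟩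
    rw [← Finset.prod_fiberwise S φ]
    apply Finset.prod_congr rfl
    intro g _
    rw [← Finset.prod_pow]
    have h2 : S.filter (fun p => φ p = g) = S.filter fun p => t.factorization p % M = g := by
      apply Finset.filter_congr
      intro p _
      rw [Fin.ext_iff]
    rw [h2]
    apply Finset.prod_congr rfl
    intro p hp
    rw [(Finset.mem_filter.mp hp).2]
  have hNS : NB (1 + M) (X : ℝ) (∏ p ∈ S, p ^ t.factorization p) := by
    rw [hfac]
    apply NB.mul
    · exact ⟨fun _ => r0, fun _ => M, fun _ => ⟨Nat.pos_of_ne_zero hr0ne, by exact_mod_cast hr0X⟩,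
        by simp⟩
    · refine ⟨fun g => ∏ p ∈ S.filter fun p => t.factorization p % M = g, p, fun g => g, ?_, rfl⟩
      intro g
      have hss : (S.filter fun p => t.factorization p % M = g) ⊆ t.primeFactors :=
        (Finset.filter_subset _ _).trans (Finset.filter_subset _ _)
      refine ⟨Finset.prod_pos fun p hp => (Nat.prime_of_mem_primeFactors (hss hp)).pos, ?_⟩
      exact_mod_cast hsub _ hss
  have := NB.mul hNL hNS
  rwa [hprod] at this

end Pool.Agent.T2H20.ABC
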