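import Pool.Agent.H705R2.ABC.Main

/-!
Pairs of integers with small radicals in a relation modulo a large modulus: the square root bound.
-/

set_option autoImplicit false

namespace Pool.Agent.T2H20.ABC

open Finset Pool.Agent.H785R2.ABC Pool.Agent.H705R2.ABC

/-- the product of the three inputs -/
theorem stmtJ' : StmtJ := stmtJ_of (stmtPwr_of (stmtTwo_of stmtD') stmtFac)

section CS

variable {α : Type} [DecidableEq α]

theorem card_pairs (P Q : Finset ℕ) (κP κQ : ℕ → α) (C : Finset α) (hC : ∀ n ∈ P, κP n ∈ C) :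
    ((P ×ˢ Q).filter fun t => κP t.1 = κQ t.2).card =
      ∑ c ∈ C, (P.filter fun n => κP n = c).card * (Q.filter fun n => κQ n = c).card := by
  rw [card_eq_sum_card_fiberwise (f := fun t => κP t.1) (t := C)]
  · apply sum_congr rfl
    intro c _
    rw [← card_product]
    congr 1
    ext ⟨a, b⟩
    simp only [mem_filter, mem_product]
    constructor
    · rintro ⟨⟨⟨h1, h2⟩, h3⟩, h4⟩
      exact ⟨⟨h1, h4⟩, h2, by rw [← h3]; exact h4⟩
    · rintro ⟨⟨h1, h2⟩, h3, h4⟩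
      exact ⟨⟨⟨h1, h3⟩, by rw [h2, h4]⟩, h2⟩
  · intro t ht
    have h1 : t ∈ (P ×ˢ Q).filter fun t => κP t.1 = κQ t.2 := ht
    rw [mem_filter, mem_product] at h1
    exact hC _ h1.1.1

theorem cs (P Q : Finset ℕ) (κP κQ : ℕ → α) :
    (((P ×ˢ Q).filter fun t => κP t.1 = κQ t.2).card : ℝ) ^ 2 ≤
      (((P ×ˢ P).filter fun t => κP t.1 = κP t.2).card : ℝ) *
      (((Q ×ˢ Q).filter fun t => κQ t.1 = κQ t.2).card : ℝ) := by
  classical
  set C : Finset α := P.image κP ∪ Q.image κQ with hC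
  have hP : ∀ n ∈ P, κP n ∈ C := fun n hn => mem_union_left _ (mem_image_of_mem _ hn)
  have hQ : ∀ n ∈ Q, κQ n ∈ C := fun n hn => mem_union_right _ (mem_image_of_mem _ hn)
  rw [card_pairs P Q κP κQ C hP, card_pairs P P κP κP C hP, card_pairs Q Q κQ κQ C hQ]
  push_cast
  have := sum_mul_sq_le_sq_mul_sq C (fun c => ((P.filter fun n => κP n = c).card : ℝ))
    (fun c => ((Q.filter fun n => κQ n = c).card : ℝ))
  simpa [sq] using this

end CS

/-- the type of `n`: the sizes of the parts of `n`, and the part of large exponents -/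
noncomputable def ty (K n : ℕ) : (Fin K → ℕ) × ℕ :=
  (fun i => Nat.log 2 (rd K n {i.castSucc}), part K n {Fin.last K})

lemma rad_pos (n : ℕ) : 0 < rad n := by
  unfold rad
  exact Finset.prod_pos fun p hp => (Nat.prime_of_mem_primeFactors hp).pos

lemma rd_univ_le {K n R : ℕ} (h : rad n ≤ R) : rd K n univ ≤ R := by
  rw [basics.rd_univ]; exact h

/-- the energy of the integers of a given type -/
theorem energy_ty (K A : ℕ) (hA : 1 ≤ A) (ε : ℝ) (hε : 0 < ε) : ∃ D : ℝ, 0 < D ∧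
    ∀ X f R : ℕ, 1 ≤ X → 1 ≤ f → f ≤ X ^ A → X ^ 3 ≤ f ^ 2 → R ≤ X →
    ∀ (τ : (Fin K → ℕ) × ℕ) (P : Finset ℕ),
    (∀ n ∈ P, 1 ≤ n ∧ rad n ≤ R ∧ Nat.Coprime n f ∧ ty K n = τ) →
    (((P ×ˢ P).filter fun t => (t.1 : ZMod f) = (t.2 : ZMod f)).card : ℝ) ≤
      D * (X : ℝ) ^ ε * R := by
  classical
  have hAR : (0 : ℝ) < A := by exact_mod_cast hA
  obtain ⟨e, he⟩ : ∃ e : ℝ, e = ε / A := ⟨_, rfl⟩
  have he0 : 0 < e := by rw [he]; positivity
  obtain ⟨DJ, hDJ, hJ⟩ := stmtJ' K e he0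
  refine ⟨DJ * ((2 : ℝ) ^ K) ^ e * (2 ^ K * (2 * 2 ^ (2 * K))), by positivity, ?_⟩
  intro X f R hX hf hfX hXf hRX τ P hP
  have hF := basics
  set E := (P ×ˢ P).filter fun t => (t.1 : ZMod f) = (t.2 : ZMod f) with hE
  have hX0 : (0 : ℝ) < X := by exact_mod_cast hX
  rcases P.eq_empty_or_nonempty with h0 | ⟨n0, hn0⟩
  · rw [hE, h0]
    simp only [product_empty, filter_empty, card_empty, Nat.cast_zero]
    positivity
  obtain ⟨hn01, hn0R, hn0f, hn0τ⟩ := hP n0 hn0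
  set N : Fin K → ℕ := fun i => 2 ^ (τ.1 i + 1) with hN
  have hlog : ∀ n ∈ P, ∀ i : Fin K, 2 ^ τ.1 i ≤ rd K n {i.castSucc} ∧
      rd K n {i.castSucc} ≤ N i := by
    intro n hn i
    have h1 : Nat.log 2 (rd K n {i.castSucc}) = τ.1 i := by
      have := (hP n hn).2.2.2
      rw [← this]
      rfl
    have h2 : rd K n {i.castSucc} ≠ 0 := by
      have := hF.rd_pos K n {i.castSucc}
      omega
    refine ⟨?_, ?_⟩
    · rw [← h1]; exact Nat.pow_log_le_self 2 h2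
    · show rd K n {i.castSucc} ≤ 2 ^ (τ.1 i + 1)
      rw [← h1]; exact (Nat.lt_pow_succ_log_self (by norm_num) _).le
  have hprod : ∏ i, N i ≤ 2 ^ K * R := by
    have h1 : ∏ i, N i = 2 ^ K * ∏ i : Fin K, 2 ^ τ.1 i := by
      simp only [hN, pow_succ]
      rw [Finset.prod_mul_distrib, Finset.prod_const, Finset.card_univ, Fintype.card_fin]
      ring
    have h2 : ∏ i : Fin K, 2 ^ τ.1 i ≤ ∏ i : Fin K, rd K n0 {i.castSucc} :=
      Finset.prod_le_prod' fun i _ => (hlog n0 hn0 i).1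
    have h3 := Est.rd_split hF K n0
    have h4 : ∏ i : Fin K, rd K n0 {i.castSucc} ≤ rd K n0 univ := by
      rw [← h3]
      exact Nat.le_mul_of_pos_right _ (hF.rd_pos _ _ _)
    rw [h1]
    exact Nat.mul_le_mul_left _ (h2.trans (h4.trans (rd_univ_le hn0R)))
  set G : ℕ × ℕ → (Fin K → ℕ) × (Fin K → ℕ) :=
    fun x => (fun i => rd K x.1 {i.castSucc}, fun i => rd K x.2 {i.castSucc}) with hG
  have hlast : ∀ n ∈ P, part K n {Fin.last K} = τ.2 := by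
    intro n hn
    rw [← (hP n hn).2.2.2]
    rfl
  have hE' : ∀ x ∈ E, x.1 ∈ P ∧ x.2 ∈ P ∧ (x.1 : ZMod f) = (x.2 : ZMod f) := by
    intro x hx
    rw [hE, mem_filter, mem_product] at hx
    exact ⟨hx.1.1, hx.1.2, hx.2⟩
  have hinj : Set.InjOn G E := by
    intro x hx x' hx' hxx
    obtain ⟨hx1, hx2, -⟩ := hE' x hx
    obtain ⟨hx1', hx2', -⟩ := hE' x' hx'
    have e1 := congrArg Prod.fst hxx
    have e2 := congrArg Prod.snd hxx
    simp only [hG] at e1 e2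
    apply Prod.ext
    · rw [Est.fact hF K x.1 (hP _ hx1).1, Est.fact hF K x'.1 (hP _ hx1').1, hlast _ hx1,
        hlast _ hx1']
      congr 1
      apply prod_congr rfl
      intro i _
      rw [congrFun e1 i]
    · rw [Est.fact hF K x.2 (hP _ hx2).1, Est.fact hF K x'.2 (hP _ hx2').1, hlast _ hx2,
        hlast _ hx2']
      congr 1
      apply prod_congr rfl
      intro i _
      rw [congrFun e2 i]
  rw [← card_image_of_injOn hinj]
  have hXJ1 : 1 ≤ 2 ^ K * X ^ A := Nat.mul_pos (Nat.two_pow_pos K) (Nat.pow_pos hX)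
  have hXXA : X ≤ X ^ A := Nat.le_self_pow (by omega) X
  have hmain := hJ (2 ^ K * X ^ A) f hXJ1 hf
    (hfX.trans (Nat.le_mul_of_pos_left _ (Nat.two_pow_pos K))) N
    (fun i => Nat.one_le_two_pow) (hprod.trans (Nat.mul_le_mul_left _ (hRX.trans hXXA)))
    1 isUnit_one (E.image G) (by
      intro y hy
      obtain ⟨x, hx, rfl⟩ := mem_image.1 hy
      obtain ⟨hx1, hx2, hxx⟩ := hE' x hx
      have hcop : ∀ n ∈ P, ∀ S : Finset (Fin (K + 1)), Nat.Coprime (rd K n S) f := by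
        intro n hn S
        exact Nat.Coprime.coprime_dvd_left (Est.rd_dvd_self hF K n (hP n hn).1 S)
          (hP n hn).2.2.1
      refine ⟨fun i => ⟨hF.rd_pos _ _ _, (hlog _ hx1 i).2, hcop _ hx1 _⟩,
        fun i => ⟨hF.rd_pos _ _ _, (hlog _ hx2 i).2, hcop _ hx2 _⟩, ?_⟩
      rw [one_mul]
      have h1 : (x.1 : ZMod f) = (x.2 : ZMod f) := hxx
      rw [Est.fact hF K x.1 (hP _ hx1).1, Est.fact hF K x.2 (hP _ hx2).1, hlast _ hx1,
        hlast _ hx2] at h1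
      push_cast at h1
      have hτ : Nat.Coprime τ.2 f := by
        rw [← hlast _ hx1]
        exact Nat.Coprime.coprime_dvd_left (hF.part_dvd K _ _ (hP _ hx1).1) (hP _ hx1).2.2.1
      have hu : IsUnit (τ.2 : ZMod f) := (ZMod.isUnit_iff_coprime _ _).mpr hτ
      exact hu.mul_right_cancel h1)
  refine hmain.trans ?_
  -- numerics
  have hprodR : (∏ i, (N i : ℝ)) ≤ 2 ^ K * R := by exact_mod_cast hprod
  have hprod0 : (0 : ℝ) ≤ ∏ i, (N i : ℝ) := Finset.prod_nonneg fun i _ => Nat.cast_nonneg _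
  have hf0 : (0 : ℝ) < f := by exact_mod_cast hf
  have hRXr : (R : ℝ) ≤ X := by exact_mod_cast hRX
  have hXf' : (X : ℝ) ^ ((3 : ℝ) / 2) ≤ f := by
    have h1 : ((X : ℝ) ^ ((3 : ℝ) / 2)) ^ 2 ≤ (f : ℝ) ^ 2 := by
      rw [← Real.rpow_natCast, ← Real.rpow_mul hX0.le]
      norm_num
      exact_mod_cast hXf
    exact le_of_sq_le_sq h1 hf0.le
  have h32 : (∏ i, (N i : ℝ)) ^ ((3 : ℝ) / 2) ≤ 2 ^ (2 * K) * f := by
    calc (∏ i, (N i : ℝ)) ^ ((3 : ℝ) / 2) ≤ (2 ^ K * (X : ℝ)) ^ ((3 : ℝ) / 2) := by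
          apply Real.rpow_le_rpow hprod0 (hprodR.trans _) (by norm_num)
          exact mul_le_mul_of_nonneg_left hRXr (by positivity)
      _ = ((2 : ℝ) ^ K) ^ ((3 : ℝ) / 2) * (X : ℝ) ^ ((3 : ℝ) / 2) :=
          Real.mul_rpow (by positivity) hX0.le
      _ ≤ ((2 : ℝ) ^ K) ^ (2 : ℝ) * f := by
          apply mul_le_mul _ hXf' (by positivity) (by positivity)
          exact Real.rpow_le_rpow_of_exponent_le (one_le_pow₀ (by norm_num)) (by norm_num)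
      _ = 2 ^ (2 * K) * f := by rw [Real.rpow_two, ← pow_mul, mul_comm K 2]
  have hone : (1 : ℝ) ≤ 2 ^ (2 * K) := one_le_pow₀ (by norm_num)
  have hb : 1 + (∏ i, (N i : ℝ)) ^ ((3 : ℝ) / 2) / f ≤ 2 * 2 ^ (2 * K) := by
    have : (∏ i, (N i : ℝ)) ^ ((3 : ℝ) / 2) / f ≤ 2 ^ (2 * K) := by
      rw [div_le_iff₀ hf0]; exact h32
    linarith
  have hXe : (((2 ^ K * X ^ A : ℕ) : ℝ)) ^ e = ((2 : ℝ) ^ K) ^ e * (X : ℝ) ^ ε := by
    push_cast
    rw [Real.mul_rpow (by positivity) (by positivity), ← Real.rpow_natCast (X : ℝ) A,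
      ← Real.rpow_mul hX0.le, he]
    congr 2
    field_simp
  rw [hXe]
  calc DJ * (((2 : ℝ) ^ K) ^ e * (X : ℝ) ^ ε) *
        ((∏ i, (N i : ℝ)) * (1 + (∏ i, (N i : ℝ)) ^ ((3 : ℝ) / 2) / f))
      ≤ DJ * (((2 : ℝ) ^ K) ^ e * (X : ℝ) ^ ε) * ((2 ^ K * R) * (2 * 2 ^ (2 * K))) := by
        apply mul_le_mul_of_nonneg_left _ (by positivity)
        exact mul_le_mul hprodR hb (by positivity) (by positivity)
    _ = _ := by ring

/-- powers of the logarithm -/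
lemma log_pow_le (K : ℕ) (e : ℝ) (he : 0 < e) : ∃ D : ℝ, 0 < D ∧ ∀ X : ℕ, 1 ≤ X →
    ((Nat.log 2 X + 1 : ℕ) : ℝ) ^ K ≤ D * (X : ℝ) ^ e := by
  obtain ⟨d, hd⟩ : ∃ d : ℝ, d = e / (K + 1) := ⟨_, rfl⟩
  have hd0 : 0 < d := by rw [hd]; positivity
  have hl2 : 0 < Real.log 2 := Real.log_pos (by norm_num)
  refine ⟨(1 / (d * Real.log 2) + 1) ^ K, by positivity, ?_⟩
  intro X hX
  have hX0 : (0 : ℝ) < X := by exact_mod_cast hX
  have hX1 : (1 : ℝ) ≤ X := by exact_mod_cast hX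
  have h1 : (Nat.log 2 X : ℝ) ≤ Real.log X / Real.log 2 := by
    rw [le_div_iff₀ hl2, ← Real.log_pow]
    apply Real.log_le_log (by positivity)
    exact_mod_cast Nat.pow_log_le_self 2 (by omega)
  have h2 : Real.log X ≤ (X : ℝ) ^ d / d := Real.log_le_rpow_div hX0.le hd0
  have h3 : (1 : ℝ) ≤ (X : ℝ) ^ d := Real.one_le_rpow hX1 hd0.le
  have h4 : ((Nat.log 2 X + 1 : ℕ) : ℝ) ≤ (1 / (d * Real.log 2) + 1) * (X : ℝ) ^ d := by
    push_cast
    have h5 : Real.log X / Real.log 2 ≤ ((X : ℝ) ^ d / d) / Real.log 2 :=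
      div_le_div_of_nonneg_right h2 hl2.le
    have h6 : ((X : ℝ) ^ d / d) / Real.log 2 = 1 / (d * Real.log 2) * (X : ℝ) ^ d := by
      field_simp
    rw [h6] at h5
    linarith
  calc ((Nat.log 2 X + 1 : ℕ) : ℝ) ^ K ≤ ((1 / (d * Real.log 2) + 1) * (X : ℝ) ^ d) ^ K :=
        pow_le_pow_left₀ (Nat.cast_nonneg _) h4 K
    _ = (1 / (d * Real.log 2) + 1) ^ K * (X : ℝ) ^ (d * K) := by
        rw [mul_pow, ← Real.rpow_natCast ((X : ℝ) ^ d), ← Real.rpow_mul hX0.le]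
    _ ≤ (1 / (d * Real.log 2) + 1) ^ K * (X : ℝ) ^ e := by
        apply mul_le_mul_of_nonneg_left _ (by positivity)
        apply Real.rpow_le_rpow_of_exponent_le hX1
        rw [hd, div_mul_eq_mul_div, div_le_iff₀ (by positivity)]
        nlinarith

/-- the number of types -/
theorem types (K A : ℕ) (hA : 1 ≤ A) (e : ℝ) (he : 0 < e) (hK : (A : ℝ) ≤ e * (K + 1)) :
    ∃ D : ℝ, 0 < D ∧ ∀ X : ℕ, 1 ≤ X → ∃ Ty : Finset ((Fin K → ℕ) × ℕ),
      (Ty.card : ℝ) ≤ D * (X : ℝ) ^ (3 * e) ∧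
      ∀ n : ℕ, 1 ≤ n → n ≤ X ^ A → rad n ≤ X → ty K n ∈ Ty := by
  classical
  have hAR : (0 : ℝ) < A := by exact_mod_cast hA
  have hF := basics
  obtain ⟨D4, hD4, h4⟩ := stmtA4' (e / A) (by positivity)
  obtain ⟨DL, hDL, hL⟩ := log_pow_le K e he
  refine ⟨DL * D4, by positivity, ?_⟩
  intro X hX
  have hX0 : (0 : ℝ) < X := by exact_mod_cast hX
  have hX1 : (1 : ℝ) ≤ X := by exact_mod_cast hX
  refine ⟨(Fintype.piFinset fun _ : Fin K => range (Nat.log 2 X + 1)) ×ˢ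
    ((Icc 1 (X ^ A)).filter fun d => (rad d : ℝ) ≤ (X : ℝ) ^ e), ?_, ?_⟩
  · rw [card_product, Fintype.card_piFinset, prod_const, card_range, card_univ, Fintype.card_fin]
    push_cast
    have h5 := h4 (X ^ A) (Nat.pow_pos hX) ((X : ℝ) ^ e) (by positivity)
    have h6 : (((X ^ A : ℕ) : ℝ)) ^ (e / A) = (X : ℝ) ^ e := by
      push_cast
      rw [← Real.rpow_natCast, ← Real.rpow_mul hX0.le]
      congr 1
      field_simp
    rw [h6] at h5
    have h7 := hL X hX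
    push_cast at h7
    calc ((Nat.log 2 X : ℝ) + 1) ^ K * ((((Icc 1 (X ^ A)).filter
          fun d => (rad d : ℝ) ≤ (X : ℝ) ^ e).card : ℕ) : ℝ)
        ≤ (DL * (X : ℝ) ^ e) * (D4 * (X : ℝ) ^ e * (X : ℝ) ^ e) :=
          mul_le_mul h7 h5 (Nat.cast_nonneg _) (by positivity)
      _ = DL * D4 * ((X : ℝ) ^ e * (X : ℝ) ^ e * (X : ℝ) ^ e) := by ring
      _ = DL * D4 * (X : ℝ) ^ (3 * e) := by
          rw [← Real.rpow_add hX0, ← Real.rpow_add hX0]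
          congr 2
          ring
  · intro n hn hnX hr
    rw [mem_product]
    refine ⟨?_, ?_⟩
    · rw [Fintype.mem_piFinset]
      intro i
      rw [mem_range]
      have h5 : rd K n {i.castSucc} ≤ X := by
        refine le_trans (Nat.le_of_dvd (rad_pos n) ?_) hr
        rw [← hF.rd_univ K n]
        exact hF.rd_dvd K n _ _ (subset_univ _)
      have h6 : Nat.log 2 (rd K n {i.castSucc}) ≤ Nat.log 2 X := Nat.log_mono_right h5
      show Nat.log 2 (rd K n {i.castSucc}) < Nat.log 2 X + 1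
      omega
    · show part K n {Fin.last K} ∈ _
      have h5 : part K n {Fin.last K} ≤ X ^ A := (Nat.le_of_dvd hn (hF.part_dvd K n _ hn)).trans hnX
      rw [mem_filter, mem_Icc]
      refine ⟨⟨hF.part_pos _ _ _, h5⟩, ?_⟩
      rw [hF.rad_part K n _ hn]
      have h6 : ((rd K n {Fin.last K} : ℕ) : ℝ) ^ (K + 1) ≤ ((X : ℝ) ^ e) ^ (K + 1) := by
        have h7 : rd K n {Fin.last K} ^ (K + 1) ≤ X ^ A := (hF.part_last K n).trans h5
        calc ((rd K n {Fin.last K} : ℕ) : ℝ) ^ (K + 1) ≤ (X : ℝ) ^ A := by exact_mod_cast h7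
          _ = (X : ℝ) ^ (A : ℝ) := (Real.rpow_natCast _ _).symm
          _ ≤ (X : ℝ) ^ (e * (K + 1)) := Real.rpow_le_rpow_of_exponent_le hX1 hK
          _ = ((X : ℝ) ^ e) ^ (K + 1) := by
            rw [← Real.rpow_natCast ((X : ℝ) ^ e), ← Real.rpow_mul hX0.le]
            push_cast
            rfl
      exact le_of_pow_le_pow_left₀ (by omega) (by positivity) h6

/-- **the square root bound for pairs** -/
theorem pair_bound (A : ℕ) (hA : 1 ≤ A) (ε : ℝ) (hε : 0 < ε) : ∃ D : ℝ, 0 < D ∧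
    ∀ X f R₁ R₂ : ℕ, 1 ≤ X → 1 ≤ f → f ≤ X ^ A → X ^ 3 ≤ f ^ 2 → R₁ ≤ X → R₂ ≤ X →
    ∀ σ : ZMod f, IsUnit σ → ∀ T : Finset (ℕ × ℕ),
    (∀ t ∈ T, (1 ≤ t.1 ∧ t.1 ≤ X ^ A ∧ rad t.1 ≤ R₁ ∧ Nat.Coprime t.1 f) ∧
      (1 ≤ t.2 ∧ t.2 ≤ X ^ A ∧ rad t.2 ≤ R₂ ∧ Nat.Coprime t.2 f) ∧
      (t.1 : ZMod f) = σ * (t.2 : ZMod f)) →
    (T.card : ℝ) ≤ D * (X : ℝ) ^ ε * Real.sqrt ((R₁ : ℝ) * R₂) := by
  classical
  have hAR : (0 : ℝ) < A := by exact_mod_cast hA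
  obtain ⟨e, he⟩ : ∃ e : ℝ, e = ε / 7 := ⟨_, rfl⟩
  have he0 : 0 < e := by rw [he]; positivity
  obtain ⟨K, hK⟩ := exists_nat_ge ((A : ℝ) / e)
  have hK' : (A : ℝ) ≤ e * (K + 1) := by
    rw [div_le_iff₀ he0] at hK
    nlinarith
  obtain ⟨DE, hDE, hEn⟩ := energy_ty K A hA e he0
  obtain ⟨DT, hDT, hTy⟩ := types K A hA e he0 hK'
  refine ⟨DT ^ 2 * DE, by positivity, ?_⟩
  intro X f R₁ R₂ hX hf hfX hXf hR₁ hR₂ σ hσ T hT
  have hX0 : (0 : ℝ) < X := by exact_mod_cast hX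
  obtain ⟨Ty, hTyc, hTym⟩ := hTy X hX
  have hfib : ∀ z ∈ Ty ×ˢ Ty, ((T.filter fun t => (ty K t.1, ty K t.2) = z).card : ℝ) ≤
      DE * (X : ℝ) ^ e * Real.sqrt ((R₁ : ℝ) * R₂) := by
    intro z _
    set T' := T.filter fun t => (ty K t.1, ty K t.2) = z with hT'
    have hT'm : ∀ t ∈ T', t ∈ T ∧ ty K t.1 = z.1 ∧ ty K t.2 = z.2 := by
      intro t ht
      rw [hT', mem_filter] at ht
      exact ⟨ht.1, congrArg Prod.fst ht.2, congrArg Prod.snd ht.2⟩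
    set P := T'.image Prod.fst with hP
    set Q := T'.image Prod.snd with hQ
    have hcs := cs P Q (fun n => (n : ZMod f)) (fun n => σ * (n : ZMod f))
    have h1 : T'.card ≤
        ((P ×ˢ Q).filter fun t => (t.1 : ZMod f) = σ * (t.2 : ZMod f)).card := by
      apply card_le_card
      intro t ht
      rw [mem_filter, mem_product]
      exact ⟨⟨mem_image_of_mem _ ht, mem_image_of_mem _ ht⟩, (hT t (hT'm t ht).1).2.2⟩
    have h2 : (((P ×ˢ P).filter fun t => (t.1 : ZMod f) = (t.2 : ZMod f)).card : ℝ) ≤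
        DE * (X : ℝ) ^ e * R₁ := by
      apply hEn X f R₁ hX hf hfX hXf hR₁ z.1 P
      intro n hn
      obtain ⟨t, ht, rfl⟩ := mem_image.1 hn
      obtain ⟨htT, ht1, ht2⟩ := hT'm t ht
      obtain ⟨⟨g1, g2, g3, g4⟩, -, -⟩ := hT t htT
      exact ⟨g1, g3, g4, ht1⟩
    have h3 : (((Q ×ˢ Q).filter fun t => σ * (t.1 : ZMod f) = σ * (t.2 : ZMod f)).card : ℝ) ≤
        DE * (X : ℝ) ^ e * R₂ := by
      have h4 : ((Q ×ˢ Q).filter fun t => σ * (t.1 : ZMod f) = σ * (t.2 : ZMod f)) =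
          ((Q ×ˢ Q).filter fun t => (t.1 : ZMod f) = (t.2 : ZMod f)) := by
        apply filter_congr
        intro t _
        exact ⟨fun h => hσ.mul_left_cancel h, fun h => by rw [h]⟩
      rw [h4]
      apply hEn X f R₂ hX hf hfX hXf hR₂ z.2 Q
      intro n hn
      obtain ⟨t, ht, rfl⟩ := mem_image.1 hn
      obtain ⟨htT, ht1, ht2⟩ := hT'm t ht
      obtain ⟨-, ⟨g1, g2, g3, g4⟩, -⟩ := hT t htT
      exact ⟨g1, g3, g4, ht2⟩
    have h5 : (T'.card : ℝ) ^ 2 ≤ (DE * (X : ℝ) ^ e * Real.sqrt ((R₁ : ℝ) * R₂)) ^ 2 := by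
      rw [mul_pow, Real.sq_sqrt (by positivity)]
      calc (T'.card : ℝ) ^ 2 ≤
          (((P ×ˢ Q).filter fun t => (t.1 : ZMod f) = σ * (t.2 : ZMod f)).card : ℝ) ^ 2 := by
            apply pow_le_pow_left₀ (Nat.cast_nonneg _)
            exact_mod_cast h1
        _ ≤ _ := hcs
        _ ≤ (DE * (X : ℝ) ^ e * R₁) * (DE * (X : ℝ) ^ e * R₂) :=
            mul_le_mul h2 h3 (Nat.cast_nonneg _) (by positivity)
        _ = _ := by ring
    exact le_of_sq_le_sq h5 (by positivity)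
  have hsum : T.card = ∑ z ∈ Ty ×ˢ Ty, (T.filter fun t => (ty K t.1, ty K t.2) = z).card := by
    apply card_eq_sum_card_fiberwise
    intro t ht
    obtain ⟨⟨g1, g2, g3, g4⟩, ⟨g5, g6, g7, g8⟩, -⟩ := hT t ht
    show (ty K t.1, ty K t.2) ∈ ((Ty ×ˢ Ty : Finset _) : Set _)
    rw [mem_coe, mem_product]
    exact ⟨hTym _ g1 g2 (g3.trans hR₁), hTym _ g5 g6 (g7.trans hR₂)⟩
  rw [hsum]
  push_cast
  calc _ ≤ ∑ _z ∈ Ty ×ˢ Ty, DE * (X : ℝ) ^ e * Real.sqrt ((R₁ : ℝ) * R₂) := sum_le_sum hfib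
    _ = (Ty.card : ℝ) ^ 2 * (DE * (X : ℝ) ^ e * Real.sqrt ((R₁ : ℝ) * R₂)) := by
        rw [sum_const, card_product, nsmul_eq_mul]; push_cast; ring
    _ ≤ (DT * (X : ℝ) ^ (3 * e)) ^ 2 * (DE * (X : ℝ) ^ e * Real.sqrt ((R₁ : ℝ) * R₂)) := by
        apply mul_le_mul_of_nonneg_right _ (by positivity)
        exact pow_le_pow_left₀ (Nat.cast_nonneg _) hTyc 2
    _ = DT ^ 2 * DE * (((X : ℝ) ^ (3 * e)) ^ 2 * (X : ℝ) ^ e) * Real.sqrt ((R₁ : ℝ) * R₂) := by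
        ring
    _ = DT ^ 2 * DE * (X : ℝ) ^ ε * Real.sqrt ((R₁ : ℝ) * R₂) := by
        rw [← Real.rpow_natCast ((X : ℝ) ^ (3 * e)), ← Real.rpow_mul hX0.le,
          ← Real.rpow_add hX0]
        congr 3
        rw [he]
        push_cast
        ring

end Pool.Agent.T2H20.ABC
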