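import Pool.Agent.Y913.Nb.CountP3
import Pool.Agent.Y913.Nb.Ops
import Pool.Agent.T2H20.ABC.H

/-!
Pairs of coprime products of powers of few small integers in a given class modulo a large power.
-/

set_option autoImplicit false

namespace Pool.Agent.T2H20.ABC

open Finset Pool.Agent.Y913 Pool.Agent.Y913.Nb

/-- representation of a pair -/
lemma exists_rep' {n H : ℕ} {Y : ℝ} (hY : 1 ≤ Y) {q : ℕ × ℕ} (h0 : 0 < q.1) (h1 : 0 < q.2)
    (hH1 : q.1 ≤ H) (hH2 : q.2 ≤ H) (hu : NB n Y q.1) (hv : NB n Y q.2) :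
    ∃ (X : Fin n ⊕ Fin n → ℕ) (b : Fin n ⊕ Fin n → ℤ), (∀ j, 1 ≤ X j ∧ (X j : ℝ) ≤ Y) ∧
      (∀ j, 2 ^ (b j).natAbs ≤ H) ∧
      (∑ j, (b j : ℝ) * Real.log (X j) = Real.log q.2 - Real.log q.1) ∧
      ∀ N : ℕ, q.1.Coprime N → q.2.Coprime N → (∀ j, (X j).Coprime N) ∧
        ∏ j, (ud N (X j)) ^ b j = ud N q.2 * (ud N q.1)⁻¹ := by
  classical
  obtain ⟨x, a, hx, hxm, hxa, hxd⟩ := hu.normal h0 hY
  obtain ⟨y, c, hy, hym, hyc, hyd⟩ := hv.normal h1 hY
  have hlog : ∀ (x a : Fin n → ℕ), (∀ i, 1 ≤ x i) → Real.log ((∏ i, x i ^ a i : ℕ) : ℝ) =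
      ∑ i, (a i : ℝ) * Real.log (x i) := by
    intro x a hx
    push_cast
    rw [Real.log_prod (fun i _ => pow_ne_zero _ (by
      have := hx i
      positivity))]
    simp only [Real.log_pow]
  refine ⟨Sum.elim x y, Sum.elim (fun i => -(a i : ℤ)) (fun i => (c i : ℤ)), ?_, ?_, ?_, ?_⟩
  · rintro (i | i)
    · exact hx i
    · exact hy i
  · rintro (i | i)
    · show 2 ^ (-(a i : ℤ)).natAbs ≤ H
      rw [Int.natAbs_neg, Int.natAbs_natCast]
      exact (hxa i).trans hH1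
    · show 2 ^ ((c i : ℤ)).natAbs ≤ H
      rw [Int.natAbs_natCast]
      exact (hyc i).trans hH2
  · rw [Fintype.sum_sum_type]
    simp only [Sum.elim_inl, Sum.elim_inr]
    have e1 := hlog x a (fun i => (hx i).1)
    have e2 := hlog y c (fun i => (hy i).1)
    rw [← hxm] at e1
    rw [← hym] at e2
    rw [e1, e2]
    push_cast
    simp only [neg_mul]
    rw [Finset.sum_neg_distrib]
    ring
  · intro N hN1 hN2
    have hcx : ∀ i, (x i).Coprime N := fun i => Nat.Coprime.coprime_dvd_left (hxd i) hN1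
    have hcy : ∀ i, (y i).Coprime N := fun i => Nat.Coprime.coprime_dvd_left (hyd i) hN2
    refine ⟨?_, ?_⟩
    · rintro (i | i)
      · exact hcx i
      · exact hcy i
    · rw [Fintype.prod_sum_type]
      simp only [Sum.elim_inl, Sum.elim_inr]
      have hpr : ∀ (x a : Fin n → ℕ), (∀ i, (x i).Coprime N) →
          ud N (∏ i, x i ^ a i) = ∏ i, (ud N (x i)) ^ a i := by
        intro x a hx
        rw [ud_prod _ _ (fun i _ => Nat.Coprime.pow_left _ (hx i))]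
        apply Finset.prod_congr rfl
        intro i _
        rw [← Units.val_inj, ud_coe (Nat.Coprime.pow_left _ (hx i)), Units.val_pow_eq_pow_val,
          ud_coe (hx i)]
        push_cast
        rfl
      have e1 := hpr x a hcx
      have e2 := hpr y c hcy
      rw [← hxm] at e1
      rw [← hym] at e2
      rw [e1, e2, mul_comm, ← Finset.prod_inv_distrib]
      congr 1
      · apply Finset.prod_congr rfl
        intro i _
        rw [zpow_neg, zpow_natCast]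

/-- a power of the logarithm is smaller than a power -/
lemma log_lt_pow (c k : ℕ) : ∃ X0 : ℕ, ∀ X : ℕ, X0 ≤ X → (c * (Nat.log 2 X + 1)) ^ k ≤ X := by
  have h : ∀ᶠ x : ℝ in Filter.atTop, Real.log x ^ (k + 1) ≤ x := by
    have h1 := isLittleO_log_rpow_atTop (r := 1 / ((k : ℝ) + 1)) (by positivity)
    have h2 := h1.bound (c := 1) (by norm_num)
    filter_upwards [h2, Filter.eventually_ge_atTop 1] with x hx hx1
    rw [one_mul, Real.norm_of_nonneg (Real.log_nonneg hx1), Real.norm_of_nonneg (by positivity)] at hx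
    calc Real.log x ^ (k + 1) ≤ (x ^ (1 / ((k : ℝ) + 1))) ^ (k + 1) :=
          pow_le_pow_left₀ (Real.log_nonneg hx1) hx _
      _ = x := by
        rw [← Real.rpow_natCast, ← Real.rpow_mul (by linarith)]
        push_cast
        rw [one_div, inv_mul_cancel₀ (by positivity), Real.rpow_one]
  obtain ⟨x0, hx0⟩ := Filter.eventually_atTop.mp h
  -- `log X ≥ (c (1/log 2 + 1))^k` makes the power of the logarithm absorb the constant
  obtain ⟨x1, hx1⟩ := exists_nat_ge (max x0 (Real.exp ((c * (1 / Real.log 2 + 1)) ^ k + 1)))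
  have hl2 : 0 < Real.log 2 := Real.log_pos (by norm_num)
  refine ⟨x1, fun X hX => ?_⟩
  have hXr : (x1 : ℝ) ≤ X := by exact_mod_cast hX
  have h1 : x0 ≤ (X : ℝ) := (le_max_left _ _).trans (hx1.trans hXr)
  have h2 : Real.exp ((c * (1 / Real.log 2 + 1)) ^ k + 1) ≤ X :=
    (le_max_right _ _).trans (hx1.trans hXr)
  have hX0 : (0 : ℝ) < X := lt_of_lt_of_le (Real.exp_pos _) h2
  have hXn : X ≠ 0 := by
    rintro rfl
    simp at hX0
  have h3 : (c * (1 / Real.log 2 + 1)) ^ k + 1 ≤ Real.log X := by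
    rw [Real.le_log_iff_exp_le hX0]; exact h2
  have hc0 : (0 : ℝ) ≤ (c * (1 / Real.log 2 + 1)) ^ k := by positivity
  have h4 : (Nat.log 2 X : ℝ) ≤ Real.log X / Real.log 2 := by
    rw [le_div_iff₀ hl2, ← Real.log_pow]
    apply Real.log_le_log (by positivity)
    exact_mod_cast Nat.pow_log_le_self 2 hXn
  have h5 : (c : ℝ) * (Nat.log 2 X + 1) ≤ c * (1 / Real.log 2 + 1) * Real.log X := by
    have : (Nat.log 2 X : ℝ) + 1 ≤ (1 / Real.log 2 + 1) * Real.log X := by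
      have : Real.log X / Real.log 2 = 1 / Real.log 2 * Real.log X := by ring
      rw [add_mul, ← this]
      linarith
    calc (c : ℝ) * (Nat.log 2 X + 1) ≤ c * ((1 / Real.log 2 + 1) * Real.log X) :=
          mul_le_mul_of_nonneg_left this (Nat.cast_nonneg _)
      _ = _ := by ring
  have h6 : (((c * (Nat.log 2 X + 1)) ^ k : ℕ) : ℝ) ≤ X := by
    push_cast
    calc ((c : ℝ) * (Nat.log 2 X + 1)) ^ k ≤ (c * (1 / Real.log 2 + 1) * Real.log X) ^ k :=
          pow_le_pow_left₀ (by positivity) h5 k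
      _ = (c * (1 / Real.log 2 + 1)) ^ k * Real.log X ^ k := mul_pow _ _ _
      _ ≤ Real.log X * Real.log X ^ k := by
          apply mul_le_mul_of_nonneg_right _ (pow_nonneg (by linarith) _)
          linarith
      _ = Real.log X ^ (k + 1) := by ring
      _ ≤ X := hx0 _ h1
  exact_mod_cast h6

/-- **few powers in a class modulo a large power** -/
theorem fp_count (n : ℕ) (ε : ℝ) (hε : 0 < ε) : ∃ w0 : ℕ, ∀ w, w0 ≤ w → ∃ M0 : ℕ,
    ∀ M, M0 ≤ M → ∀ A : ℕ, ∃ C : ℝ, 0 < C ∧ ∀ X r : ℕ, 1 ≤ X → X ≤ r ^ (2 * w) → r ^ w ≤ X →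
    ∀ κ : (ZMod (r ^ M))ˣ, ∀ Q : Finset (ℕ × ℕ),
    (∀ q ∈ Q, (0 < q.1 ∧ q.1 ≤ X ^ A ∧ q.1.Coprime r ∧ NB n (X : ℝ) q.1) ∧
      (0 < q.2 ∧ q.2 ≤ X ^ A ∧ q.2.Coprime r ∧ NB n (X : ℝ) q.2) ∧ q.1.Coprime q.2 ∧
      ud (r ^ M) q.2 * (ud (r ^ M) q.1)⁻¹ = κ) →
    (Q.card : ℝ) ≤ C * (X : ℝ) ^ ε := by
  classical
  obtain ⟨w0, hw0⟩ := exists_nat_ge (16 * (n : ℝ) ^ 2 / ε)
  refine ⟨w0 + 1, fun w hw => ?_⟩
  obtain ⟨m0, C1, hcount⟩ := count_padic_val3 (Fin n ⊕ Fin n) w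
  have hcard : Fintype.card (Fin n ⊕ Fin n) = 2 * n := by
    rw [Fintype.card_sum, Fintype.card_fin]; ring
  rw [hcard] at hcount
  refine ⟨2 * KK (2 * n) (2 * n * w), fun M hM A => ?_⟩
  obtain ⟨X0, hX0⟩ := log_lt_pow (m0 * (2 * n * A)) w
  obtain ⟨DL, hDL, hL⟩ := log_pow_le (2 * n) (ε / 2) (by positivity)
  obtain ⟨X1, hX1⟩ : ∃ X1, X1 = max X0 2 := ⟨_, rfl⟩
  refine ⟨max ((X1 : ℝ) ^ (2 * A)) ((2 * A + 1) ^ (2 * n) * DL * (C1 : ℝ) ^ (2 * n)) + 1,
    by positivity, ?_⟩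
  intro X r hX hXr hrX κ Q hQ
  have hX0r : (0 : ℝ) < X := by exact_mod_cast hX
  have hX1r : (1 : ℝ) ≤ X := by exact_mod_cast hX
  have hXε : (1 : ℝ) ≤ (X : ℝ) ^ ε := Real.one_le_rpow hX1r hε.le
  by_cases hsmall : X < X1
  · -- small `X`
    have h1 : Q ⊆ Icc 1 (X ^ A) ×ˢ Icc 1 (X ^ A) := by
      intro q hq
      obtain ⟨⟨g1, g2, -, -⟩, ⟨g3, g4, -, -⟩, -⟩ := hQ q hq
      rw [mem_product, mem_Icc, mem_Icc]
      exact ⟨⟨g1, g2⟩, ⟨g3, g4⟩⟩
    have h2 := card_le_card h1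
    rw [card_product, Nat.card_Icc] at h2
    have h3 : Q.card ≤ X1 ^ (2 * A) := by
      calc Q.card ≤ (X ^ A + 1 - 1) * (X ^ A + 1 - 1) := h2
        _ = X ^ (2 * A) := by rw [Nat.add_sub_cancel]; ring
        _ ≤ X1 ^ (2 * A) := Nat.pow_le_pow_left hsmall.le _
    have h4 : (Q.card : ℝ) ≤ (X1 : ℝ) ^ (2 * A) := by exact_mod_cast h3
    have h5 := le_max_left ((X1 : ℝ) ^ (2 * A)) ((2 * A + 1) ^ (2 * n) * DL * (C1 : ℝ) ^ (2 * n))
    have h6 : (0 : ℝ) ≤ (X1 : ℝ) ^ (2 * A) := by positivity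
    nlinarith
  push Not at hsmall
  have hXX0 : X0 ≤ X := by omega
  have hX2 : 2 ≤ X := by omega
  have hr2 : 2 ≤ r := by
    by_contra h
    have : r ^ (2 * w) ≤ 1 := by
      have : r ≤ 1 := by omega
      exact pow_le_one' this _
    omega
  have hw1 : 1 ≤ w := by omega
  obtain ⟨L, hLd⟩ : ∃ L, L = A * (Nat.log 2 X + 1) := ⟨_, rfl⟩
  have hlogL : ∀ a : ℕ, 2 ^ a ≤ X ^ A → a ≤ L := by
    intro a ha
    have h1 : X ^ A ≤ (2 ^ (Nat.log 2 X + 1)) ^ A :=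
      Nat.pow_le_pow_left (Nat.lt_pow_succ_log_self (by norm_num) X).le A
    rw [← pow_mul, mul_comm, ← hLd] at h1
    exact (Nat.pow_le_pow_iff_right (by norm_num)).mp (ha.trans h1)
  have hrep : ∀ q ∈ Q, ∃ (x : Fin n ⊕ Fin n → ℕ) (b : Fin n ⊕ Fin n → ℤ),
      (∀ j, 1 ≤ x j ∧ (x j : ℝ) ≤ X) ∧ (∀ j, 2 ^ (b j).natAbs ≤ X ^ A) ∧
      (∑ j, (b j : ℝ) * Real.log (x j) = Real.log q.2 - Real.log q.1) ∧
      ∀ N : ℕ, q.1.Coprime N → q.2.Coprime N → (∀ j, (x j).Coprime N) ∧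
        ∏ j, (ud N (x j)) ^ b j = ud N q.2 * (ud N q.1)⁻¹ := by
    intro q hq
    obtain ⟨⟨g1, g2, g3, g4⟩, ⟨g5, g6, g7, g8⟩, g9, g10⟩ := hQ q hq
    exact exists_rep' hX1r g1 g5 g2 g6 g4 g8
  choose! x b hx hb hs hN using hrep
  set B : Finset (Fin n ⊕ Fin n → ℤ) :=
    Fintype.piFinset fun _ => Icc (-(L : ℤ)) L with hB
  have hbB : ∀ q ∈ Q, b q ∈ B := by
    intro q hq
    rw [hB, Fintype.mem_piFinset]
    intro j
    have h1 := hlogL _ (hb q hq j)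
    rw [mem_Icc]
    constructor <;> omega
  have hBcard : B.card = (2 * L + 1) ^ (2 * n) := by
    rw [hB, Fintype.card_piFinset, prod_const, card_univ, hcard, Int.card_Icc]
    congr 1
    omega
  have hfib : ∀ φ ∈ B, (Q.filter fun q => b q = φ).card ≤ (C1 * (r ^ 2) ^ (2 * n)) ^ (2 * n) := by
    intro φ hφ
    rw [hB, Fintype.mem_piFinset] at hφ
    apply hcount (ℕ × ℕ) r 2 X M (2 * n * L) φ (Q.filter fun q => b q = φ) x κ hr2 le_rfl hX
    · rw [← pow_mul]; exact hXr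
    · have h1 : ∀ j ∈ (Finset.univ : Finset (Fin n ⊕ Fin n)), |φ j| ≤ (L : ℤ) := by
        intro j _
        have := hφ j
        rw [mem_Icc] at this
        exact abs_le.mpr this
      have h2 := Finset.sum_le_card_nsmul _ _ _ h1
      rw [card_univ, hcard] at h2
      refine h2.trans (le_of_eq ?_)
      simp
    · have h1 := hX0 X hXX0
      have h2 : (m0 * (2 * n * A) * (Nat.log 2 X + 1)) ^ w ≤ (r ^ 2) ^ w := by
        rw [← pow_mul]; exact h1.trans hXr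
      have h3 := (Nat.pow_le_pow_iff_left (by omega : w ≠ 0)).mp h2
      calc m0 * (2 * n * L) = m0 * (2 * n * A) * (Nat.log 2 X + 1) := by rw [hLd]; ring
        _ ≤ r ^ 2 := h3
    · exact hM
    · intro q hq j
      have hq' := (Finset.mem_filter.mp hq).1
      obtain ⟨⟨g1, g2, g3, g4⟩, ⟨g5, g6, g7, g8⟩, g9, g10⟩ := hQ q hq'
      refine ⟨(hx q hq' j).1, by exact_mod_cast (hx q hq' j).2, ?_⟩
      exact (hN q hq' r g3 g7).1 j
    · intro q hq
      obtain ⟨hq', hbq⟩ := Finset.mem_filter.mp hq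
      obtain ⟨⟨g1, g2, g3, g4⟩, ⟨g5, g6, g7, g8⟩, g9, g10⟩ := hQ q hq'
      have := (hN q hq' (r ^ M) (Nat.Coprime.pow_right _ g3) (Nat.Coprime.pow_right _ g7)).2
      rw [hbq] at this
      rw [this, g10]
    · intro q hq q' hq' heq
      obtain ⟨hq1, hbq⟩ := Finset.mem_filter.mp hq
      obtain ⟨hq1', hbq'⟩ := Finset.mem_filter.mp hq'
      obtain ⟨⟨g1, g2, g3, g4⟩, ⟨g5, g6, g7, g8⟩, g9, g10⟩ := hQ q hq1
      obtain ⟨⟨k1, k2, k3, k4⟩, ⟨k5, k6, k7, k8⟩, k9, k10⟩ := hQ q' hq1'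
      have e1 := hs q hq1
      have e2 := hs q' hq1'
      rw [hbq] at e1
      rw [hbq'] at e2
      rw [e1, e2] at heq
      have r1 : (0 : ℝ) < q.1 := by exact_mod_cast g1
      have r2 : (0 : ℝ) < q.2 := by exact_mod_cast g5
      have r3 : (0 : ℝ) < q'.1 := by exact_mod_cast k1
      have r4 : (0 : ℝ) < q'.2 := by exact_mod_cast k5
      have h1 : Real.log ((q.2 : ℝ) * q'.1) = Real.log ((q'.2 : ℝ) * q.1) := by
        rw [Real.log_mul r2.ne' r3.ne', Real.log_mul r4.ne' r1.ne']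
        linarith
      have h2 : (q.2 : ℝ) * q'.1 = (q'.2 : ℝ) * q.1 :=
        Real.log_injOn_pos (Set.mem_Ioi.mpr (by positivity)) (Set.mem_Ioi.mpr (by positivity)) h1
      have h3 : q.2 * q'.1 = q'.2 * q.1 := by exact_mod_cast h2
      have h4 : q.1 ∣ q'.1 := by
        apply g9.dvd_of_dvd_mul_left
        exact ⟨q'.2, by rw [h3]; ring⟩
      have h5 : q'.1 ∣ q.1 := by
        apply k9.dvd_of_dvd_mul_left
        exact ⟨q.2, by rw [← h3]; ring⟩
      have h6 : q.1 = q'.1 := Nat.dvd_antisymm h4 h5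
      have h7 : q.2 = q'.2 := by
        rw [h6] at h3
        exact Nat.eq_of_mul_eq_mul_right k1 h3
      exact Prod.ext h6 h7
  have hsum : Q.card = ∑ φ ∈ B, (Q.filter fun q => b q = φ).card :=
    card_eq_sum_card_fiberwise (fun q hq => hbB q hq)
  have htot : Q.card ≤ (2 * L + 1) ^ (2 * n) * (C1 * (r ^ 2) ^ (2 * n)) ^ (2 * n) := by
    rw [hsum, ← hBcard, ← smul_eq_mul]
    exact Finset.sum_le_card_nsmul _ _ _ hfib
  have hrR : (r : ℝ) ^ w ≤ X := by exact_mod_cast hrX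
  have hr1 : (1 : ℝ) ≤ r := by
    have : 1 ≤ r := by omega
    exact_mod_cast this
  have hpow : ((r : ℝ) ^ 2) ^ (2 * n * (2 * n)) ≤ (X : ℝ) ^ (ε / 2) := by
    have h1 : (r : ℝ) ≤ (X : ℝ) ^ ((1 : ℝ) / w) := by
      have hw0' : (w : ℝ) ≠ 0 := by
        have : w ≠ 0 := by omega
        exact_mod_cast this
      calc (r : ℝ) = ((r : ℝ) ^ w) ^ ((1 : ℝ) / w) := by
            rw [← Real.rpow_natCast, ← Real.rpow_mul (by positivity), mul_one_div_cancel hw0',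
              Real.rpow_one]
        _ ≤ (X : ℝ) ^ ((1 : ℝ) / w) :=
            Real.rpow_le_rpow (by positivity) hrR (by positivity)
    calc ((r : ℝ) ^ 2) ^ (2 * n * (2 * n)) = (r : ℝ) ^ (8 * n ^ 2) := by
          rw [← pow_mul]; congr 1; ring
      _ ≤ ((X : ℝ) ^ ((1 : ℝ) / w)) ^ (8 * n ^ 2) := pow_le_pow_left₀ (by positivity) h1 _
      _ = (X : ℝ) ^ ((8 * (n : ℝ) ^ 2) / w) := by
          rw [← Real.rpow_natCast, ← Real.rpow_mul hX0r.le]
          congr 1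
          push_cast
          ring
      _ ≤ (X : ℝ) ^ (ε / 2) := by
          apply Real.rpow_le_rpow_of_exponent_le hX1r
          have hwR : (0 : ℝ) < w := by exact_mod_cast hw1
          have hww : (w0 : ℝ) ≤ w := by
            have : w0 ≤ w := by omega
            exact_mod_cast this
          have h2 := hw0.trans hww
          rw [div_le_iff₀ hε] at h2
          rw [div_le_iff₀ hwR]
          linarith
  have hLL : ((2 * L + 1 : ℕ) : ℝ) ^ (2 * n) ≤ (2 * A + 1) ^ (2 * n) * (DL * (X : ℝ) ^ (ε / 2)) := by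
    have h1 : ((2 * L + 1 : ℕ) : ℝ) ≤ (2 * A + 1) * ((Nat.log 2 X + 1 : ℕ) : ℝ) := by
      rw [hLd]
      push_cast
      have : (0 : ℝ) ≤ (Nat.log 2 X : ℝ) := Nat.cast_nonneg _
      nlinarith
    calc ((2 * L + 1 : ℕ) : ℝ) ^ (2 * n) ≤ ((2 * A + 1) * ((Nat.log 2 X + 1 : ℕ) : ℝ)) ^ (2 * n) :=
          pow_le_pow_left₀ (Nat.cast_nonneg _) h1 _
      _ = (2 * A + 1) ^ (2 * n) * ((Nat.log 2 X + 1 : ℕ) : ℝ) ^ (2 * n) := mul_pow _ _ _
      _ ≤ _ := mul_le_mul_of_nonneg_left (hL X hX) (by positivity)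
  have hfin : (Q.card : ℝ) ≤ ((2 * A + 1) ^ (2 * n) * DL * (C1 : ℝ) ^ (2 * n)) * (X : ℝ) ^ ε := by
    calc (Q.card : ℝ) ≤ (((2 * L + 1) ^ (2 * n) * (C1 * (r ^ 2) ^ (2 * n)) ^ (2 * n) : ℕ) : ℝ) := by
          exact_mod_cast htot
      _ = ((2 * L + 1 : ℕ) : ℝ) ^ (2 * n) * ((C1 : ℝ) ^ (2 * n) *
            ((r : ℝ) ^ 2) ^ (2 * n * (2 * n))) := by
          push_cast
          rw [mul_pow (C1 : ℝ), ← pow_mul ((r : ℝ) ^ 2)]
      _ ≤ ((2 * A + 1) ^ (2 * n) * (DL * (X : ℝ) ^ (ε / 2))) * ((C1 : ℝ) ^ (2 * n) *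
            (X : ℝ) ^ (ε / 2)) := by
          apply mul_le_mul hLL _ (by positivity) (by positivity)
          exact mul_le_mul_of_nonneg_left hpow (by positivity)
      _ = ((2 * A + 1) ^ (2 * n) * DL * (C1 : ℝ) ^ (2 * n)) *
            ((X : ℝ) ^ (ε / 2) * (X : ℝ) ^ (ε / 2)) := by ring
      _ = _ := by rw [← Real.rpow_add hX0r, add_halves]
  have h5 := le_max_right ((X1 : ℝ) ^ (2 * A)) ((2 * A + 1) ^ (2 * n) * DL * (C1 : ℝ) ^ (2 * n))
  refine hfin.trans ?_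
  apply mul_le_mul_of_nonneg_right _ (by positivity)
  linarith

end Pool.Agent.T2H20.ABC
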