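import Pool.Agent.Y913.Zm.Fn
import Pool.Agent.T2H20.ABC.D
import Pool.Agent.T2H20.ABC.P

/-!
Triples with small radicals and a large height: the square root bound.
-/

set_option autoImplicit false

namespace Pool.Agent.T2H20.ABC

open Finset Pool.Agent.H785R2.ABC Pool.Agent.H785R2.ABC.EC Pool.Agent.Y913 Pool.Agent.Y913.Nb

/-- the triple of a pair -/
def tri (q : ℕ × ℕ) : ℕ × ℕ × ℕ := (q.1, q.2, q.1 + q.2)

lemma tri_abc {q : ℕ × ℕ} (h1 : 0 < q.1) (h2 : 0 < q.2) (h3 : Nat.Coprime q.1 q.2) :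
    IsABCTriple (tri q).1 (tri q).2.1 (tri q).2.2 := by
  refine ⟨h1, h2, ?_, rfl, h3, ?_, ?_⟩
  · show 0 < q.1 + q.2
    omega
  · show Nat.Coprime q.1 (q.1 + q.2)
    simpa using h3
  · show Nat.Coprime q.2 (q.1 + q.2)
    simpa using h3.symm

lemma tri_inj {q q' : ℕ × ℕ} (h : tri q = tri q') : q = q' := by
  unfold tri at h
  simp only [Prod.mk.injEq] at h
  exact Prod.ext h.1 h.2.1

/-- the sign as a unit -/
def sgu (f : ℕ) (r : Fin 3) : (ZMod f)ˣ := if r = 2 then -1 else 1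

lemma sgu_coe (f : ℕ) (r : Fin 3) : ((sgu f r : (ZMod f)ˣ) : ZMod f) = ((sg r : ℤ) : ZMod f) := by
  unfold sgu sg
  split_ifs <;> simp

lemma cong {t : ℕ × ℕ × ℕ} (h : IsABCTriple t.1 t.2.1 t.2.2) {p q r : Fin 3}
    (hpq : p ≠ q) (hqr : q ≠ r) (hpr : p ≠ r) {f : ℕ} (hf : f ∣ num t r) :
    (num t q : ZMod f) = (sgu f r : ZMod f) * (num t p : ZMod f) := by
  have h1 := num_dvd h hpq hqr hpr hf
  have h2 := (ZMod.intCast_eq_intCast_iff' _ _ f).2 h1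
  rw [sgu_coe]
  push_cast at h2
  exact h2.symm

/-- the integers `r` with `r ^ w ≤ X` -/
def Rs (w X : ℕ) : Finset ℕ := (Icc 1 X).filter fun r => r ^ w ≤ X

lemma card_Rs {w X : ℕ} {e : ℝ} (hw : 1 ≤ e * w) (hX : 1 ≤ X) : ((Rs w X).card : ℝ) ≤ (X : ℝ) ^ e := by
  have hX0 : (0 : ℝ) < X := by exact_mod_cast hX
  have hX1 : (1 : ℝ) ≤ X := by exact_mod_cast hX
  have hw0 : (0 : ℝ) < w := by
    rcases Nat.eq_zero_or_pos w with h | h
    · rw [h] at hw; norm_num at hw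
    · exact_mod_cast h
  have he0 : 0 < e := by
    by_contra h
    push Not at h
    nlinarith
  have h1 : Rs w X ⊆ Icc 1 ⌊(X : ℝ) ^ e⌋₊ := by
    intro r hr
    unfold Rs at hr
    rw [mem_filter, mem_Icc] at hr
    obtain ⟨⟨h1, h2⟩, h3⟩ := hr
    rw [mem_Icc]
    refine ⟨h1, Nat.le_floor ?_⟩
    have h4 : (r : ℝ) ^ w ≤ X := by exact_mod_cast h3
    calc (r : ℝ) = ((r : ℝ) ^ w) ^ ((1 : ℝ) / w) := by
          rw [← Real.rpow_natCast, ← Real.rpow_mul (by positivity), mul_one_div_cancel hw0.ne',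
            Real.rpow_one]
      _ ≤ (X : ℝ) ^ ((1 : ℝ) / w) := Real.rpow_le_rpow (by positivity) h4 (by positivity)
      _ ≤ (X : ℝ) ^ e := by
          apply Real.rpow_le_rpow_of_exponent_le hX1
          rw [div_le_iff₀ hw0]
          exact hw
  have h2 := card_le_card h1
  rw [Nat.card_Icc, Nat.add_sub_cancel] at h2
  calc ((Rs w X).card : ℝ) ≤ (⌊(X : ℝ) ^ e⌋₊ : ℝ) := by exact_mod_cast h2
    _ ≤ (X : ℝ) ^ e := Nat.floor_le (by positivity)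

lemma Dp_mem {w M X t : ℕ} (hw : 1 ≤ w) (hX : 1 ≤ X) (h : Dp w M X t) :
    ∃ r ∈ Rs w X, X ≤ r ^ (2 * w) ∧ r ^ M ∣ t := by
  obtain ⟨r, h1, h2, h3⟩ := h
  refine ⟨r, ?_, h1, h3⟩
  unfold Rs
  rw [mem_filter, mem_Icc]
  refine ⟨⟨?_, ?_⟩, h2⟩
  · rcases Nat.eq_zero_or_pos r with h | h
    · rw [h, zero_pow (by omega)] at h1
      omega
    · exact h
  · exact (Nat.le_self_pow (by omega) r).trans h2

/-- a union bound -/
lemma card_le_of_cover {α β : Type} [DecidableEq α] (Q : Finset α) (S : Finset β)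
    (P : β → α → Prop) [∀ b, DecidablePred (P b)] (B : ℝ) (h : ∀ q ∈ Q, ∃ s ∈ S, P s q)
    (hB : ∀ s ∈ S, ((Q.filter fun q => P s q).card : ℝ) ≤ B) : (Q.card : ℝ) ≤ S.card * B := by
  have h1 : Q ⊆ S.biUnion fun s => Q.filter fun q => P s q := by
    intro q hq
    obtain ⟨s, hs, hsq⟩ := h q hq
    rw [mem_biUnion]
    exact ⟨s, hs, mem_filter.mpr ⟨hq, hsq⟩⟩
  calc (Q.card : ℝ) ≤ ((S.biUnion fun s => Q.filter fun q => P s q).card : ℝ) := by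
        exact_mod_cast card_le_card h1
    _ ≤ ∑ s ∈ S, ((Q.filter fun q => P s q).card : ℝ) := by exact_mod_cast card_biUnion_le
    _ ≤ ∑ _s ∈ S, B := sum_le_sum hB
    _ = S.card * B := by rw [sum_const, nsmul_eq_mul]

/-- the conditions on a pair -/
structure Cond (X A R₁ R₂ : ℕ) (i j k : Fin 3) (q : ℕ × ℕ) : Prop where
  p1 : 0 < q.1
  p2 : 0 < q.2
  cop : Nat.Coprime q.1 q.2
  le : q.1 + q.2 ≤ X ^ A
  r1 : rad (num (tri q) i) ≤ R₁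
  r2 : rad (num (tri q) j) ≤ R₂
  r3 : rad (num (tri q) k) ≤ X

lemma Cond.abc {X A R₁ R₂ : ℕ} {i j k : Fin 3} {q : ℕ × ℕ} (h : Cond X A R₁ R₂ i j k q) :
    IsABCTriple (tri q).1 (tri q).2.1 (tri q).2.2 := tri_abc h.p1 h.p2 h.cop

lemma Cond.num_le {X A R₁ R₂ : ℕ} {i j k : Fin 3} {q : ℕ × ℕ} (h : Cond X A R₁ R₂ i j k q)
    (l : Fin 3) : num (tri q) l ≤ X ^ A := (EC.num_le h.abc l).trans h.le

/-- the largest member is divisible by a large power -/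
theorem case1 (w : ℕ) (hw : 1 ≤ w) (e : ℝ) (he : 0 < e) (hwe : 1 ≤ e * w) (A : ℕ) :
    ∃ C : ℝ, 0 < C ∧ ∀ X R₁ R₂ : ℕ, 1 ≤ X → R₁ ≤ X → R₂ ≤ X → ∀ i j k : Fin 3,
    i ≠ j → j ≠ k → i ≠ k → ∀ Q : Finset (ℕ × ℕ),
    (∀ q ∈ Q, Cond X A R₁ R₂ i j k q ∧ Dp w (3 * w) X (num (tri q) k)) →
    (Q.card : ℝ) ≤ C * (X : ℝ) ^ (2 * e) * Real.sqrt ((R₁ : ℝ) * R₂) := by
  classical
  obtain ⟨D, hD, hpair⟩ := pair_bound (max A 3) (by omega) e he
  refine ⟨D, hD, ?_⟩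
  intro X R₁ R₂ hX hR₁ hR₂ i j k hij hjk hik Q hQ
  have hX0 : (0 : ℝ) < X := by exact_mod_cast hX
  have h1 := card_le_of_cover Q (Rs w X)
    (fun r q => X ≤ r ^ (2 * w) ∧ r ^ (3 * w) ∣ num (tri q) k)
    (D * (X : ℝ) ^ e * Real.sqrt ((R₁ : ℝ) * R₂))
    (fun q hq => Dp_mem hw hX (hQ q hq).2) (by
      intro r hr
      unfold Rs at hr
      rw [mem_filter, mem_Icc] at hr
      obtain ⟨⟨hr1, hr2⟩, hr3⟩ := hr
      set Q' := Q.filter fun q => X ≤ r ^ (2 * w) ∧ r ^ (3 * w) ∣ num (tri q) k with hQ'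
      rcases Q'.eq_empty_or_nonempty with h0 | ⟨q0, hq0⟩
      · rw [h0, card_empty, Nat.cast_zero]
        positivity
      have hmem : ∀ q ∈ Q', Cond X A R₁ R₂ i j k q ∧ X ≤ r ^ (2 * w) ∧
          r ^ (3 * w) ∣ num (tri q) k := by
        intro q hq
        rw [hQ', mem_filter] at hq
        exact ⟨(hQ q hq.1).1, hq.2⟩
      have hinj : Set.InjOn (fun q => (num (tri q) i, num (tri q) j)) Q' := by
        intro q hq q' hq' h
        simp only [Prod.mk.injEq] at h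
        exact tri_inj (num_inj (hmem q hq).1.abc (hmem q' hq').1.abc hij h.1 h.2)
      rw [← card_image_of_injOn hinj]
      have hXA : X ^ A ≤ X ^ (max A 3) := Nat.pow_le_pow_right hX (le_max_left _ _)
      apply hpair X (r ^ (3 * w)) R₁ R₂ hX (Nat.one_le_pow _ _ hr1) _ _ hR₁ hR₂
        ((sgu (r ^ (3 * w)) k : (ZMod (r ^ (3 * w)))ˣ) : ZMod (r ^ (3 * w))) (Units.isUnit _)
      · intro t ht
        obtain ⟨q, hq, rfl⟩ := mem_image.1 ht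
        obtain ⟨hc, -, hdv⟩ := hmem q hq
        have cop : ∀ l : Fin 3, l ≠ k → Nat.Coprime (num (tri q) l) (r ^ (3 * w)) := fun l hl =>
          Nat.Coprime.coprime_dvd_right hdv (num_coprime hc.abc hl)
        refine ⟨⟨num_pos hc.abc i, (hc.num_le i).trans hXA, hc.r1, cop i hik⟩,
          ⟨num_pos hc.abc j, (hc.num_le j).trans hXA, hc.r2, cop j hjk⟩, ?_⟩
        exact cong hc.abc hij.symm hik hjk hdv
      · calc r ^ (3 * w) = (r ^ w) ^ 3 := by rw [← pow_mul]; congr 1; ring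
          _ ≤ X ^ 3 := Nat.pow_le_pow_left hr3 3
          _ ≤ X ^ (max A 3) := Nat.pow_le_pow_right hX (le_max_right _ _)
      · calc X ^ 3 ≤ (r ^ (2 * w)) ^ 3 := Nat.pow_le_pow_left (hmem q0 hq0).2.1 3
          _ = (r ^ (3 * w)) ^ 2 := by rw [← pow_mul, ← pow_mul]; congr 1; ring)
  refine h1.trans ?_
  calc ((Rs w X).card : ℝ) * (D * (X : ℝ) ^ e * Real.sqrt ((R₁ : ℝ) * R₂))
      ≤ (X : ℝ) ^ e * (D * (X : ℝ) ^ e * Real.sqrt ((R₁ : ℝ) * R₂)) :=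
        mul_le_mul_of_nonneg_right (card_Rs hwe hX) (by positivity)
    _ = D * ((X : ℝ) ^ e * (X : ℝ) ^ e) * Real.sqrt ((R₁ : ℝ) * R₂) := by ring
    _ = _ := by rw [← Real.rpow_add hX0, ← two_mul]

lemma NB_one {n : ℕ} {Y : ℝ} (hY : 1 ≤ Y) : NB n Y 1 :=
  ⟨fun _ => 1, fun _ => 0, fun _ => ⟨Nat.one_pos, by push_cast; exact hY⟩, by simp⟩

lemma dvd_class {N a b c d : ℕ} (u : (ZMod N)ˣ) (ha : a.Coprime N) (hb : b.Coprime N)
    (hc : c.Coprime N) (hd : d.Coprime N)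
    (h1 : (a : ZMod N) = (u : ZMod N) * (b : ZMod N))
    (h2 : (c : ZMod N) = (u : ZMod N) * (d : ZMod N)) :
    ud N a * (ud N b)⁻¹ = ud N c * (ud N d)⁻¹ := by
  have e1 : ud N a = u * ud N b := by
    rw [← Units.val_inj, Units.val_mul, ud_coe ha, ud_coe hb, h1]
  have e2 : ud N c = u * ud N d := by
    rw [← Units.val_inj, Units.val_mul, ud_coe hc, ud_coe hd, h2]
  rw [e1, e2, mul_assoc, mul_inv_cancel, mul_assoc, mul_inv_cancel]

/-- the second member is divisible by a large power and the largest one is a product of few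
powers -/
theorem case2 (n : ℕ) (e : ℝ) (he : 0 < e) : ∃ w0 : ℕ, ∀ w, w0 ≤ w → ∃ M0 : ℕ, ∀ M, M0 ≤ M →
    ∀ A : ℕ, ∃ C : ℝ, 0 < C ∧ ∀ X R₁ R₂ : ℕ, 1 ≤ X → ∀ i j k : Fin 3,
    i ≠ j → j ≠ k → i ≠ k → ∀ Q : Finset (ℕ × ℕ),
    (∀ q ∈ Q, Cond X A R₁ R₂ i j k q ∧ NB n (X : ℝ) (num (tri q) k) ∧
      Dp w M X (num (tri q) j)) →
    (Q.card : ℝ) ≤ C * (X : ℝ) ^ (3 * e) * R₁ := by
  classical
  obtain ⟨w1, hw1⟩ := exists_nat_ge (1 / e)
  obtain ⟨w0, hw0⟩ := fp_count n e he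
  refine ⟨w0 + w1 + 1, fun w hw => ?_⟩
  obtain ⟨M0, hM0⟩ := hw0 w (by omega)
  refine ⟨M0 + 1, fun M hM A => ?_⟩
  obtain ⟨C, hC, hfp⟩ := hM0 M (by omega) A
  obtain ⟨D4, hD4, h4⟩ := Pool.Agent.H705R2.ABC.stmtA4' (e / (A + 1)) (by positivity)
  refine ⟨C * D4, by positivity, ?_⟩
  intro X R₁ R₂ hX i j k hij hjk hik Q hQ
  have hwe : 1 ≤ e * w := by
    have h1 : (w1 : ℝ) ≤ w := by
      have : w1 ≤ w := by omega
      exact_mod_cast this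
    have h2 := hw1.trans h1
    rw [div_le_iff₀ he] at h2
    linarith
  have hw1' : 1 ≤ w := by omega
  have hMne : M ≠ 0 := by omega
  have hX0 : (0 : ℝ) < X := by exact_mod_cast hX
  have hX1 : (1 : ℝ) ≤ X := by exact_mod_cast hX
  -- the possible first members
  set S := (Icc 1 (X ^ A)).filter fun d => (rad d : ℝ) ≤ R₁ with hS
  have hScard : (S.card : ℝ) ≤ D4 * (X : ℝ) ^ e * R₁ := by
    have h5 := h4 (X ^ A) (Nat.pow_pos hX) R₁ (Nat.cast_nonneg _)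
    refine h5.trans ?_
    apply mul_le_mul_of_nonneg_right _ (Nat.cast_nonneg _)
    apply mul_le_mul_of_nonneg_left _ hD4.le
    push_cast
    rw [← Real.rpow_natCast, ← Real.rpow_mul hX0.le]
    apply Real.rpow_le_rpow_of_exponent_le hX1
    rw [← mul_div_assoc, div_le_iff₀ (by positivity)]
    nlinarith
  have h1 := card_le_of_cover Q (Rs w X ×ˢ S)
    (fun z q => (X ≤ z.1 ^ (2 * w) ∧ z.1 ^ M ∣ num (tri q) j) ∧ num (tri q) i = z.2)
    (C * (X : ℝ) ^ e) (by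
      intro q hq
      obtain ⟨hc, hn, hd⟩ := hQ q hq
      obtain ⟨r, hr1, hr2⟩ := Dp_mem hw1' hX hd
      refine ⟨(r, num (tri q) i), ?_, hr2, rfl⟩
      rw [mem_product]
      refine ⟨hr1, ?_⟩
      rw [hS, mem_filter, mem_Icc]
      exact ⟨⟨num_pos hc.abc i, hc.num_le i⟩, by exact_mod_cast hc.r1⟩) (by
      rintro ⟨r, t⟩ hz
      rw [mem_product] at hz
      have hr := hz.1
      unfold Rs at hr
      rw [mem_filter, mem_Icc] at hr
      obtain ⟨⟨hr1, hr2⟩, hr3⟩ := hr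
      simp only
      set Q' := Q.filter fun q => (X ≤ r ^ (2 * w) ∧ r ^ M ∣ num (tri q) j) ∧
        num (tri q) i = t with hQ'
      rcases Q'.eq_empty_or_nonempty with h0 | ⟨q0, hq0⟩
      · rw [h0, card_empty, Nat.cast_zero]
        positivity
      have hmem : ∀ q ∈ Q', (Cond X A R₁ R₂ i j k q ∧ NB n (X : ℝ) (num (tri q) k)) ∧
          (X ≤ r ^ (2 * w) ∧ r ^ M ∣ num (tri q) j) ∧ num (tri q) i = t := by
        intro q hq
        rw [hQ', mem_filter] at hq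
        exact ⟨⟨(hQ q hq.1).1, (hQ q hq.1).2.1⟩, hq.2⟩
      have hinj : Set.InjOn (fun q => ((1 : ℕ), num (tri q) k)) Q' := by
        intro q hq q' hq' h
        simp only [Prod.mk.injEq, true_and] at h
        exact tri_inj (num_inj (hmem q hq).1.1.abc (hmem q' hq').1.1.abc hik
          ((hmem q hq).2.2.trans (hmem q' hq').2.2.symm) h)
      rw [← card_image_of_injOn hinj]
      have hcopM : ∀ q ∈ Q', ∀ l : Fin 3, l ≠ j → Nat.Coprime (num (tri q) l) (r ^ M) := by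
        intro q hq l hl
        exact Nat.Coprime.coprime_dvd_right (hmem q hq).2.1.2 (num_coprime (hmem q hq).1.1.abc hl)
      have hcopr : ∀ q ∈ Q', ∀ l : Fin 3, l ≠ j → Nat.Coprime (num (tri q) l) r := by
        intro q hq l hl
        exact Nat.Coprime.coprime_dvd_right (dvd_pow_self r hMne) (hcopM q hq l hl)
      apply hfp X r hX (hmem q0 hq0).2.1.1 hr3
        (ud (r ^ M) (num (tri q0) k) * (ud (r ^ M) 1)⁻¹)
      intro x hx
      obtain ⟨q, hq, rfl⟩ := mem_image.1 hx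
      obtain ⟨⟨hc, hn⟩, ⟨hd1, hd2⟩, ht⟩ := hmem q hq
      obtain ⟨⟨hc0, -⟩, ⟨-, hd20⟩, ht0⟩ := hmem q0 hq0
      refine ⟨⟨one_pos, Nat.one_le_pow _ _ hX, Nat.coprime_one_left _, NB_one hX1⟩,
        ⟨num_pos hc.abc k, hc.num_le k, hcopr q hq k hjk.symm, hn⟩, Nat.coprime_one_left _, ?_⟩
      congr 1
      rw [← Units.val_inj, ud_coe (hcopM q hq k hjk.symm), ud_coe (hcopM q0 hq0 k hjk.symm),
        cong hc.abc hik hjk.symm hij hd2, cong hc0.abc hik hjk.symm hij hd20, ht, ht0])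
  refine h1.trans ?_
  rw [card_product]
  push_cast
  calc ((Rs w X).card : ℝ) * S.card * (C * (X : ℝ) ^ e)
      ≤ (X : ℝ) ^ e * (D4 * (X : ℝ) ^ e * R₁) * (C * (X : ℝ) ^ e) := by
        apply mul_le_mul_of_nonneg_right _ (by positivity)
        exact mul_le_mul (card_Rs hwe hX) hScard (Nat.cast_nonneg _) (by positivity)
    _ = C * D4 * ((X : ℝ) ^ e * (X : ℝ) ^ e * (X : ℝ) ^ e) * R₁ := by ring
    _ = _ := by
        rw [← Real.rpow_add hX0, ← Real.rpow_add hX0]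
        congr 3
        ring

/-- the smallest member is divisible by a large power and the others are products of few powers -/
theorem case3 (n : ℕ) (e : ℝ) (he : 0 < e) : ∃ w0 : ℕ, ∀ w, w0 ≤ w → ∃ M0 : ℕ, ∀ M, M0 ≤ M →
    ∀ A : ℕ, ∃ C : ℝ, 0 < C ∧ ∀ X R₁ R₂ : ℕ, 1 ≤ X → ∀ i j k : Fin 3,
    i ≠ j → j ≠ k → i ≠ k → ∀ Q : Finset (ℕ × ℕ),
    (∀ q ∈ Q, Cond X A R₁ R₂ i j k q ∧ NB n (X : ℝ) (num (tri q) k) ∧
      NB n (X : ℝ) (num (tri q) j) ∧ Dp w M X (num (tri q) i)) →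
    (Q.card : ℝ) ≤ C * (X : ℝ) ^ (2 * e) := by
  classical
  obtain ⟨w1, hw1⟩ := exists_nat_ge (1 / e)
  obtain ⟨w0, hw0⟩ := fp_count n e he
  refine ⟨w0 + w1 + 1, fun w hw => ?_⟩
  obtain ⟨M0, hM0⟩ := hw0 w (by omega)
  refine ⟨M0 + 1, fun M hM A => ?_⟩
  obtain ⟨C, hC, hfp⟩ := hM0 M (by omega) A
  refine ⟨C, hC, ?_⟩
  intro X R₁ R₂ hX i j k hij hjk hik Q hQ
  have hwe : 1 ≤ e * w := by
    have h1 : (w1 : ℝ) ≤ w := by
      have : w1 ≤ w := by omega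
      exact_mod_cast this
    have h2 := hw1.trans h1
    rw [div_le_iff₀ he] at h2
    linarith
  have hw1' : 1 ≤ w := by omega
  have hMne : M ≠ 0 := by omega
  have hX0 : (0 : ℝ) < X := by exact_mod_cast hX
  have hX1 : (1 : ℝ) ≤ X := by exact_mod_cast hX
  have h1 := card_le_of_cover Q (Rs w X)
    (fun r q => X ≤ r ^ (2 * w) ∧ r ^ M ∣ num (tri q) i)
    (C * (X : ℝ) ^ e) (fun q hq => Dp_mem hw1' hX (hQ q hq).2.2.2) (by
      intro r hr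
      unfold Rs at hr
      rw [mem_filter, mem_Icc] at hr
      obtain ⟨⟨hr1, hr2⟩, hr3⟩ := hr
      set Q' := Q.filter fun q => X ≤ r ^ (2 * w) ∧ r ^ M ∣ num (tri q) i with hQ'
      rcases Q'.eq_empty_or_nonempty with h0 | ⟨q0, hq0⟩
      · rw [h0, card_empty, Nat.cast_zero]
        positivity
      have hmem : ∀ q ∈ Q', (Cond X A R₁ R₂ i j k q ∧ NB n (X : ℝ) (num (tri q) k) ∧
          NB n (X : ℝ) (num (tri q) j)) ∧ (X ≤ r ^ (2 * w) ∧ r ^ M ∣ num (tri q) i) := by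
        intro q hq
        rw [hQ', mem_filter] at hq
        exact ⟨⟨(hQ q hq.1).1, (hQ q hq.1).2.1, (hQ q hq.1).2.2.1⟩, hq.2⟩
      have hinj : Set.InjOn (fun q => (num (tri q) j, num (tri q) k)) Q' := by
        intro q hq q' hq' h
        simp only [Prod.mk.injEq] at h
        exact tri_inj (num_inj (hmem q hq).1.1.abc (hmem q' hq').1.1.abc hjk h.1 h.2)
      rw [← card_image_of_injOn hinj]
      have hcopM : ∀ q ∈ Q', ∀ l : Fin 3, l ≠ i → Nat.Coprime (num (tri q) l) (r ^ M) := by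
        intro q hq l hl
        exact Nat.Coprime.coprime_dvd_right (hmem q hq).2.2 (num_coprime (hmem q hq).1.1.abc hl)
      have hcopr : ∀ q ∈ Q', ∀ l : Fin 3, l ≠ i → Nat.Coprime (num (tri q) l) r := by
        intro q hq l hl
        exact Nat.Coprime.coprime_dvd_right (dvd_pow_self r hMne) (hcopM q hq l hl)
      apply hfp X r hX (hmem q0 hq0).2.1 hr3
        (ud (r ^ M) (num (tri q0) k) * (ud (r ^ M) (num (tri q0) j))⁻¹)
      intro x hx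
      obtain ⟨q, hq, rfl⟩ := mem_image.1 hx
      obtain ⟨⟨hc, hn, hn'⟩, hd1, hd2⟩ := hmem q hq
      obtain ⟨⟨hc0, -, -⟩, -, hd20⟩ := hmem q0 hq0
      refine ⟨⟨num_pos hc.abc j, hc.num_le j, hcopr q hq j hij.symm, hn'⟩,
        ⟨num_pos hc.abc k, hc.num_le k, hcopr q hq k hik.symm, hn⟩, num_coprime hc.abc hjk, ?_⟩
      exact dvd_class (sgu (r ^ M) i) (hcopM q hq k hik.symm) (hcopM q hq j hij.symm)
        (hcopM q0 hq0 k hik.symm) (hcopM q0 hq0 j hij.symm)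
        (cong hc.abc hjk hik.symm hij.symm hd2) (cong hc0.abc hjk hik.symm hij.symm hd20))
  refine h1.trans ?_
  calc ((Rs w X).card : ℝ) * (C * (X : ℝ) ^ e) ≤ (X : ℝ) ^ e * (C * (X : ℝ) ^ e) :=
        mul_le_mul_of_nonneg_right (card_Rs hwe hX) (by positivity)
    _ = C * ((X : ℝ) ^ e * (X : ℝ) ^ e) := by ring
    _ = _ := by rw [← Real.rpow_add hX0, ← two_mul]

lemma three : ∀ i j k l : Fin 3, i ≠ j → j ≠ k → i ≠ k → l = i ∨ l = j ∨ l = k := by decide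

/-- **The square root bound.** -/
theorem box (ε : ℝ) (hε : 0 < ε) : ∃ K : ℕ, ∀ A : ℕ, ∃ C : ℝ, 0 < C ∧
    ∀ X R₁ R₂ : ℕ, 1 ≤ X → 1 ≤ R₁ → R₁ ≤ R₂ → R₂ ≤ X → ∀ i j k : Fin 3,
    i ≠ j → j ≠ k → i ≠ k → ∀ Q : Finset (ℕ × ℕ),
    (∀ q ∈ Q, Cond X A R₁ R₂ i j k q ∧ X ^ K ≤ q.1 + q.2) →
    (Q.card : ℝ) ≤ C * (X : ℝ) ^ ε * Real.sqrt ((R₁ : ℝ) * R₂) := by
  classical
  obtain ⟨e, he⟩ : ∃ e : ℝ, e = ε / 3 := ⟨_, rfl⟩
  have he0 : 0 < e := by rw [he]; positivity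
  obtain ⟨w1', hw1'⟩ := exists_nat_ge (1 / e)
  obtain ⟨w1, hw1d⟩ : ∃ w1, w1 = w1' + 1 := ⟨_, rfl⟩
  have hw1 : 1 ≤ w1 := by omega
  have hw1e : 1 ≤ e * w1 := by
    have h1 : (w1' : ℝ) ≤ w1 := by
      have : w1' ≤ w1 := by omega
      exact_mod_cast this
    have h2 := hw1'.trans h1
    rw [div_le_iff₀ he0] at h2
    linarith
  obtain ⟨n1, hn1⟩ : ∃ n1, n1 = 2 * w1 + (1 + 3 * w1) := ⟨_, rfl⟩
  obtain ⟨w2', hw2'⟩ := case2 n1 e he0
  obtain ⟨w2, hw2d⟩ : ∃ w2, w2 = w2' + 1 := ⟨_, rfl⟩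
  obtain ⟨M2', hM2'⟩ := hw2' w2 (by omega)
  obtain ⟨M2, hM2d⟩ : ∃ M2, M2 = M2' + 1 := ⟨_, rfl⟩
  have hcase2 := hM2' M2 (by omega)
  obtain ⟨n2, hn2⟩ : ∃ n2, n2 = max n1 (2 * w2 + (1 + M2)) := ⟨_, rfl⟩
  obtain ⟨w3', hw3'⟩ := case3 n2 e he0
  obtain ⟨w3, hw3d⟩ : ∃ w3, w3 = w3' + 1 := ⟨_, rfl⟩
  obtain ⟨M3', hM3'⟩ := hw3' w3 (by omega)
  obtain ⟨M3, hM3d⟩ : ∃ M3, M3 = M3' + 1 := ⟨_, rfl⟩
  have hcase3 := hM3' M3 (by omega)
  obtain ⟨n3, hn3⟩ : ∃ n3, n3 = max n2 (2 * w3 + (1 + M3)) := ⟨_, rfl⟩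
  obtain ⟨K0, C4, hK0, hC4, hnt⟩ := Pool.Agent.Y913.Zm.nt_count n3 ε hε
  obtain ⟨K, hK⟩ := exists_nat_ge K0
  refine ⟨K, fun A => ?_⟩
  obtain ⟨C1, hC1, hc1⟩ := case1 w1 hw1 e he0 hw1e A
  obtain ⟨C2, hC2, hc2⟩ := hcase2 A
  obtain ⟨C3, hC3, hc3⟩ := hcase3 A
  refine ⟨C1 + C2 + C3 + C4, by positivity, ?_⟩
  intro X R₁ R₂ hX hR₁ hR₁₂ hR₂ i j k hij hjk hik Q hQ
  have hX0 : (0 : ℝ) < X := by exact_mod_cast hX
  have hX1 : (1 : ℝ) ≤ X := by exact_mod_cast hX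
  have hR₁X : R₁ ≤ X := hR₁₂.trans hR₂
  have hXe : ∀ t : ℝ, t ≤ 3 → (X : ℝ) ^ (t * e) ≤ (X : ℝ) ^ ε := by
    intro t ht
    apply Real.rpow_le_rpow_of_exponent_le hX1
    rw [he]
    nlinarith
  have hR₁r : (1 : ℝ) ≤ R₁ := by exact_mod_cast hR₁
  have hR₁₂r : (R₁ : ℝ) ≤ R₂ := by exact_mod_cast hR₁₂
  have hsq1 : (R₁ : ℝ) ≤ Real.sqrt ((R₁ : ℝ) * R₂) := by
    apply Real.le_sqrt_of_sq_le
    rw [sq]
    exact mul_le_mul_of_nonneg_left hR₁₂r (by linarith)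
  have hsq2 : (1 : ℝ) ≤ Real.sqrt ((R₁ : ℝ) * R₂) := hR₁r.trans hsq1
  -- the four parts
  set P1 : ℕ × ℕ → Prop := fun q => Dp w1 (3 * w1) X (num (tri q) k) with hP1
  set P2 : ℕ × ℕ → Prop := fun q => Dp w2 M2 X (num (tri q) j) with hP2
  set P3 : ℕ × ℕ → Prop := fun q => Dp w3 M3 X (num (tri q) i) with hP3
  have hnb1 : ∀ q ∈ Q, ¬ P1 q → NB n1 (X : ℝ) (num (tri q) k) := by
    intro q hq hn
    rw [hn1]
    exact nb_of_not_Dp hw1 (by omega) hX (num_pos (hQ q hq).1.abc k) (hQ q hq).1.r3 hn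
  have hnb2 : ∀ q ∈ Q, ¬ P2 q → NB n2 (X : ℝ) (num (tri q) j) := by
    intro q hq hn
    apply NB.mono_n (nb_of_not_Dp (by omega) (by omega) hX (num_pos (hQ q hq).1.abc j)
      ((hQ q hq).1.r2.trans hR₂) hn) hX1
    rw [hn2]
    exact le_max_right _ _
  have hnb3 : ∀ q ∈ Q, ¬ P3 q → NB n3 (X : ℝ) (num (tri q) i) := by
    intro q hq hn
    apply NB.mono_n (nb_of_not_Dp (by omega) (by omega) hX (num_pos (hQ q hq).1.abc i)
      ((hQ q hq).1.r1.trans hR₁X) hn) hX1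
    rw [hn3]
    exact le_max_right _ _
  have hn12 : n1 ≤ n2 := by rw [hn2]; exact le_max_left _ _
  have hn23 : n2 ≤ n3 := by rw [hn3]; exact le_max_left _ _
  have hsplit : Q.card = (Q.filter fun q => P1 q).card +
      ((Q.filter fun q => ¬ P1 q).filter fun q => P2 q).card +
      (((Q.filter fun q => ¬ P1 q).filter fun q => ¬ P2 q).filter fun q => P3 q).card +
      (((Q.filter fun q => ¬ P1 q).filter fun q => ¬ P2 q).filter fun q => ¬ P3 q).card := by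
    have e1 : (Q.filter fun q => P1 q).card + (Q.filter fun q => ¬ P1 q).card = Q.card :=
      Finset.card_filter_add_card_filter_not (s := Q) P1
    have e2 : ((Q.filter fun q => ¬ P1 q).filter fun q => P2 q).card +
        ((Q.filter fun q => ¬ P1 q).filter fun q => ¬ P2 q).card =
        (Q.filter fun q => ¬ P1 q).card :=
      Finset.card_filter_add_card_filter_not (s := Q.filter fun q => ¬ P1 q) P2
    have e3 : (((Q.filter fun q => ¬ P1 q).filter fun q => ¬ P2 q).filter fun q => P3 q).card +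
        (((Q.filter fun q => ¬ P1 q).filter fun q => ¬ P2 q).filter fun q => ¬ P3 q).card =
        ((Q.filter fun q => ¬ P1 q).filter fun q => ¬ P2 q).card :=
      Finset.card_filter_add_card_filter_not
        (s := (Q.filter fun q => ¬ P1 q).filter fun q => ¬ P2 q) P3
    omega
  have b1 := hc1 X R₁ R₂ hX hR₁X hR₂ i j k hij hjk hik (Q.filter fun q => P1 q) (by
    intro q hq
    rw [mem_filter] at hq
    exact ⟨(hQ q hq.1).1, hq.2⟩)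
  have b2 := hc2 X R₁ R₂ hX i j k hij hjk hik ((Q.filter fun q => ¬ P1 q).filter fun q => P2 q) (by
    intro q hq
    rw [mem_filter, mem_filter] at hq
    exact ⟨(hQ q hq.1.1).1, hnb1 q hq.1.1 hq.1.2, hq.2⟩)
  have b3 := hc3 X R₁ R₂ hX i j k hij hjk hik
    (((Q.filter fun q => ¬ P1 q).filter fun q => ¬ P2 q).filter fun q => P3 q) (by
    intro q hq
    rw [mem_filter, mem_filter, mem_filter] at hq
    exact ⟨(hQ q hq.1.1.1).1, (hnb1 q hq.1.1.1 hq.1.1.2).mono_n hX1 hn12,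
      hnb2 q hq.1.1.1 hq.1.2, hq.2⟩)
  have b4 := hnt X hX1
    (((Q.filter fun q => ¬ P1 q).filter fun q => ¬ P2 q).filter fun q => ¬ P3 q) (by
    intro q hq
    rw [mem_filter, mem_filter, mem_filter] at hq
    obtain ⟨⟨⟨hq0, hq1⟩, hq2⟩, hq3⟩ := hq
    have hnb : ∀ l : Fin 3, NB n3 (X : ℝ) (num (tri q) l) := by
      intro l
      have hl : l = i ∨ l = j ∨ l = k := three i j k l hij hjk hik
      rcases hl with rfl | rfl | rfl
      · exact hnb3 q hq0 hq3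
      · exact (hnb2 q hq0 hq2).mono_n hX1 hn23
      · exact (hnb1 q hq0 hq1).mono_n hX1 (hn12.trans hn23)
    obtain ⟨hc, hbig⟩ := hQ q hq0
    refine ⟨hc.p1, hc.p2, hc.cop, hnb 0, hnb 1, hnb 2, ?_⟩
    calc (X : ℝ) ^ K0 ≤ (X : ℝ) ^ (K : ℝ) := Real.rpow_le_rpow_of_exponent_le hX1 hK
      _ = ((X ^ K : ℕ) : ℝ) := by rw [Real.rpow_natCast]; push_cast; rfl
      _ ≤ ((q.1 + q.2 : ℕ) : ℝ) := by exact_mod_cast hbig)
  rw [hsplit]
  push_cast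
  have c1 : C1 * (X : ℝ) ^ (2 * e) * Real.sqrt ((R₁ : ℝ) * R₂) ≤
      C1 * (X : ℝ) ^ ε * Real.sqrt ((R₁ : ℝ) * R₂) := by
    apply mul_le_mul_of_nonneg_right _ (Real.sqrt_nonneg _)
    exact mul_le_mul_of_nonneg_left (hXe 2 (by norm_num)) hC1.le
  have c2 : C2 * (X : ℝ) ^ (3 * e) * R₁ ≤ C2 * (X : ℝ) ^ ε * Real.sqrt ((R₁ : ℝ) * R₂) := by
    apply mul_le_mul _ hsq1 (by positivity) (by positivity)
    exact mul_le_mul_of_nonneg_left (hXe 3 le_rfl) hC2.le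
  have c3 : C3 * (X : ℝ) ^ (2 * e) ≤ C3 * (X : ℝ) ^ ε * Real.sqrt ((R₁ : ℝ) * R₂) := by
    have h1 : C3 * (X : ℝ) ^ (2 * e) ≤ C3 * (X : ℝ) ^ ε :=
      mul_le_mul_of_nonneg_left (hXe 2 (by norm_num)) hC3.le
    refine h1.trans ?_
    exact le_mul_of_one_le_right (by positivity) hsq2
  have c4 : C4 * (X : ℝ) ^ ε ≤ C4 * (X : ℝ) ^ ε * Real.sqrt ((R₁ : ℝ) * R₂) :=
    le_mul_of_one_le_right (by positivity) hsq2
  have hexp : (C1 + C2 + C3 + C4) * (X : ℝ) ^ ε * Real.sqrt ((R₁ : ℝ) * R₂) =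
      C1 * (X : ℝ) ^ ε * Real.sqrt ((R₁ : ℝ) * R₂) + C2 * (X : ℝ) ^ ε * Real.sqrt ((R₁ : ℝ) * R₂) +
      C3 * (X : ℝ) ^ ε * Real.sqrt ((R₁ : ℝ) * R₂) +
      C4 * (X : ℝ) ^ ε * Real.sqrt ((R₁ : ℝ) * R₂) := by ring
  rw [hexp]
  linarith

end Pool.Agent.T2H20.ABC
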