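import Pool.Agent.T2H20.ABC.Box

/-!
Consequences of the square root bound.
-/

set_option autoImplicit false

namespace Pool.Agent.T2H20.ABC

open Finset Pool.Agent.H785R2.ABC Pool.Agent.H785R2.ABC.EC

/-- the radical of `a b (a + b)` is the product of the radicals of the members -/
lemma rad_prod {q : ℕ × ℕ} (h1 : 0 < q.1) (h2 : 0 < q.2) (h3 : Nat.Coprime q.1 q.2) :
    rad (q.1 * q.2 * (q.1 + q.2)) =
      rad (num (tri q) 0) * rad (num (tri q) 1) * rad (num (tri q) 2) := by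
  have h := tri_abc h1 h2 h3
  have e0 : num (tri q) 0 = q.1 := rfl
  have e1 : num (tri q) 1 = q.2 := rfl
  have e2 : num (tri q) 2 = q.1 + q.2 := rfl
  rw [e0, e1, e2]
  have c1 : Nat.Coprime q.1 (q.1 + q.2) := by simpa using h3
  have c2 : Nat.Coprime q.2 (q.1 + q.2) := by simpa using h3.symm
  have hmul : ∀ a b : ℕ, Nat.Coprime a b → rad (a * b) = rad a * rad b := by
    intro a b hab
    unfold rad
    rw [Nat.Coprime.primeFactors_mul hab]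
    exact Finset.prod_union (Nat.Coprime.disjoint_primeFactors hab)
  rw [hmul _ _ (Nat.Coprime.mul_left c1 c2), hmul _ _ h3]

lemma univ3 : ∀ i j k : Fin 3, i ≠ j → j ≠ k → i ≠ k →
    (univ : Finset (Fin 3)) = {i, j, k} := by decide

lemma prod3 (f : Fin 3 → ℕ) {i j k : Fin 3} (hij : i ≠ j) (hjk : j ≠ k) (hik : i ≠ k) :
    f 0 * f 1 * f 2 = f i * f j * f k := by
  calc f 0 * f 1 * f 2 = ∏ l, f l := by rw [Fin.prod_univ_three]
    _ = ∏ l ∈ ({i, j, k} : Finset (Fin 3)), f l := by rw [univ3 i j k hij hjk hik]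
    _ = f i * f j * f k := by
        rw [prod_insert (by simp [hij, hik]), prod_insert (by simp [hjk]), prod_singleton,
          mul_assoc]

/-- the product of the radicals in any order -/
lemma rad_prod' {q : ℕ × ℕ} (h1 : 0 < q.1) (h2 : 0 < q.2) (h3 : Nat.Coprime q.1 q.2)
    {i j k : Fin 3} (hij : i ≠ j) (hjk : j ≠ k) (hik : i ≠ k) :
    rad (q.1 * q.2 * (q.1 + q.2)) =
      rad (num (tri q) i) * rad (num (tri q) j) * rad (num (tri q) k) := by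
  rw [rad_prod h1 h2 h3]
  exact prod3 (fun l => rad (num (tri q) l)) hij hjk hik

/-- ordering three numbers -/
lemma order3 (f : Fin 3 → ℕ) : ∃ i j k : Fin 3, i ≠ j ∧ j ≠ k ∧ i ≠ k ∧ f i ≤ f j ∧ f j ≤ f k := by
  rcases le_total (f 0) (f 1) with h1 | h1 <;> rcases le_total (f 1) (f 2) with h2 | h2 <;>
    rcases le_total (f 0) (f 2) with h3 | h3
  · exact ⟨0, 1, 2, by decide, by decide, by decide, h1, h2⟩
  · exact ⟨0, 1, 2, by decide, by decide, by decide, h1, h2⟩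
  · exact ⟨0, 2, 1, by decide, by decide, by decide, h3, h2⟩
  · exact ⟨2, 0, 1, by decide, by decide, by decide, h3, h1⟩
  · exact ⟨1, 0, 2, by decide, by decide, by decide, h1, h3⟩
  · exact ⟨1, 2, 0, by decide, by decide, by decide, h2, h3⟩
  · exact ⟨2, 1, 0, by decide, by decide, by decide, h2, h1⟩
  · exact ⟨2, 1, 0, by decide, by decide, by decide, h2, h1⟩

/-- the triples with a member of radical at most `B` -/
theorem small_member (ε : ℝ) (hε : 0 < ε) : ∃ K : ℕ, ∀ A : ℕ, ∃ C : ℝ, 0 < C ∧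
    ∀ X B : ℕ, 1 ≤ X → 1 ≤ B → ∀ Q : Finset (ℕ × ℕ),
    (∀ q ∈ Q, 0 < q.1 ∧ 0 < q.2 ∧ Nat.Coprime q.1 q.2 ∧ rad (q.1 * q.2 * (q.1 + q.2)) ≤ X ∧
      (∃ i, rad (num (tri q) i) ≤ B) ∧ X ^ K ≤ q.1 + q.2 ∧ q.1 + q.2 ≤ X ^ A) →
    (Q.card : ℝ) ≤ C * (X : ℝ) ^ ε * ((B : ℝ) * X) ^ ((1 : ℝ) / 4) := by
  classical
  obtain ⟨K0, hbox⟩ := box (ε / 2) (by positivity)
  obtain ⟨DL, hDL, hL⟩ := log_pow_le 2 (ε / 2) (by positivity)
  refine ⟨2 * K0, fun A => ?_⟩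
  obtain ⟨C, hC, hc⟩ := hbox A
  refine ⟨27 * DL * (C * 2 ^ (ε / 2) * 2), by positivity, ?_⟩
  intro X B hX hB Q hQ
  have hX0 : (0 : ℝ) < X := by exact_mod_cast hX
  have hX1 : (1 : ℝ) ≤ X := by exact_mod_cast hX
  have hBX : (0 : ℝ) ≤ (B : ℝ) * X := by positivity
  -- the cells
  set S : Finset ((Fin 3 × Fin 3 × Fin 3) × (ℕ × ℕ)) :=
    univ ×ˢ (range (Nat.log 2 X + 1) ×ˢ range (Nat.log 2 X + 1)) with hS
  have hScard : (S.card : ℝ) ≤ 27 * (DL * (X : ℝ) ^ (ε / 2)) := by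
    rw [hS, card_product, card_product, card_range, card_univ, Fintype.card_prod,
      Fintype.card_prod, Fintype.card_fin]
    have h1 := hL X hX
    push_cast at h1 ⊢
    nlinarith
  have hV0 : (0 : ℝ) ≤ C * (2 * X : ℝ) ^ (ε / 2) * (2 * ((B : ℝ) * X) ^ ((1 : ℝ) / 4)) := by
    positivity
  have h1 := card_le_of_cover Q S
    (fun z q => (z.1.1 ≠ z.1.2.1 ∧ z.1.2.1 ≠ z.1.2.2 ∧ z.1.1 ≠ z.1.2.2) ∧
      (rad (num (tri q) z.1.1) < 2 ^ (z.2.1 + 1) ∧ rad (num (tri q) z.1.2.1) < 2 ^ (z.2.2 + 1)) ∧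
      z.2.1 ≤ z.2.2 ∧ z.2.2 ≤ Nat.log 2 X ∧ (2 ^ z.2.1 * 2 ^ z.2.2) ^ 2 ≤ B * X)
    (C * (2 * X : ℝ) ^ (ε / 2) * (2 * ((B : ℝ) * X) ^ ((1 : ℝ) / 4)))
    (by
      intro q hq
      obtain ⟨g1, g2, g3, g4, ⟨i0, g5⟩, g6, g7⟩ := hQ q hq
      obtain ⟨i, j, k, hij, hjk, hik, o1, o2⟩ := order3 fun l => rad (num (tri q) l)
      have hpr := rad_prod' g1 g2 g3 hij hjk hik
      rw [hpr] at g4
      have pi := rad_pos (num (tri q) i)
      have pj := rad_pos (num (tri q) j)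
      have pk := rad_pos (num (tri q) k)
      have hiB : rad (num (tri q) i) ≤ B := by
        rcases three i j k i0 hij hjk hik with h | h | h
        · rw [h] at g5; exact g5
        · rw [h] at g5; exact o1.trans g5
        · rw [h] at g5; exact o1.trans (o2.trans g5)
      set a := rad (num (tri q) i) with ha
      set b := rad (num (tri q) j) with hb
      set c := rad (num (tri q) k) with hc'
      have hbX : b ≤ X := by
        calc b ≤ a * b * c := by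
              calc b = 1 * b * 1 := by ring
                _ ≤ a * b * c := Nat.mul_le_mul (Nat.mul_le_mul pi le_rfl) pk
          _ ≤ X := g4
      refine ⟨((i, j, k), (Nat.log 2 a, Nat.log 2 b)), ?_, ⟨hij, hjk, hik⟩, ⟨?_, ?_⟩, ?_, ?_, ?_⟩
      · rw [hS, mem_product, mem_product, mem_range, mem_range]
        refine ⟨mem_univ _, ?_, ?_⟩
        · show Nat.log 2 a < Nat.log 2 X + 1
          exact Nat.lt_succ_of_le (Nat.log_mono_right (o1.trans hbX))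
        · show Nat.log 2 b < Nat.log 2 X + 1
          exact Nat.lt_succ_of_le (Nat.log_mono_right hbX)
      · exact Nat.lt_pow_succ_log_self (by norm_num) a
      · exact Nat.lt_pow_succ_log_self (by norm_num) b
      · show Nat.log 2 a ≤ Nat.log 2 b
        exact Nat.log_mono_right o1
      · show Nat.log 2 b ≤ Nat.log 2 X
        exact Nat.log_mono_right hbX
      · have h2a : 2 ^ Nat.log 2 a ≤ a := Nat.pow_log_le_self 2 pi.ne'
        have h2b : 2 ^ Nat.log 2 b ≤ b := Nat.pow_log_le_self 2 pj.ne'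
        calc (2 ^ Nat.log 2 a * 2 ^ Nat.log 2 b) ^ 2 ≤ (a * b) ^ 2 :=
              Nat.pow_le_pow_left (Nat.mul_le_mul h2a h2b) 2
          _ = a * (a * b * b) := by ring
          _ ≤ B * (a * b * c) := Nat.mul_le_mul hiB (Nat.mul_le_mul_left _ o2)
          _ ≤ B * X := Nat.mul_le_mul_left _ g4)
    (by
      rintro ⟨⟨i, j, k⟩, u, v⟩ -
      simp only
      set Q' := Q.filter fun q => (i ≠ j ∧ j ≠ k ∧ i ≠ k) ∧
        (rad (num (tri q) i) < 2 ^ (u + 1) ∧ rad (num (tri q) j) < 2 ^ (v + 1)) ∧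
        u ≤ v ∧ v ≤ Nat.log 2 X ∧ (2 ^ u * 2 ^ v) ^ 2 ≤ B * X with hQ'
      rcases Q'.eq_empty_or_nonempty with h0 | ⟨q0, hq0⟩
      · rw [h0, card_empty, Nat.cast_zero]
        exact hV0
      obtain ⟨-, ⟨hij, hjk, hik⟩, -, huv, hv, hcap⟩ := by
        rw [hQ', mem_filter] at hq0
        exact hq0
      have h2v : 2 ^ v ≤ X := (Nat.pow_le_pow_right (by norm_num) hv).trans
        (Nat.pow_log_le_self 2 (by omega))
      have hmain := hc (2 * X) (2 ^ (u + 1)) (2 ^ (v + 1)) (by omega) Nat.one_le_two_pow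
        (Nat.pow_le_pow_right (by norm_num) (by omega)) (by rw [pow_succ]; omega) i j k hij hjk hik
        Q' (by
          intro q hq
          rw [hQ', mem_filter] at hq
          obtain ⟨hq1, -, ⟨r1, r2⟩, -⟩ := hq
          obtain ⟨g1, g2, g3, g4, -, g6, g7⟩ := hQ q hq1
          have hX2 : 2 ≤ X := by
            by_contra hlt
            have hX1' : X = 1 := by omega
            rw [hX1', one_pow] at g7
            omega
          have hpr := rad_prod' g1 g2 g3 hij hjk hik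
          rw [hpr] at g4
          have pi := rad_pos (num (tri q) i)
          have pj := rad_pos (num (tri q) j)
          refine ⟨⟨g1, g2, g3, ?_, r1.le, r2.le, ?_⟩, ?_⟩
          · exact g7.trans (Nat.pow_le_pow_left (by omega) _)
          · calc rad (num (tri q) k) = 1 * 1 * rad (num (tri q) k) := by ring
              _ ≤ rad (num (tri q) i) * rad (num (tri q) j) * rad (num (tri q) k) :=
                Nat.mul_le_mul (Nat.mul_le_mul pi pj) le_rfl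
              _ ≤ 2 * X := by omega
          · calc (2 * X) ^ K0 ≤ (X * X) ^ K0 := Nat.pow_le_pow_left (Nat.mul_le_mul_right _ hX2) _
              _ = X ^ (2 * K0) := by rw [← sq, ← pow_mul]
              _ ≤ _ := g6)
      have hsq : Real.sqrt (((2 ^ (u + 1) : ℕ) : ℝ) * ((2 ^ (v + 1) : ℕ) : ℝ)) ≤
          2 * ((B : ℝ) * X) ^ ((1 : ℝ) / 4) := by
        have hcapR : (((2 : ℝ) ^ u * 2 ^ v)) ^ 2 ≤ (B : ℝ) * X := by exact_mod_cast hcap
        have h3 : (2 : ℝ) ^ u * 2 ^ v ≤ ((B : ℝ) * X) ^ ((1 : ℝ) / 2) := by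
          rw [← Real.sqrt_eq_rpow]
          exact Real.le_sqrt_of_sq_le hcapR
        rw [Real.sqrt_le_left (by positivity)]
        push_cast
        have h4 : (2 * ((B : ℝ) * X) ^ ((1 : ℝ) / 4)) ^ 2 = 4 * ((B : ℝ) * X) ^ ((1 : ℝ) / 2) := by
          rw [mul_pow, ← Real.rpow_natCast (((B : ℝ) * X) ^ ((1 : ℝ) / 4)), ← Real.rpow_mul hBX]
          norm_num
        rw [h4, pow_succ, pow_succ]
        nlinarith
      refine hmain.trans ?_
      push_cast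
      push_cast at hsq
      exact mul_le_mul_of_nonneg_left hsq (by positivity))
  refine h1.trans ?_
  calc (S.card : ℝ) * (C * (2 * X : ℝ) ^ (ε / 2) * (2 * ((B : ℝ) * X) ^ ((1 : ℝ) / 4)))
      ≤ (27 * (DL * (X : ℝ) ^ (ε / 2))) *
        (C * (2 * X : ℝ) ^ (ε / 2) * (2 * ((B : ℝ) * X) ^ ((1 : ℝ) / 4))) :=
        mul_le_mul_of_nonneg_right hScard hV0
    _ = 27 * DL * (C * 2 ^ (ε / 2) * 2) * ((X : ℝ) ^ (ε / 2) * (X : ℝ) ^ (ε / 2)) *
        ((B : ℝ) * X) ^ ((1 : ℝ) / 4) := by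
        rw [Real.mul_rpow (by norm_num) hX0.le]
        ring
    _ = _ := by rw [← Real.rpow_add hX0, add_halves]

lemma rad_le_of_dvd {a b : ℕ} (hb : b ≠ 0) (h : a ∣ b) : rad a ≤ rad b := by
  unfold rad
  exact Finset.prod_le_prod_of_subset_of_one_le' (Nat.primeFactors_mono h hb)
    (fun p hp _ => (Nat.prime_of_mem_primeFactors hp).one_le)

/-- one of the three radicals is at most the cube root of the radical -/
lemma exists_small {q : ℕ × ℕ} (h1 : 0 < q.1) (h2 : 0 < q.2) (h3 : Nat.Coprime q.1 q.2) :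
    ∃ i, rad (num (tri q) i) ^ 3 ≤ rad (q.1 * q.2 * (q.1 + q.2)) := by
  obtain ⟨i, j, k, hij, hjk, hik, o1, o2⟩ := order3 fun l => rad (num (tri q) l)
  refine ⟨i, ?_⟩
  rw [rad_prod' h1 h2 h3 hij hjk hik, pow_succ, sq]
  exact Nat.mul_le_mul (Nat.mul_le_mul_left _ o1) (o1.trans o2)

/-- all the triples, ordered by radical -/
theorem by_radical (ε : ℝ) (hε : 0 < ε) : ∃ K : ℕ, ∀ A : ℕ, ∃ C : ℝ, 0 < C ∧
    ∀ X : ℕ, 1 ≤ X → ∀ Q : Finset (ℕ × ℕ),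
    (∀ q ∈ Q, 0 < q.1 ∧ 0 < q.2 ∧ Nat.Coprime q.1 q.2 ∧ rad (q.1 * q.2 * (q.1 + q.2)) ≤ X ∧
      X ^ K ≤ q.1 + q.2 ∧ q.1 + q.2 ≤ X ^ A) →
    (Q.card : ℝ) ≤ C * (X : ℝ) ^ (1 / 3 + ε) := by
  obtain ⟨K, hK⟩ := small_member ε hε
  refine ⟨K, fun A => ?_⟩
  obtain ⟨C, hC, hc⟩ := hK A
  refine ⟨C, hC, ?_⟩
  intro X hX Q hQ
  have hX0 : (0 : ℝ) < X := by exact_mod_cast hX
  have hX1 : (1 : ℝ) ≤ X := by exact_mod_cast hX
  obtain ⟨B, hB⟩ : ∃ B, B = ⌊(X : ℝ) ^ ((1 : ℝ) / 3)⌋₊ := ⟨_, rfl⟩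
  have hB1 : 1 ≤ B := by
    rw [hB]
    apply Nat.le_floor
    push_cast
    exact Real.one_le_rpow hX1 (by norm_num)
  have hBX : (B : ℝ) ≤ (X : ℝ) ^ ((1 : ℝ) / 3) := by
    rw [hB]; exact Nat.floor_le (by positivity)
  have h1 := hc X B hX hB1 Q (by
    intro q hq
    obtain ⟨g1, g2, g3, g4, g5, g6⟩ := hQ q hq
    refine ⟨g1, g2, g3, g4, ?_, g5, g6⟩
    obtain ⟨i, hi⟩ := exists_small g1 g2 g3
    refine ⟨i, ?_⟩
    rw [hB]
    apply Nat.le_floor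
    have h2 : ((rad (num (tri q) i) : ℕ) : ℝ) ^ 3 ≤ X := by exact_mod_cast hi.trans g4
    calc ((rad (num (tri q) i) : ℕ) : ℝ) = (((rad (num (tri q) i) : ℕ) : ℝ) ^ 3) ^ ((1 : ℝ) / 3) := by
          rw [← Real.rpow_natCast, ← Real.rpow_mul (by positivity)]
          norm_num
      _ ≤ (X : ℝ) ^ ((1 : ℝ) / 3) := Real.rpow_le_rpow (by positivity) h2 (by norm_num))
  refine h1.trans ?_
  have h2 : ((B : ℝ) * X) ^ ((1 : ℝ) / 4) ≤ (X : ℝ) ^ ((1 : ℝ) / 3) := by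
    calc ((B : ℝ) * X) ^ ((1 : ℝ) / 4) ≤ ((X : ℝ) ^ ((1 : ℝ) / 3) * X) ^ ((1 : ℝ) / 4) := by
          apply Real.rpow_le_rpow (by positivity) _ (by norm_num)
          exact mul_le_mul_of_nonneg_right hBX hX0.le
      _ = (X : ℝ) ^ ((1 : ℝ) / 3) := by
          have : (X : ℝ) ^ ((1 : ℝ) / 3) * X = (X : ℝ) ^ ((4 : ℝ) / 3) := by
            conv_lhs => rw [← Real.rpow_one (X : ℝ)]
            rw [← Real.rpow_mul hX0.le, ← Real.rpow_add hX0]
            norm_num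
          rw [this, ← Real.rpow_mul hX0.le]
          norm_num
  calc C * (X : ℝ) ^ ε * ((B : ℝ) * X) ^ ((1 : ℝ) / 4) ≤ C * (X : ℝ) ^ ε * (X : ℝ) ^ ((1 : ℝ) / 3) :=
        mul_le_mul_of_nonneg_left h2 (by positivity)
    _ = C * (X : ℝ) ^ (1 / 3 + ε) := by
        rw [mul_assoc, ← Real.rpow_add hX0]
        congr 2
        ring

/-- **ordered by height** -/
theorem by_height (ε : ℝ) (hε : 0 < ε) : ∃ M₀ : ℝ, 1 ≤ M₀ ∧ ∀ M : ℝ, M₀ ≤ M → ∃ C : ℝ, 0 < C ∧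
    ∀ N B : ℕ, 1 ≤ N → 1 ≤ B → ∀ Q : Finset (ℕ × ℕ),
    (∀ q ∈ Q, 0 < q.1 ∧ 0 < q.2 ∧ Nat.Coprime q.1 q.2 ∧ q.1 + q.2 ≤ N ∧
      ((rad (q.1 * q.2 * (q.1 + q.2)) : ℕ) : ℝ) ^ M ≤ ((q.1 + q.2 : ℕ) : ℝ) ∧
      (∃ i, rad (num (tri q) i) ≤ B)) →
    (Q.card : ℝ) ≤ C * (B : ℝ) ^ ((1 : ℝ) / 4) * (N : ℝ) ^ ((1 / 4 + ε) / M) := by
  classical
  obtain ⟨K, hK⟩ := small_member ε hε
  obtain ⟨D4, hD4, h4⟩ := Pool.Agent.H705R2.ABC.stmtA4' (ε / (4 * (K + 1))) (by positivity)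
  refine ⟨4 * K / ε + 1, by
    have : (0 : ℝ) ≤ 4 * K / ε := by positivity
    linarith, ?_⟩
  intro M hM
  have hM1 : 1 ≤ M := by
    have : (0 : ℝ) ≤ 4 * K / ε := by positivity
    linarith
  have hM0 : 0 < M := by linarith
  have hMK : 4 * (K : ℝ) ≤ ε * M := by
    have h1 : 4 * (K : ℝ) / ε ≤ M := by linarith
    rw [div_le_iff₀ hε] at h1
    linarith
  obtain ⟨A, hA⟩ := exists_nat_ge (2 * M)
  obtain ⟨C, hC, hc⟩ := hK A
  refine ⟨C + D4 ^ 2, by positivity, ?_⟩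
  intro N B hN hB Q hQ
  have hN0 : (0 : ℝ) < N := by exact_mod_cast hN
  have hN1 : (1 : ℝ) ≤ N := by exact_mod_cast hN
  obtain ⟨X, hX⟩ : ∃ X, X = ⌊(N : ℝ) ^ (1 / M)⌋₊ := ⟨_, rfl⟩
  have hXle : (X : ℝ) ≤ (N : ℝ) ^ (1 / M) := by rw [hX]; exact Nat.floor_le (by positivity)
  have hXlt : (N : ℝ) ^ (1 / M) < X + 1 := by rw [hX]; exact Nat.lt_floor_add_one _
  have hXone : 1 ≤ X := by
    rw [hX]
    apply Nat.le_floor
    push_cast
    exact Real.one_le_rpow hN1 (by positivity)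
  have hX0 : (0 : ℝ) < X := by exact_mod_cast hXone
  have hX1 : (1 : ℝ) ≤ X := by exact_mod_cast hXone
  have hB1 : (1 : ℝ) ≤ B := by exact_mod_cast hB
  -- the radicals
  have hrad : ∀ q ∈ Q, ∀ Y : ℝ, 0 ≤ Y → ((q.1 + q.2 : ℕ) : ℝ) ≤ Y →
      ((rad (q.1 * q.2 * (q.1 + q.2)) : ℕ) : ℝ) ≤ Y ^ (1 / M) := by
    intro q hq Y hY hqY
    obtain ⟨g1, g2, g3, g4, g5, g6⟩ := hQ q hq
    calc ((rad (q.1 * q.2 * (q.1 + q.2)) : ℕ) : ℝ) =
          (((rad (q.1 * q.2 * (q.1 + q.2)) : ℕ) : ℝ) ^ M) ^ (1 / M) := by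
          rw [← Real.rpow_mul (by positivity), mul_one_div_cancel hM0.ne', Real.rpow_one]
      _ ≤ Y ^ (1 / M) := Real.rpow_le_rpow (by positivity) (g5.trans hqY) (by positivity)
  have hradX : ∀ q ∈ Q, rad (q.1 * q.2 * (q.1 + q.2)) ≤ X := by
    intro q hq
    rw [hX]
    apply Nat.le_floor
    exact hrad q hq N hN0.le (by exact_mod_cast (hQ q hq).2.2.2.1)
  have hX2 : Q.Nonempty → 2 ≤ X := by
    rintro ⟨q, hq⟩
    obtain ⟨g1, g2, g3, g4, g5, g6⟩ := hQ q hq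
    refine le_trans ?_ (hradX q hq)
    obtain ⟨p, hp, hpd⟩ := Nat.exists_prime_and_dvd (by omega : q.1 + q.2 ≠ 1)
    calc 2 ≤ p := hp.two_le
      _ = rad p := by unfold rad; rw [hp.primeFactors, prod_singleton]
      _ ≤ rad (q.1 * q.2 * (q.1 + q.2)) :=
        rad_le_of_dvd (by positivity) (hpd.trans (Dvd.intro_left _ rfl))
  rcases Q.eq_empty_or_nonempty with hQ0 | hQne
  · rw [hQ0, card_empty, Nat.cast_zero]
    positivity
  have hXtwo := hX2 hQne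
  have hXtwoR : (2 : ℝ) ≤ X := by exact_mod_cast hXtwo
  have hNA : ∀ q ∈ Q, q.1 + q.2 ≤ X ^ A := by
    intro q hq
    have h1 : (N : ℝ) ≤ (X : ℝ) ^ A := by
      calc (N : ℝ) = ((N : ℝ) ^ (1 / M)) ^ M := by
            rw [← Real.rpow_mul hN0.le, one_div_mul_cancel hM0.ne', Real.rpow_one]
        _ ≤ ((X : ℝ) ^ (2 : ℝ)) ^ M := by
            apply Real.rpow_le_rpow (by positivity) _ hM0.le
            rw [Real.rpow_two]
            nlinarith
        _ = (X : ℝ) ^ (2 * M) := by rw [← Real.rpow_mul hX0.le]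
        _ ≤ (X : ℝ) ^ (A : ℝ) := Real.rpow_le_rpow_of_exponent_le hX1 hA
        _ = (X : ℝ) ^ A := Real.rpow_natCast _ _
    have h2 : N ≤ X ^ A := by exact_mod_cast h1
    exact (hQ q hq).2.2.2.1.trans h2
  -- large triples
  have b1 := hc X B hXone hB (Q.filter fun q => X ^ K ≤ q.1 + q.2) (by
    intro q hq
    rw [mem_filter] at hq
    obtain ⟨g1, g2, g3, g4, g5, g6⟩ := hQ q hq.1
    exact ⟨g1, g2, g3, hradX q hq.1, g6, hq.2, hNA q hq.1⟩)
  -- small triples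
  have b2 : ((Q.filter fun q => ¬ X ^ K ≤ q.1 + q.2).card : ℝ) ≤ D4 ^ 2 * (X : ℝ) ^ ε := by
    set S := (Icc 1 (X ^ K)).filter fun d => (rad d : ℝ) ≤ (X : ℝ) ^ (K / M) with hS
    have h5 := h4 (X ^ K) (Nat.pow_pos hXone) ((X : ℝ) ^ (K / M)) (by positivity)
    have h6 : ((X ^ K : ℕ) : ℝ) ^ (ε / (4 * (K + 1))) ≤ (X : ℝ) ^ (ε / 4) := by
      push_cast
      rw [← Real.rpow_natCast, ← Real.rpow_mul hX0.le]
      apply Real.rpow_le_rpow_of_exponent_le hX1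
      rw [← mul_div_assoc, div_le_div_iff₀ (by positivity) (by norm_num)]
      nlinarith
    have h7 : (X : ℝ) ^ ((K : ℝ) / M) ≤ (X : ℝ) ^ (ε / 4) := by
      apply Real.rpow_le_rpow_of_exponent_le hX1
      rw [div_le_div_iff₀ hM0 (by norm_num)]
      linarith
    have h8 : (S.card : ℝ) ≤ D4 * (X : ℝ) ^ (ε / 2) := by
      calc (S.card : ℝ) ≤ D4 * ((X ^ K : ℕ) : ℝ) ^ (ε / (4 * (K + 1))) * (X : ℝ) ^ ((K : ℝ) / M) := h5
        _ ≤ D4 * (X : ℝ) ^ (ε / 4) * (X : ℝ) ^ (ε / 4) := by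
            apply mul_le_mul _ h7 (by positivity) (by positivity)
            exact mul_le_mul_of_nonneg_left h6 hD4.le
        _ = D4 * (X : ℝ) ^ (ε / 2) := by
            rw [mul_assoc, ← Real.rpow_add hX0]
            congr 2
            ring
    have h9 : (Q.filter fun q => ¬ X ^ K ≤ q.1 + q.2) ⊆ S ×ˢ S := by
      intro q hq
      rw [mem_filter] at hq
      obtain ⟨hq1, hq2⟩ := hq
      obtain ⟨g1, g2, g3, g4, g5, g6⟩ := hQ q hq1
      have hlt : q.1 + q.2 < X ^ K := not_le.mp hq2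
      have hr : ((rad (q.1 * q.2 * (q.1 + q.2)) : ℕ) : ℝ) ≤ (X : ℝ) ^ ((K : ℝ) / M) := by
        have := hrad q hq1 ((X : ℝ) ^ K) (by positivity) (by exact_mod_cast hlt.le)
        refine this.trans (le_of_eq ?_)
        rw [← Real.rpow_natCast, ← Real.rpow_mul hX0.le]
        congr 1
        ring
      have hne : q.1 * q.2 * (q.1 + q.2) ≠ 0 := by positivity
      have r1 : rad q.1 ≤ rad (q.1 * q.2 * (q.1 + q.2)) :=
        rad_le_of_dvd hne ((Dvd.intro _ rfl : q.1 ∣ q.1 * q.2).trans (Dvd.intro _ rfl))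
      have r2 : rad q.2 ≤ rad (q.1 * q.2 * (q.1 + q.2)) :=
        rad_le_of_dvd hne ((Dvd.intro_left _ rfl : q.2 ∣ q.1 * q.2).trans (Dvd.intro _ rfl))
      rw [mem_product, hS, mem_filter, mem_filter, mem_Icc, mem_Icc]
      refine ⟨⟨⟨g1, by omega⟩, ?_⟩, ⟨g2, by omega⟩, ?_⟩
      · exact le_trans (by exact_mod_cast r1) hr
      · exact le_trans (by exact_mod_cast r2) hr
    have h10 := card_le_card h9
    rw [card_product] at h10
    calc ((Q.filter fun q => ¬ X ^ K ≤ q.1 + q.2).card : ℝ) ≤ (S.card : ℝ) * S.card := by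
          exact_mod_cast h10
      _ ≤ (D4 * (X : ℝ) ^ (ε / 2)) * (D4 * (X : ℝ) ^ (ε / 2)) :=
          mul_le_mul h8 h8 (by positivity) (by positivity)
      _ = D4 ^ 2 * ((X : ℝ) ^ (ε / 2) * (X : ℝ) ^ (ε / 2)) := by ring
      _ = _ := by rw [← Real.rpow_add hX0, add_halves]
  have hsplit : Q.card = (Q.filter fun q => X ^ K ≤ q.1 + q.2).card +
      (Q.filter fun q => ¬ X ^ K ≤ q.1 + q.2).card :=
    (Finset.card_filter_add_card_filter_not (s := Q) (fun q => X ^ K ≤ q.1 + q.2)).symm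
  have hBX1 : (1 : ℝ) ≤ ((B : ℝ) * X) ^ ((1 : ℝ) / 4) :=
    Real.one_le_rpow (by nlinarith) (by norm_num)
  have htot : (Q.card : ℝ) ≤ (C + D4 ^ 2) * ((X : ℝ) ^ ε * ((B : ℝ) * X) ^ ((1 : ℝ) / 4)) := by
    rw [hsplit]
    push_cast
    have h11 : D4 ^ 2 * (X : ℝ) ^ ε ≤ D4 ^ 2 * (X : ℝ) ^ ε * ((B : ℝ) * X) ^ ((1 : ℝ) / 4) :=
      le_mul_of_one_le_right (by positivity) hBX1
    have h12 : (C + D4 ^ 2) * ((X : ℝ) ^ ε * ((B : ℝ) * X) ^ ((1 : ℝ) / 4)) =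
        C * (X : ℝ) ^ ε * ((B : ℝ) * X) ^ ((1 : ℝ) / 4) +
        D4 ^ 2 * (X : ℝ) ^ ε * ((B : ℝ) * X) ^ ((1 : ℝ) / 4) := by ring
    rw [h12]
    linarith
  have hXN : (X : ℝ) ^ ε * ((B : ℝ) * X) ^ ((1 : ℝ) / 4) ≤
      (B : ℝ) ^ ((1 : ℝ) / 4) * (N : ℝ) ^ ((1 / 4 + ε) / M) := by
    calc (X : ℝ) ^ ε * ((B : ℝ) * X) ^ ((1 : ℝ) / 4) =
          (B : ℝ) ^ ((1 : ℝ) / 4) * (X : ℝ) ^ (1 / 4 + ε) := by
          rw [Real.mul_rpow (by positivity) hX0.le, Real.rpow_add hX0]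
          ring
      _ ≤ (B : ℝ) ^ ((1 : ℝ) / 4) * ((N : ℝ) ^ (1 / M)) ^ (1 / 4 + ε) := by
          apply mul_le_mul_of_nonneg_left _ (by positivity)
          exact Real.rpow_le_rpow hX0.le hXle (by positivity)
      _ = _ := by
          rw [← Real.rpow_mul hN0.le]
          congr 2
          ring
  calc (Q.card : ℝ) ≤ (C + D4 ^ 2) * ((X : ℝ) ^ ε * ((B : ℝ) * X) ^ ((1 : ℝ) / 4)) := htot
    _ ≤ (C + D4 ^ 2) * ((B : ℝ) ^ ((1 : ℝ) / 4) * (N : ℝ) ^ ((1 / 4 + ε) / M)) :=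
        mul_le_mul_of_nonneg_left hXN (by positivity)
    _ = _ := by ring

end Pool.Agent.T2H20.ABC
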