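import Pool.Agent.T2H20.ABC.Cor

/-!
The exceptions of Oesterlé's inequality with a large exponent.
-/

set_option autoImplicit false

namespace Pool.Agent.T2H20.ABC

open Finset Pool.Agent.H785R2.ABC Pool.Agent.H785R2.ABC.EC

/-- **the exceptions, a member of which has radical at most `B`** -/
theorem exceptions_bound (ε : ℝ) (hε : 0 < ε) : ∃ M : ℕ, 1 ≤ M ∧ ∀ A : ℕ, ∃ C : ℝ, 0 < C ∧
    ∀ X B : ℕ, 1 ≤ X → 1 ≤ B → ∀ Q : Finset (ℕ × ℕ),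
    (∀ q ∈ Q, 0 < q.1 ∧ 0 < q.2 ∧ Nat.Coprime q.1 q.2 ∧ rad (q.1 * q.2 * (q.1 + q.2)) ≤ X ∧
      (∃ i, rad (num (tri q) i) ≤ B) ∧ rad (q.1 * q.2 * (q.1 + q.2)) ^ M ≤ q.1 + q.2 ∧
      q.1 + q.2 ≤ X ^ A) →
    (Q.card : ℝ) ≤ C * (X : ℝ) ^ ε * ((B : ℝ) * X) ^ ((1 : ℝ) / 4) := by
  classical
  obtain ⟨K, hK⟩ := small_member (ε / 2) (by positivity)
  refine ⟨2 * K + 1, by omega, fun A => ?_⟩
  obtain ⟨C1, hC1, hc⟩ := hK (8 * A)
  obtain ⟨DL, hDL, hL⟩ := log_pow_le 1 (ε / 2) (by positivity)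
  obtain ⟨D4, hD4, h4⟩ := Pool.Agent.H705R2.ABC.stmtA4' (ε / (2 * (A + 1))) (by positivity)
  refine ⟨DL * (C1 * 2 ^ (ε / 2) * 2 ^ ((1 : ℝ) / 4)) + D4 ^ 2, by positivity, ?_⟩
  intro X B hX hB Q hQ
  have hX0 : (0 : ℝ) < X := by exact_mod_cast hX
  have hX1 : (1 : ℝ) ≤ X := by exact_mod_cast hX
  have hB1 : (1 : ℝ) ≤ B := by exact_mod_cast hB
  set ρ : ℕ × ℕ → ℕ := fun q => rad (q.1 * q.2 * (q.1 + q.2)) with hρ
  have hρ2 : ∀ q ∈ Q, 2 ≤ ρ q := by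
    intro q hq
    obtain ⟨g1, g2, -⟩ := hQ q hq
    obtain ⟨p, hp, hpd⟩ := Nat.exists_prime_and_dvd (by omega : q.1 + q.2 ≠ 1)
    calc 2 ≤ p := hp.two_le
      _ = rad p := by unfold rad; rw [hp.primeFactors, prod_singleton]
      _ ≤ rad (q.1 * q.2 * (q.1 + q.2)) :=
        rad_le_of_dvd (by positivity) (hpd.trans (Dvd.intro_left _ rfl))
  have hsplit : Q.card = (Q.filter fun q => X ≤ ρ q ^ 8).card +
      (Q.filter fun q => ¬ X ≤ ρ q ^ 8).card :=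
    (Finset.card_filter_add_card_filter_not (s := Q) (fun q => X ≤ ρ q ^ 8)).symm
  have hV0 : (0 : ℝ) ≤ C1 * (2 * X : ℝ) ^ (ε / 2) * ((B : ℝ) * (2 * X)) ^ ((1 : ℝ) / 4) := by
    positivity
  -- large radicals
  have b1 : ((Q.filter fun q => X ≤ ρ q ^ 8).card : ℝ) ≤
      ((range (Nat.log 2 X + 1)).card : ℝ) *
        (C1 * (2 * X : ℝ) ^ (ε / 2) * ((B : ℝ) * (2 * X)) ^ ((1 : ℝ) / 4)) := by
    apply card_le_of_cover _ _ (fun u q => u = Nat.log 2 (ρ q))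
    · intro q hq
      rw [mem_filter] at hq
      refine ⟨Nat.log 2 (ρ q), ?_, rfl⟩
      rw [mem_range]
      exact Nat.lt_succ_of_le (Nat.log_mono_right (hQ q hq.1).2.2.2.1)
    · intro u _
      set Q' := (Q.filter fun q => X ≤ ρ q ^ 8).filter fun q => u = Nat.log 2 (ρ q) with hQ'
      rcases Q'.eq_empty_or_nonempty with h0 | ⟨q0, hq0⟩
      · rw [h0, card_empty, Nat.cast_zero]
        exact hV0
      have hmem : ∀ q ∈ Q', q ∈ Q ∧ X ≤ ρ q ^ 8 ∧ 2 ^ u ≤ ρ q ∧ ρ q < 2 ^ (u + 1) := by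
        intro q hq
        rw [hQ', mem_filter, mem_filter] at hq
        obtain ⟨⟨h1, h2⟩, h3⟩ := hq
        have h4 := hρ2 q h1
        refine ⟨h1, h2, ?_, ?_⟩
        · rw [h3]; exact Nat.pow_log_le_self 2 (by omega)
        · rw [h3]; exact Nat.lt_pow_succ_log_self (by norm_num) _
      obtain ⟨Y, hY⟩ : ∃ Y, Y = 2 ^ (u + 1) := ⟨_, rfl⟩
      have hYX : Y ≤ 2 * X := by
        obtain ⟨h1, h2, h3, h4⟩ := hmem q0 hq0
        rw [hY, pow_succ]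
        have := (hQ q0 h1).2.2.2.1
        have h5 : ρ q0 ≤ X := this
        omega
      have hY1 : 1 ≤ Y := by rw [hY]; exact Nat.one_le_two_pow
      have hmain := hc Y B hY1 hB Q' (by
        intro q hq
        obtain ⟨h1, h2, h3, h4⟩ := hmem q hq
        obtain ⟨g1, g2, g3, g4, g5, g6, g7⟩ := hQ q h1
        have hρq := hρ2 q h1
        have hYρ : Y ≤ 2 * ρ q := by rw [hY, pow_succ]; omega
        refine ⟨g1, g2, g3, ?_, g5, ?_, ?_⟩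
        · rw [hY]; exact h4.le
        · calc Y ^ K ≤ (ρ q * ρ q) ^ K := by
                apply Nat.pow_le_pow_left
                exact hYρ.trans (Nat.mul_le_mul_right _ hρq)
            _ = ρ q ^ (2 * K) := by rw [← sq, ← pow_mul]
            _ ≤ ρ q ^ (2 * K + 1) := Nat.pow_le_pow_right (by omega) (by omega)
            _ ≤ q.1 + q.2 := g6
        · calc q.1 + q.2 ≤ X ^ A := g7
            _ ≤ (ρ q ^ 8) ^ A := Nat.pow_le_pow_left h2 _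
            _ = ρ q ^ (8 * A) := by rw [← pow_mul]
            _ ≤ Y ^ (8 * A) := Nat.pow_le_pow_left (by rw [hY]; exact h4.le) _)
      refine hmain.trans ?_
      have hYXr : (Y : ℝ) ≤ 2 * X := by exact_mod_cast hYX
      have hY0 : (0 : ℝ) ≤ Y := Nat.cast_nonneg _
      have e1 : (Y : ℝ) ^ (ε / 2) ≤ (2 * X : ℝ) ^ (ε / 2) :=
        Real.rpow_le_rpow hY0 hYXr (by positivity)
      have e2 : ((B : ℝ) * Y) ^ ((1 : ℝ) / 4) ≤ ((B : ℝ) * (2 * X)) ^ ((1 : ℝ) / 4) :=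
        Real.rpow_le_rpow (by positivity) (mul_le_mul_of_nonneg_left hYXr (by positivity))
          (by norm_num)
      apply mul_le_mul _ e2 (by positivity) (by positivity)
      exact mul_le_mul_of_nonneg_left e1 hC1.le
  -- small radicals
  have b2 : ((Q.filter fun q => ¬ X ≤ ρ q ^ 8).card : ℝ) ≤
      D4 ^ 2 * ((X : ℝ) ^ ε * (X : ℝ) ^ ((1 : ℝ) / 4)) := by
    set S := (Icc 1 (X ^ A)).filter fun d => (rad d : ℝ) ≤ (X : ℝ) ^ ((1 : ℝ) / 8) with hS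
    have h5 := h4 (X ^ A) (Nat.pow_pos hX) ((X : ℝ) ^ ((1 : ℝ) / 8)) (by positivity)
    have h6 : ((X ^ A : ℕ) : ℝ) ^ (ε / (2 * (A + 1))) ≤ (X : ℝ) ^ (ε / 2) := by
      push_cast
      rw [← Real.rpow_natCast, ← Real.rpow_mul hX0.le]
      apply Real.rpow_le_rpow_of_exponent_le hX1
      rw [← mul_div_assoc, div_le_div_iff₀ (by positivity) (by norm_num)]
      nlinarith
    have h8 : (S.card : ℝ) ≤ D4 * (X : ℝ) ^ (ε / 2) * (X : ℝ) ^ ((1 : ℝ) / 8) := by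
      refine h5.trans ?_
      apply mul_le_mul_of_nonneg_right _ (by positivity)
      exact mul_le_mul_of_nonneg_left h6 hD4.le
    have h9 : (Q.filter fun q => ¬ X ≤ ρ q ^ 8) ⊆ S ×ˢ S := by
      intro q hq
      rw [mem_filter] at hq
      obtain ⟨hq1, hq2⟩ := hq
      obtain ⟨g1, g2, g3, g4, g5, g6, g7⟩ := hQ q hq1
      have hlt : ρ q ^ 8 < X := not_le.mp hq2
      have hr : ((ρ q : ℕ) : ℝ) ≤ (X : ℝ) ^ ((1 : ℝ) / 8) := by
        have h10 : ((ρ q : ℕ) : ℝ) ^ 8 ≤ X := by exact_mod_cast hlt.le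
        calc ((ρ q : ℕ) : ℝ) = (((ρ q : ℕ) : ℝ) ^ 8) ^ ((1 : ℝ) / 8) := by
              rw [← Real.rpow_natCast, ← Real.rpow_mul (by positivity)]
              norm_num
          _ ≤ (X : ℝ) ^ ((1 : ℝ) / 8) := Real.rpow_le_rpow (by positivity) h10 (by norm_num)
      have hne : q.1 * q.2 * (q.1 + q.2) ≠ 0 := by positivity
      have r1 : rad q.1 ≤ ρ q :=
        rad_le_of_dvd hne ((Dvd.intro _ rfl : q.1 ∣ q.1 * q.2).trans (Dvd.intro _ rfl))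
      have r2 : rad q.2 ≤ ρ q :=
        rad_le_of_dvd hne ((Dvd.intro_left _ rfl : q.2 ∣ q.1 * q.2).trans (Dvd.intro _ rfl))
      rw [mem_product, hS, mem_filter, mem_filter, mem_Icc, mem_Icc]
      refine ⟨⟨⟨g1, by omega⟩, ?_⟩, ⟨g2, by omega⟩, ?_⟩
      · exact le_trans (by exact_mod_cast r1) hr
      · exact le_trans (by exact_mod_cast r2) hr
    have h10 := card_le_card h9
    rw [card_product] at h10
    calc ((Q.filter fun q => ¬ X ≤ ρ q ^ 8).card : ℝ) ≤ (S.card : ℝ) * S.card := by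
          exact_mod_cast h10
      _ ≤ (D4 * (X : ℝ) ^ (ε / 2) * (X : ℝ) ^ ((1 : ℝ) / 8)) *
          (D4 * (X : ℝ) ^ (ε / 2) * (X : ℝ) ^ ((1 : ℝ) / 8)) :=
          mul_le_mul h8 h8 (by positivity) (by positivity)
      _ = D4 ^ 2 * (((X : ℝ) ^ (ε / 2) * (X : ℝ) ^ (ε / 2)) *
          ((X : ℝ) ^ ((1 : ℝ) / 8) * (X : ℝ) ^ ((1 : ℝ) / 8))) := by ring
      _ = _ := by
          rw [← Real.rpow_add hX0, ← Real.rpow_add hX0, add_halves]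
          norm_num
  rw [hsplit]
  push_cast
  rw [card_range] at b1
  have h11 := hL X hX
  rw [pow_one] at h11
  have h12 : (X : ℝ) ^ ((1 : ℝ) / 4) ≤ ((B : ℝ) * X) ^ ((1 : ℝ) / 4) :=
    Real.rpow_le_rpow hX0.le (by nlinarith) (by norm_num)
  have h13 : ((Nat.log 2 X + 1 : ℕ) : ℝ) *
        (C1 * (2 * X : ℝ) ^ (ε / 2) * ((B : ℝ) * (2 * X)) ^ ((1 : ℝ) / 4)) ≤
      (DL * (X : ℝ) ^ (ε / 2)) *
        (C1 * (2 * X : ℝ) ^ (ε / 2) * ((B : ℝ) * (2 * X)) ^ ((1 : ℝ) / 4)) :=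
    mul_le_mul_of_nonneg_right h11 hV0
  have h14 : (DL * (X : ℝ) ^ (ε / 2)) *
        (C1 * (2 * X : ℝ) ^ (ε / 2) * ((B : ℝ) * (2 * X)) ^ ((1 : ℝ) / 4)) =
      DL * (C1 * 2 ^ (ε / 2) * 2 ^ ((1 : ℝ) / 4)) * (X : ℝ) ^ ε * ((B : ℝ) * X) ^ ((1 : ℝ) / 4) := by
    have e1 : (2 * X : ℝ) ^ (ε / 2) = 2 ^ (ε / 2) * (X : ℝ) ^ (ε / 2) :=
      Real.mul_rpow (by norm_num) hX0.le
    have e2 : ((B : ℝ) * (2 * X)) ^ ((1 : ℝ) / 4) =
        2 ^ ((1 : ℝ) / 4) * ((B : ℝ) * X) ^ ((1 : ℝ) / 4) := by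
      rw [← Real.mul_rpow (by norm_num) (by positivity)]
      congr 1
      ring
    have e3 : (X : ℝ) ^ ε = (X : ℝ) ^ (ε / 2) * (X : ℝ) ^ (ε / 2) := by
      rw [← Real.rpow_add hX0, add_halves]
    rw [e1, e2, e3]
    ring
  have h15 : D4 ^ 2 * ((X : ℝ) ^ ε * (X : ℝ) ^ ((1 : ℝ) / 4)) ≤
      D4 ^ 2 * (X : ℝ) ^ ε * ((B : ℝ) * X) ^ ((1 : ℝ) / 4) := by
    rw [← mul_assoc]
    exact mul_le_mul_of_nonneg_left h12 (by positivity)
  have h16 : (DL * (C1 * 2 ^ (ε / 2) * 2 ^ ((1 : ℝ) / 4)) + D4 ^ 2) * (X : ℝ) ^ ε *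
      ((B : ℝ) * X) ^ ((1 : ℝ) / 4) =
      DL * (C1 * 2 ^ (ε / 2) * 2 ^ ((1 : ℝ) / 4)) * (X : ℝ) ^ ε * ((B : ℝ) * X) ^ ((1 : ℝ) / 4) +
      D4 ^ 2 * (X : ℝ) ^ ε * ((B : ℝ) * X) ^ ((1 : ℝ) / 4) := by ring
  rw [h16]
  linarith

end Pool.Agent.T2H20.ABC
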