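import Pool.Agent.T2H20.ABC.Box

/-!
Pairs of coprime products of powers of few small integers in a given class modulo a large power,
heights up to the exponential of a small power.
-/

set_option autoImplicit false

namespace Pool.Agent.T2H20.ABC

open Finset Pool.Agent.Y913 Pool.Agent.Y913.Nb Pool.Agent.H785R2.ABC Pool.Agent.H785R2.ABC.EC

/-- a constant is smaller than a power -/
lemma exists_large (c : ℝ) (e : ℝ) (he : 0 < e) : ∃ X0 : ℕ, ∀ X : ℕ, X0 ≤ X → c ≤ (X : ℝ) ^ e := by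
  have h := (tendsto_rpow_atTop he).comp tendsto_natCast_atTop_atTop
  obtain ⟨X0, hX0⟩ := Filter.eventually_atTop.mp (h.eventually_ge_atTop c)
  exact ⟨X0, fun X hX => hX0 X hX⟩

/-- **few powers in a class modulo a large power** -/
theorem fp_count2 (n : ℕ) (ε : ℝ) (hε : 0 < ε) : ∃ w0 : ℕ, ∀ w, w0 ≤ w → ∃ M0 : ℕ,
    ∀ M, M0 ≤ M → ∃ δ C : ℝ, 0 < δ ∧ 0 < C ∧ ∀ X r : ℕ, 1 ≤ X → X ≤ r ^ (2 * w) → r ^ w ≤ X →
    ∀ κ : (ZMod (r ^ M))ˣ, ∀ Q : Finset (ℕ × ℕ),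
    (∀ q ∈ Q, (0 < q.1 ∧ Real.log q.1 ≤ (X : ℝ) ^ δ ∧ q.1.Coprime r ∧ NB n (X : ℝ) q.1) ∧
      (0 < q.2 ∧ Real.log q.2 ≤ (X : ℝ) ^ δ ∧ q.2.Coprime r ∧ NB n (X : ℝ) q.2) ∧
      q.1.Coprime q.2 ∧ ud (r ^ M) q.2 * (ud (r ^ M) q.1)⁻¹ = κ) →
    (Q.card : ℝ) ≤ C * (X : ℝ) ^ ε := by
  classical
  obtain ⟨w0, hw0⟩ := exists_nat_ge (16 * (n : ℝ) ^ 2 / ε)
  refine ⟨w0 + 1, fun w hw => ?_⟩
  obtain ⟨m0, C1, hcount⟩ := count_padic_val3 (Fin n ⊕ Fin n) w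
  have hcard : Fintype.card (Fin n ⊕ Fin n) = 2 * n := by
    rw [Fintype.card_sum, Fintype.card_fin]; ring
  rw [hcard] at hcount
  refine ⟨2 * KK (2 * n) (2 * n * w), fun M hM => ?_⟩
  have hw1 : 1 ≤ w := by omega
  have hwR : (0 : ℝ) < w := by exact_mod_cast hw1
  obtain ⟨δ, hδ⟩ : ∃ δ : ℝ, δ = min (ε / (4 * n + 1)) (1 / (2 * w)) := ⟨_, rfl⟩
  have hδ0 : 0 < δ := by rw [hδ]; positivity
  have hδ1 : δ ≤ ε / (4 * n + 1) := by rw [hδ]; exact min_le_left _ _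
  have hδ2 : δ ≤ 1 / (2 * w) := by rw [hδ]; exact min_le_right _ _
  obtain ⟨X0, hX0⟩ := exists_large (m0 * (2 * n * 2)) (1 / (2 * w)) (by positivity)
  obtain ⟨X1, hX1⟩ : ∃ X1, X1 = max X0 2 := ⟨_, rfl⟩
  refine ⟨δ, max ((Real.exp ((X1 : ℝ) ^ δ) + 1) ^ 2) (5 ^ (2 * n) * (C1 : ℝ) ^ (2 * n)) + 1, hδ0,
    by positivity, ?_⟩
  intro X r hX hXr hrX κ Q hQ
  have hX0r : (0 : ℝ) < X := by exact_mod_cast hX
  have hX1r : (1 : ℝ) ≤ X := by exact_mod_cast hX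
  have hXε : (1 : ℝ) ≤ (X : ℝ) ^ ε := Real.one_le_rpow hX1r hε.le
  by_cases hsmall : X < X1
  · -- small `X`
    have hXX : (X : ℝ) ^ δ ≤ (X1 : ℝ) ^ δ := Real.rpow_le_rpow hX0r.le (by exact_mod_cast hsmall.le) hδ0.le
    obtain ⟨N, hN⟩ : ∃ N, N = ⌊Real.exp ((X1 : ℝ) ^ δ)⌋₊ := ⟨_, rfl⟩
    have hle : ∀ a : ℕ, 0 < a → Real.log a ≤ (X : ℝ) ^ δ → a ≤ N := by
      intro a ha h
      rw [hN]
      apply Nat.le_floor
      rw [← Real.log_le_iff_le_exp (by exact_mod_cast ha)]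
      exact h.trans hXX
    have h1 : Q ⊆ Icc 1 N ×ˢ Icc 1 N := by
      intro q hq
      obtain ⟨⟨g1, g2, -, -⟩, ⟨g3, g4, -, -⟩, -⟩ := hQ q hq
      rw [mem_product, mem_Icc, mem_Icc]
      exact ⟨⟨g1, hle _ g1 g2⟩, ⟨g3, hle _ g3 g4⟩⟩
    have h2 := card_le_card h1
    rw [card_product, Nat.card_Icc, Nat.add_sub_cancel] at h2
    have hNr : (N : ℝ) ≤ Real.exp ((X1 : ℝ) ^ δ) := by
      rw [hN]; exact Nat.floor_le (Real.exp_pos _).le
    have h4 : (Q.card : ℝ) ≤ (Real.exp ((X1 : ℝ) ^ δ) + 1) ^ 2 := by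
      calc (Q.card : ℝ) ≤ (N : ℝ) * N := by exact_mod_cast h2
        _ ≤ (Real.exp ((X1 : ℝ) ^ δ) + 1) * (Real.exp ((X1 : ℝ) ^ δ) + 1) :=
          mul_le_mul (by linarith) (by linarith) (Nat.cast_nonneg _) (by positivity)
        _ = _ := by ring
    have h5 := le_max_left ((Real.exp ((X1 : ℝ) ^ δ) + 1) ^ 2)
      (5 ^ (2 * n) * (C1 : ℝ) ^ (2 * n))
    have h6 : (0 : ℝ) ≤ (Real.exp ((X1 : ℝ) ^ δ) + 1) ^ 2 := by positivity
    nlinarith
  push Not at hsmall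
  have hXX0 : X0 ≤ X := by omega
  have hX2 : 2 ≤ X := by omega
  have hr2 : 2 ≤ r := by
    by_contra h
    have : r ^ (2 * w) ≤ 1 := by
      have : r ≤ 1 := by omega
      exact pow_le_one' this _
    omega
  obtain ⟨L, hLd⟩ : ∃ L, L = ⌊2 * (X : ℝ) ^ δ⌋₊ := ⟨_, rfl⟩
  have hLle : (L : ℝ) ≤ 2 * (X : ℝ) ^ δ := by rw [hLd]; exact Nat.floor_le (by positivity)
  obtain ⟨H, hH⟩ : ∃ H, H = ⌊Real.exp ((X : ℝ) ^ δ)⌋₊ := ⟨_, rfl⟩
  have hHle : (H : ℝ) ≤ Real.exp ((X : ℝ) ^ δ) := by rw [hH]; exact Nat.floor_le (Real.exp_pos _).le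
  have hle : ∀ a : ℕ, 0 < a → Real.log a ≤ (X : ℝ) ^ δ → a ≤ H := by
    intro a ha h
    rw [hH]
    apply Nat.le_floor
    rw [← Real.log_le_iff_le_exp (by exact_mod_cast ha)]
    exact h
  have hlogL : ∀ a : ℕ, 2 ^ a ≤ H → a ≤ L := by
    intro a ha
    have h1 : (2 : ℝ) ^ a ≤ Real.exp ((X : ℝ) ^ δ) := le_trans (by exact_mod_cast ha) hHle
    rw [← Real.log_le_iff_le_exp (by positivity), Real.log_pow] at h1
    rw [hLd]
    apply Nat.le_floor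
    have h2 : (1 / 2 : ℝ) ≤ Real.log 2 := by
      have := Real.log_two_gt_d9
      linarith
    have h3 : (a : ℝ) * (1 / 2) ≤ a * Real.log 2 := mul_le_mul_of_nonneg_left h2 (Nat.cast_nonneg _)
    linarith
  have hrep : ∀ q ∈ Q, ∃ (x : Fin n ⊕ Fin n → ℕ) (b : Fin n ⊕ Fin n → ℤ),
      (∀ j, 1 ≤ x j ∧ (x j : ℝ) ≤ X) ∧ (∀ j, 2 ^ (b j).natAbs ≤ H) ∧
      (∑ j, (b j : ℝ) * Real.log (x j) = Real.log q.2 - Real.log q.1) ∧
      ∀ N : ℕ, q.1.Coprime N → q.2.Coprime N → (∀ j, (x j).Coprime N) ∧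
        ∏ j, (ud N (x j)) ^ b j = ud N q.2 * (ud N q.1)⁻¹ := by
    intro q hq
    obtain ⟨⟨g1, g2, g3, g4⟩, ⟨g5, g6, g7, g8⟩, g9, g10⟩ := hQ q hq
    exact exists_rep' hX1r g1 g5 (hle _ g1 g2) (hle _ g5 g6) g4 g8
  choose! x b hx hb hs hN using hrep
  set B : Finset (Fin n ⊕ Fin n → ℤ) :=
    Fintype.piFinset fun _ => Icc (-(L : ℤ)) L with hB
  have hbB : ∀ q ∈ Q, b q ∈ B := by
    intro q hq
    rw [hB, Fintype.mem_piFinset]
    intro j
    have h1 := hlogL _ (hb q hq j)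
    rw [mem_Icc]
    constructor <;> omega
  have hBcard : B.card = (2 * L + 1) ^ (2 * n) := by
    rw [hB, Fintype.card_piFinset, prod_const, card_univ, hcard, Int.card_Icc]
    congr 1
    omega
  have hfib : ∀ φ ∈ B, (Q.filter fun q => b q = φ).card ≤ (C1 * (r ^ 2) ^ (2 * n)) ^ (2 * n) := by
    intro φ hφ
    rw [hB, Fintype.mem_piFinset] at hφ
    apply hcount (ℕ × ℕ) r 2 X M (2 * n * L) φ (Q.filter fun q => b q = φ) x κ hr2 le_rfl hX
    · rw [← pow_mul]; exact hXr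
    · have h1 : ∀ j ∈ (Finset.univ : Finset (Fin n ⊕ Fin n)), |φ j| ≤ (L : ℤ) := by
        intro j _
        have := hφ j
        rw [mem_Icc] at this
        exact abs_le.mpr this
      have h2 := Finset.sum_le_card_nsmul _ _ _ h1
      rw [card_univ, hcard] at h2
      refine h2.trans (le_of_eq ?_)
      simp
    · have h1 := hX0 X hXX0
      have h2 : (X : ℝ) ^ ((1 : ℝ) / w) ≤ ((r : ℝ) ^ 2) := by
        have h3 : (X : ℝ) ≤ ((r : ℝ) ^ 2) ^ w := by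
          rw [← pow_mul]; exact_mod_cast hXr
        calc (X : ℝ) ^ ((1 : ℝ) / w) ≤ (((r : ℝ) ^ 2) ^ w) ^ ((1 : ℝ) / w) :=
              Real.rpow_le_rpow hX0r.le h3 (by positivity)
          _ = (r : ℝ) ^ 2 := by
              rw [← Real.rpow_natCast ((r : ℝ) ^ 2) w, ← Real.rpow_mul (by positivity),
                mul_one_div_cancel hwR.ne', Real.rpow_one]
      have h3 : ((m0 * (2 * n * L) : ℕ) : ℝ) ≤ ((r ^ 2 : ℕ) : ℝ) := by
        push_cast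
        calc (m0 : ℝ) * (2 * n * L) ≤ m0 * (2 * n * (2 * (X : ℝ) ^ δ)) := by
              apply mul_le_mul_of_nonneg_left _ (Nat.cast_nonneg _)
              exact mul_le_mul_of_nonneg_left hLle (by positivity)
          _ = (m0 * (2 * n * 2)) * (X : ℝ) ^ δ := by ring
          _ ≤ (X : ℝ) ^ (1 / (2 * (w : ℝ))) * (X : ℝ) ^ (1 / (2 * (w : ℝ))) := by
              apply mul_le_mul h1 _ (by positivity) (by positivity)
              exact Real.rpow_le_rpow_of_exponent_le hX1r hδ2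
          _ = (X : ℝ) ^ ((1 : ℝ) / w) := by
              rw [← Real.rpow_add hX0r]
              congr 1
              field_simp
              norm_num
          _ ≤ _ := h2
      exact_mod_cast h3
    · exact hM
    · intro q hq j
      have hq' := (Finset.mem_filter.mp hq).1
      obtain ⟨⟨g1, g2, g3, g4⟩, ⟨g5, g6, g7, g8⟩, g9, g10⟩ := hQ q hq'
      refine ⟨(hx q hq' j).1, by exact_mod_cast (hx q hq' j).2, ?_⟩
      exact (hN q hq' r g3 g7).1 j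
    · intro q hq
      obtain ⟨hq', hbq⟩ := Finset.mem_filter.mp hq
      obtain ⟨⟨g1, g2, g3, g4⟩, ⟨g5, g6, g7, g8⟩, g9, g10⟩ := hQ q hq'
      have := (hN q hq' (r ^ M) (Nat.Coprime.pow_right _ g3) (Nat.Coprime.pow_right _ g7)).2
      rw [hbq] at this
      rw [this, g10]
    · intro q hq q' hq' heq
      obtain ⟨hq1, hbq⟩ := Finset.mem_filter.mp hq
      obtain ⟨hq1', hbq'⟩ := Finset.mem_filter.mp hq'
      obtain ⟨⟨g1, g2, g3, g4⟩, ⟨g5, g6, g7, g8⟩, g9, g10⟩ := hQ q hq1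
      obtain ⟨⟨k1, k2, k3, k4⟩, ⟨k5, k6, k7, k8⟩, k9, k10⟩ := hQ q' hq1'
      have e1 := hs q hq1
      have e2 := hs q' hq1'
      rw [hbq] at e1
      rw [hbq'] at e2
      rw [e1, e2] at heq
      have r1 : (0 : ℝ) < q.1 := by exact_mod_cast g1
      have r2 : (0 : ℝ) < q.2 := by exact_mod_cast g5
      have r3 : (0 : ℝ) < q'.1 := by exact_mod_cast k1
      have r4 : (0 : ℝ) < q'.2 := by exact_mod_cast k5
      have h1 : Real.log ((q.2 : ℝ) * q'.1) = Real.log ((q'.2 : ℝ) * q.1) := by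
        rw [Real.log_mul r2.ne' r3.ne', Real.log_mul r4.ne' r1.ne']
        linarith
      have h2 : (q.2 : ℝ) * q'.1 = (q'.2 : ℝ) * q.1 :=
        Real.log_injOn_pos (Set.mem_Ioi.mpr (by positivity)) (Set.mem_Ioi.mpr (by positivity)) h1
      have h3 : q.2 * q'.1 = q'.2 * q.1 := by exact_mod_cast h2
      have h4 : q.1 ∣ q'.1 := by
        apply g9.dvd_of_dvd_mul_left
        exact ⟨q'.2, by rw [h3]; ring⟩
      have h5 : q'.1 ∣ q.1 := by
        apply k9.dvd_of_dvd_mul_left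
        exact ⟨q.2, by rw [← h3]; ring⟩
      have h6 : q.1 = q'.1 := Nat.dvd_antisymm h4 h5
      have h7 : q.2 = q'.2 := by
        rw [h6] at h3
        exact Nat.eq_of_mul_eq_mul_right k1 h3
      exact Prod.ext h6 h7
  have hsum : Q.card = ∑ φ ∈ B, (Q.filter fun q => b q = φ).card :=
    card_eq_sum_card_fiberwise (fun q hq => hbB q hq)
  have htot : Q.card ≤ (2 * L + 1) ^ (2 * n) * (C1 * (r ^ 2) ^ (2 * n)) ^ (2 * n) := by
    rw [hsum, ← hBcard, ← smul_eq_mul]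
    exact Finset.sum_le_card_nsmul _ _ _ hfib
  have hrR : (r : ℝ) ^ w ≤ X := by exact_mod_cast hrX
  have hr1 : (1 : ℝ) ≤ r := by
    have : 1 ≤ r := by omega
    exact_mod_cast this
  have hpow : ((r : ℝ) ^ 2) ^ (2 * n * (2 * n)) ≤ (X : ℝ) ^ (ε / 2) := by
    have h1 : (r : ℝ) ≤ (X : ℝ) ^ ((1 : ℝ) / w) := by
      calc (r : ℝ) = ((r : ℝ) ^ w) ^ ((1 : ℝ) / w) := by
            rw [← Real.rpow_natCast, ← Real.rpow_mul (by positivity), mul_one_div_cancel hwR.ne',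
              Real.rpow_one]
        _ ≤ (X : ℝ) ^ ((1 : ℝ) / w) :=
            Real.rpow_le_rpow (by positivity) hrR (by positivity)
    calc ((r : ℝ) ^ 2) ^ (2 * n * (2 * n)) = (r : ℝ) ^ (8 * n ^ 2) := by
          rw [← pow_mul]; congr 1; ring
      _ ≤ ((X : ℝ) ^ ((1 : ℝ) / w)) ^ (8 * n ^ 2) := pow_le_pow_left₀ (by positivity) h1 _
      _ = (X : ℝ) ^ ((8 * (n : ℝ) ^ 2) / w) := by
          rw [← Real.rpow_natCast, ← Real.rpow_mul hX0r.le]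
          congr 1
          push_cast
          ring
      _ ≤ (X : ℝ) ^ (ε / 2) := by
          apply Real.rpow_le_rpow_of_exponent_le hX1r
          have hww : (w0 : ℝ) ≤ w := by
            have : w0 ≤ w := by omega
            exact_mod_cast this
          have h2 := hw0.trans hww
          rw [div_le_iff₀ hε] at h2
          rw [div_le_iff₀ hwR]
          linarith
  have hLL : ((2 * L + 1 : ℕ) : ℝ) ^ (2 * n) ≤ 5 ^ (2 * n) * (X : ℝ) ^ (ε / 2) := by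
    have hXδ : (1 : ℝ) ≤ (X : ℝ) ^ δ := Real.one_le_rpow hX1r hδ0.le
    have h1 : ((2 * L + 1 : ℕ) : ℝ) ≤ 5 * (X : ℝ) ^ δ := by
      push_cast
      linarith
    calc ((2 * L + 1 : ℕ) : ℝ) ^ (2 * n) ≤ (5 * (X : ℝ) ^ δ) ^ (2 * n) :=
          pow_le_pow_left₀ (Nat.cast_nonneg _) h1 _
      _ = 5 ^ (2 * n) * ((X : ℝ) ^ δ) ^ (2 * n) := mul_pow _ _ _
      _ ≤ 5 ^ (2 * n) * (X : ℝ) ^ (ε / 2) := by
          apply mul_le_mul_of_nonneg_left _ (by positivity)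
          rw [← Real.rpow_natCast, ← Real.rpow_mul hX0r.le]
          apply Real.rpow_le_rpow_of_exponent_le hX1r
          push_cast
          rw [le_div_iff₀ (by positivity)] at hδ1
          nlinarith [Nat.cast_nonneg (α := ℝ) n]
  have hfin : (Q.card : ℝ) ≤ (5 ^ (2 * n) * (C1 : ℝ) ^ (2 * n)) * (X : ℝ) ^ ε := by
    calc (Q.card : ℝ) ≤ (((2 * L + 1) ^ (2 * n) * (C1 * (r ^ 2) ^ (2 * n)) ^ (2 * n) : ℕ) : ℝ) := by
          exact_mod_cast htot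
      _ = ((2 * L + 1 : ℕ) : ℝ) ^ (2 * n) * ((C1 : ℝ) ^ (2 * n) *
            ((r : ℝ) ^ 2) ^ (2 * n * (2 * n))) := by
          push_cast
          rw [mul_pow (C1 : ℝ), ← pow_mul ((r : ℝ) ^ 2)]
      _ ≤ (5 ^ (2 * n) * (X : ℝ) ^ (ε / 2)) * ((C1 : ℝ) ^ (2 * n) *
            (X : ℝ) ^ (ε / 2)) := by
          apply mul_le_mul hLL _ (by positivity) (by positivity)
          exact mul_le_mul_of_nonneg_left hpow (by positivity)
      _ = (5 ^ (2 * n) * (C1 : ℝ) ^ (2 * n)) *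
            ((X : ℝ) ^ (ε / 2) * (X : ℝ) ^ (ε / 2)) := by ring
      _ = _ := by rw [← Real.rpow_add hX0r, add_halves]
  have h5 := le_max_right ((Real.exp ((X1 : ℝ) ^ δ) + 1) ^ 2) (5 ^ (2 * n) * (C1 : ℝ) ^ (2 * n))
  refine hfin.trans ?_
  apply mul_le_mul_of_nonneg_right _ (by positivity)
  linarith

end Pool.Agent.T2H20.ABC
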