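import Pool.Agent.T2H20.ABC.Fin

/-!
# The square root bound for the exceptions of Oesterlé's inequality with a large exponent

For every `ε > 0` there is an exponent `M` such that for every `A` at most `C X ^ (1/3 + ε)` abc
triples with `rad (abc) ≤ X` and `c ≤ X ^ A` violate `c < rad (abc) ^ M`; the number of all the
triples with `rad (abc) ≤ X` and `c ≤ X ^ A` is about `X ^ (2/3)`. At most `C X ^ ε (B X) ^ (1/4)` of
the exceptions have a member of radical at most `B`.

Up to `X ^ ε`, the number of the triples whose members have radicals at most `R₁ ≤ R₂ ≤ R₃` and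
for which `c` is at least a large power of `X = R₃` and at most a fixed one is at most `√(R₁ R₂)`:
let `D` be a large power of an integer `r` of size a small power of `X`. If some `D` divides the
member with the largest radical, Hölder's inequality for the characters modulo `D` bounds the number
of pairs of the other two by `√(R₁ R₂)`. If not, that member is a product of powers of few integers
`≤ X`; if moreover such a `D` divides one of the other members, the number of possibilities for the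
former in a class modulo `D` is `X ^ ε` by Padé type approximations; and if no member has such a
divisor, all three are products of powers of few integers.
-/

set_option autoImplicit false

namespace Pool.Agent.T2H20.ABC.Srb

/-- the product of the primes dividing `n` -/
def radical (n : ℕ) : ℕ := ∏ p ∈ n.primeFactors, p

/-- the radical of `abc` for the triple `(a, b, a + b)` written `(a, b)` -/
def rad3 (q : ℕ × ℕ) : ℕ := radical (q.1 * q.2 * (q.1 + q.2))

/-- the exceptions to Oesterlé's inequality with the exponent `M`, of radical at most `X` and with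
`c ≤ X ^ A`: the abc triples `(a, b, c)`, `c = a + b`, written `(a, b)`, where `a, b ≥ 1` are
coprime, `rad (abc) ≤ X` and `rad (abc) ^ M ≤ c ≤ X ^ A` -/
def exceptions (M A X : ℕ) : Set (ℕ × ℕ) :=
  {q | (0 < q.1 ∧ 0 < q.2 ∧ Nat.Coprime q.1 q.2) ∧ rad3 q ≤ X ∧
    rad3 q ^ M ≤ q.1 + q.2 ∧ q.1 + q.2 ≤ X ^ A}

open Pool.Agent.T2H20.ABC Pool.Agent.H785R2.ABC

theorem ncard_le {S : Set (ℕ × ℕ)} {N : ℕ} (h : ∀ q ∈ S, q.1 + q.2 ≤ N) {B : ℝ}
    (hB : ∀ Q : Finset (ℕ × ℕ), (∀ q ∈ Q, q ∈ S) → (Q.card : ℝ) ≤ B) : (S.ncard : ℝ) ≤ B := by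
  have hf : S.Finite := by
    refine Set.Finite.subset (Finset.finite_toSet
      ((Finset.range (N + 1)) ×ˢ (Finset.range (N + 1)))) ?_
    intro q hq
    have := h q hq
    simp only [Finset.coe_product, Finset.coe_range, Set.mem_prod, Set.mem_Iio]
    omega
  rw [Set.ncard_eq_toFinset_card S hf]
  exact hB _ fun q hq => hf.mem_toFinset.mp hq

theorem member (q : ℕ × ℕ) (B : ℕ) (h : ∃ m ∈ ({q.1, q.2, q.1 + q.2} : Finset ℕ), radical m ≤ B) :
    ∃ i, rad (num (tri q) i) ≤ B := by
  obtain ⟨m, hm, h1⟩ := h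
  simp only [Finset.mem_insert, Finset.mem_singleton] at hm
  rcases hm with rfl | rfl | rfl
  · exact ⟨0, h1⟩
  · exact ⟨1, h1⟩
  · exact ⟨2, h1⟩

/-- **The square root bound.** For every `ε > 0` there is `M` such that for every `A`, with a
constant `C` depending on `ε` and `A`: for all `X ≥ 1` the number of the abc triples with
`rad (abc) ≤ X` and `rad (abc) ^ M ≤ c ≤ X ^ A` is at most `C X ^ (1/3 + ε)`; and for all `B ≥ 1` the
number of those one of whose members `a`, `b`, `c` has radical at most `B` is at most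
`C X ^ ε (B X) ^ (1/4)` (for instance `C X ^ (1/4 + ε)` for the pairs of consecutive integers). -/
theorem result : ∀ ε : ℝ, 0 < ε → ∃ M : ℕ, ∀ A : ℕ, ∃ C : ℝ, 0 < C ∧ ∀ X : ℕ, 1 ≤ X →
    ((exceptions M A X).ncard : ℝ) ≤ C * (X : ℝ) ^ (1 / 3 + ε) ∧
    ∀ B : ℕ, 1 ≤ B →
      ({q | q ∈ exceptions M A X ∧
        ∃ m ∈ ({q.1, q.2, q.1 + q.2} : Finset ℕ), radical m ≤ B}.ncard : ℝ) ≤
        C * (X : ℝ) ^ ε * ((B : ℝ) * X) ^ ((1 : ℝ) / 4) := by
  intro ε hε
  obtain ⟨M, -, hM⟩ := exceptions_bound ε hε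
  refine ⟨M, fun A => ?_⟩
  obtain ⟨C, hC, hc⟩ := hM A
  refine ⟨C, hC, fun X hX => ?_⟩
  have hX0 : (0 : ℝ) < X := by exact_mod_cast hX
  have hX1 : (1 : ℝ) ≤ X := by exact_mod_cast hX
  refine ⟨?_, ?_⟩
  · refine ncard_le (N := X ^ A) (fun q hq => hq.2.2.2) ?_
    intro Q hQ
    obtain ⟨B, hB⟩ : ∃ B, B = ⌊(X : ℝ) ^ ((1 : ℝ) / 3)⌋₊ := ⟨_, rfl⟩
    have hB1 : 1 ≤ B := by
      rw [hB]
      apply Nat.le_floor
      push_cast
      exact Real.one_le_rpow hX1 (by norm_num)
    have hBX : (B : ℝ) ≤ (X : ℝ) ^ ((1 : ℝ) / 3) := by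
      rw [hB]; exact Nat.floor_le (by positivity)
    have h1 := hc X B hX hB1 Q (by
      intro q hq
      obtain ⟨⟨g1, g2, g3⟩, g4, g5, g6⟩ := hQ q hq
      refine ⟨g1, g2, g3, g4, ?_, g5, g6⟩
      obtain ⟨i, hi⟩ := exists_small g1 g2 g3
      refine ⟨i, ?_⟩
      rw [hB]
      apply Nat.le_floor
      have h2 : ((rad (num (tri q) i) : ℕ) : ℝ) ^ 3 ≤ X := by exact_mod_cast hi.trans g4
      calc ((rad (num (tri q) i) : ℕ) : ℝ) =
            (((rad (num (tri q) i) : ℕ) : ℝ) ^ 3) ^ ((1 : ℝ) / 3) := by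
            rw [← Real.rpow_natCast, ← Real.rpow_mul (by positivity)]
            norm_num
        _ ≤ (X : ℝ) ^ ((1 : ℝ) / 3) := Real.rpow_le_rpow (by positivity) h2 (by norm_num))
    refine h1.trans ?_
    have h2 : ((B : ℝ) * X) ^ ((1 : ℝ) / 4) ≤ (X : ℝ) ^ ((1 : ℝ) / 3) := by
      calc ((B : ℝ) * X) ^ ((1 : ℝ) / 4) ≤ ((X : ℝ) ^ ((1 : ℝ) / 3) * X) ^ ((1 : ℝ) / 4) := by
            apply Real.rpow_le_rpow (by positivity) _ (by norm_num)
            exact mul_le_mul_of_nonneg_right hBX hX0.le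
        _ = (X : ℝ) ^ ((1 : ℝ) / 3) := by
            have : (X : ℝ) ^ ((1 : ℝ) / 3) * X = (X : ℝ) ^ ((4 : ℝ) / 3) := by
              conv_lhs => rw [← Real.rpow_one (X : ℝ)]
              rw [← Real.rpow_mul hX0.le, ← Real.rpow_add hX0]
              norm_num
            rw [this, ← Real.rpow_mul hX0.le]
            norm_num
    calc C * (X : ℝ) ^ ε * ((B : ℝ) * X) ^ ((1 : ℝ) / 4)
        ≤ C * (X : ℝ) ^ ε * (X : ℝ) ^ ((1 : ℝ) / 3) :=
          mul_le_mul_of_nonneg_left h2 (by positivity)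
      _ = C * (X : ℝ) ^ (1 / 3 + ε) := by
          rw [mul_assoc, ← Real.rpow_add hX0]
          congr 2
          ring
  · intro B hB
    refine ncard_le (N := X ^ A) (fun q hq => hq.1.2.2.2) ?_
    intro Q hQ
    exact hc X B hX hB Q (by
      intro q hq
      obtain ⟨⟨⟨g1, g2, g3⟩, g4, g5, g6⟩, g7⟩ := hQ q hq
      exact ⟨g1, g2, g3, g4, member q B g7, g5, g6⟩)

end Pool.Agent.T2H20.ABC.Srb
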