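import Pool.Agent.T2H20.ABC.P2

/-!
Triples two members of which are nearly products of few powers.
-/

set_option autoImplicit false

namespace Pool.Agent.T2H20.ABC

open Finset Pool.Agent.Y913 Pool.Agent.Y913.Nb Pool.Agent.H785R2.ABC Pool.Agent.H785R2.ABC.EC

/-- `s₁ u₁` and `s₂ u₂` are members of a triple the third member of which is divisible by a large
power; `s₁`, `s₂` are given and `u₁`, `u₂` are products of few powers -/
theorem gc (n : ℕ) (e : ℝ) (he : 0 < e) : ∃ w0 : ℕ, ∀ w, w0 ≤ w → ∃ M0 : ℕ, ∀ M, M0 ≤ M →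
    ∃ δ C : ℝ, 0 < δ ∧ 0 < C ∧ ∀ X r : ℕ, 1 ≤ X → X ≤ r ^ (2 * w) → r ^ w ≤ X →
    ∀ i j k : Fin 3, i ≠ j → j ≠ k → i ≠ k → ∀ s₁ s₂ : ℕ, ∀ Q : Finset (ℕ × ℕ),
    (∀ q ∈ Q, (0 < q.1 ∧ 0 < q.2 ∧ Nat.Coprime q.1 q.2) ∧
      Real.log ((q.1 + q.2 : ℕ) : ℝ) ≤ (X : ℝ) ^ δ ∧ r ^ M ∣ num (tri q) k ∧
      (∃ u, num (tri q) i = s₁ * u ∧ NB n (X : ℝ) u) ∧
      (∃ u, num (tri q) j = s₂ * u ∧ NB n (X : ℝ) u)) →
    (Q.card : ℝ) ≤ C * (X : ℝ) ^ e := by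
  classical
  obtain ⟨w0, hw0⟩ := fp_count2 n e he
  refine ⟨w0, fun w hw => ?_⟩
  obtain ⟨M0, hM0⟩ := hw0 w hw
  refine ⟨M0 + 1, fun M hM => ?_⟩
  obtain ⟨δ, C, hδ, hC, hfp⟩ := hM0 M (by omega)
  refine ⟨δ, C, hδ, hC, ?_⟩
  intro X r hX hXr hrX i j k hij hjk hik s₁ s₂ Q hQ
  have hMne : M ≠ 0 := by omega
  rcases Q.eq_empty_or_nonempty with h0 | ⟨q0, hq0⟩
  · rw [h0, card_empty, Nat.cast_zero]
    positivity
  have habc : ∀ q ∈ Q, IsABCTriple (tri q).1 (tri q).2.1 (tri q).2.2 := fun q hq =>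
    tri_abc (hQ q hq).1.1 (hQ q hq).1.2.1 (hQ q hq).1.2.2
  have hex : ∀ q ∈ Q, ∃ u v : ℕ, num (tri q) i = s₁ * u ∧ NB n (X : ℝ) u ∧
      num (tri q) j = s₂ * v ∧ NB n (X : ℝ) v := by
    intro q hq
    obtain ⟨-, -, -, ⟨u, h1, h2⟩, ⟨v, h3, h4⟩⟩ := hQ q hq
    exact ⟨u, v, h1, h2, h3, h4⟩
  choose! u v hu hNu hv hNv using hex
  have hinj : Set.InjOn (fun q => (u q, v q)) Q := by
    intro q hq q' hq' h
    simp only [Prod.mk.injEq] at h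
    apply tri_inj
    apply num_inj (habc q hq) (habc q' hq') hij
    · rw [hu q hq, hu q' hq', h.1]
    · rw [hv q hq, hv q' hq', h.2]
  rw [← card_image_of_injOn hinj]
  have hposi : ∀ q ∈ Q, 0 < s₁ * u q := fun q hq => by
    rw [← hu q hq]; exact num_pos (habc q hq) i
  have hposj : ∀ q ∈ Q, 0 < s₂ * v q := fun q hq => by
    rw [← hv q hq]; exact num_pos (habc q hq) j
  have hu0 : ∀ q ∈ Q, 0 < u q := fun q hq => Nat.pos_of_mul_pos_left (hposi q hq)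
  have hv0 : ∀ q ∈ Q, 0 < v q := fun q hq => Nat.pos_of_mul_pos_left (hposj q hq)
  have hcop : ∀ q ∈ Q, ∀ l : Fin 3, l ≠ k → Nat.Coprime (num (tri q) l) (r ^ M) := fun q hq l hl =>
    Nat.Coprime.coprime_dvd_right (hQ q hq).2.2.1 (num_coprime (habc q hq) hl)
  have cs1 : Nat.Coprime s₁ (r ^ M) := by
    have := hcop q0 hq0 i hik
    rw [hu q0 hq0] at this
    exact Nat.Coprime.coprime_mul_right this
  have cs2 : Nat.Coprime s₂ (r ^ M) := by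
    have := hcop q0 hq0 j hjk
    rw [hv q0 hq0] at this
    exact Nat.Coprime.coprime_mul_right this
  have cu : ∀ q ∈ Q, Nat.Coprime (u q) (r ^ M) := by
    intro q hq
    have := hcop q hq i hik
    rw [hu q hq] at this
    exact Nat.Coprime.coprime_mul_left this
  have cv : ∀ q ∈ Q, Nat.Coprime (v q) (r ^ M) := by
    intro q hq
    have := hcop q hq j hjk
    rw [hv q hq] at this
    exact Nat.Coprime.coprime_mul_left this
  have hlog : ∀ q ∈ Q, ∀ a : ℕ, 0 < a → a ≤ q.1 + q.2 → Real.log a ≤ (X : ℝ) ^ δ := by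
    intro q hq a ha h
    refine le_trans (Real.log_le_log (by exact_mod_cast ha) ?_) (hQ q hq).2.1
    exact_mod_cast h
  have hule : ∀ q ∈ Q, u q ≤ q.1 + q.2 := by
    intro q hq
    have h1 : num (tri q) i ≤ q.1 + q.2 := EC.num_le (habc q hq) i
    rw [hu q hq] at h1
    exact (Nat.le_mul_of_pos_left _ (Nat.pos_of_mul_pos_right (hposi q hq))).trans h1
  have hvle : ∀ q ∈ Q, v q ≤ q.1 + q.2 := by
    intro q hq
    have h1 : num (tri q) j ≤ q.1 + q.2 := EC.num_le (habc q hq) j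
    rw [hv q hq] at h1
    exact (Nat.le_mul_of_pos_left _ (Nat.pos_of_mul_pos_right (hposj q hq))).trans h1
  apply hfp X r hX hXr hrX (ud (r ^ M) (v q0) * (ud (r ^ M) (u q0))⁻¹)
  intro x hx
  obtain ⟨q, hq, rfl⟩ := mem_image.1 hx
  refine ⟨⟨hu0 q hq, hlog q hq _ (hu0 q hq) (hule q hq),
    Nat.Coprime.coprime_dvd_right (dvd_pow_self r hMne) (cu q hq), hNu q hq⟩,
    ⟨hv0 q hq, hlog q hq _ (hv0 q hq) (hvle q hq),
    Nat.Coprime.coprime_dvd_right (dvd_pow_self r hMne) (cv q hq), hNv q hq⟩, ?_, ?_⟩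
  · have h1 := num_coprime (habc q hq) hij
    rw [hu q hq, hv q hq] at h1
    exact Nat.Coprime.coprime_mul_left (Nat.Coprime.coprime_mul_left_right h1)
  · -- the class of the ratio
    have key : ∀ q ∈ Q, (v q : ZMod (r ^ M)) =
        ((sgu (r ^ M) k * ud (r ^ M) s₁ * (ud (r ^ M) s₂)⁻¹ : (ZMod (r ^ M))ˣ) : ZMod (r ^ M)) *
          (u q : ZMod (r ^ M)) := by
      intro q hq
      have h1 := cong (habc q hq) hij hjk hik (hQ q hq).2.2.1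
      rw [hu q hq, hv q hq] at h1
      push_cast at h1
      have h2 : ((ud (r ^ M) s₂ : (ZMod (r ^ M))ˣ) : ZMod (r ^ M)) = (s₂ : ZMod (r ^ M)) :=
        ud_coe cs2
      have h3 : ((ud (r ^ M) s₁ : (ZMod (r ^ M))ˣ) : ZMod (r ^ M)) = (s₁ : ZMod (r ^ M)) :=
        ud_coe cs1
      rw [← h2, ← h3] at h1
      have h4 : (v q : ZMod (r ^ M)) =
          (((ud (r ^ M) s₂)⁻¹ : (ZMod (r ^ M))ˣ) : ZMod (r ^ M)) *
            (((ud (r ^ M) s₂ : (ZMod (r ^ M))ˣ) : ZMod (r ^ M)) * (v q : ZMod (r ^ M))) := by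
        rw [← mul_assoc, Units.inv_mul, one_mul]
      rw [h4, h1]
      push_cast
      ring
    exact dvd_class _ (cv q hq) (cu q hq) (cv q0 hq0) (cu q0 hq0) (key q hq) (key q0 hq0)

/-- `t = s u` with `u` a product of powers of `n` integers `≤ X`, `rad s ≤ Z` and `s ≤ S` -/
def Near (n X Z S t : ℕ) : Prop :=
  ∃ s u : ℕ, t = s * u ∧ NB n (X : ℝ) u ∧ rad s ≤ Z ∧ s ≤ S

/-- the possible factors `s` -/
noncomputable def Ss (S Z : ℕ) : Finset ℕ := (Icc 1 S).filter fun d => (rad d : ℝ) ≤ Z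

lemma Ss_card (A : ℕ) (e : ℝ) (he : 0 < e) : ∃ D : ℝ, 0 < D ∧ ∀ X Z : ℕ, 1 ≤ X →
    ((Ss (X ^ A) Z).card : ℝ) ≤ D * (X : ℝ) ^ e * Z := by
  obtain ⟨D4, hD4, h4⟩ := Pool.Agent.H705R2.ABC.stmtA4' (e / (A + 1)) (by positivity)
  refine ⟨D4, hD4, fun X Z hX => ?_⟩
  have hX0 : (0 : ℝ) < X := by exact_mod_cast hX
  have hX1 : (1 : ℝ) ≤ X := by exact_mod_cast hX
  have h5 := h4 (X ^ A) (Nat.pow_pos hX) Z (Nat.cast_nonneg _)
  refine h5.trans ?_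
  apply mul_le_mul_of_nonneg_right _ (Nat.cast_nonneg _)
  apply mul_le_mul_of_nonneg_left _ hD4.le
  push_cast
  rw [← Real.rpow_natCast, ← Real.rpow_mul hX0.le]
  apply Real.rpow_le_rpow_of_exponent_le hX1
  rw [← mul_div_assoc, div_le_iff₀ (by positivity)]
  nlinarith

/-- the parameters of a step: for all large `n` there are `w`, `M` with the bound of `gc` -/
lemma gc_par (n : ℕ) (e : ℝ) (he : 0 < e) : ∃ w M : ℕ, ∃ δ C : ℝ, 1 ≤ w ∧ 1 ≤ M ∧ 1 ≤ e * w ∧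
    0 < δ ∧ 0 < C ∧ ∀ X r : ℕ, 1 ≤ X → X ≤ r ^ (2 * w) → r ^ w ≤ X →
    ∀ i j k : Fin 3, i ≠ j → j ≠ k → i ≠ k → ∀ s₁ s₂ : ℕ, ∀ Q : Finset (ℕ × ℕ),
    (∀ q ∈ Q, (0 < q.1 ∧ 0 < q.2 ∧ Nat.Coprime q.1 q.2) ∧
      Real.log ((q.1 + q.2 : ℕ) : ℝ) ≤ (X : ℝ) ^ δ ∧ r ^ M ∣ num (tri q) k ∧
      (∃ u, num (tri q) i = s₁ * u ∧ NB n (X : ℝ) u) ∧
      (∃ u, num (tri q) j = s₂ * u ∧ NB n (X : ℝ) u)) →
    (Q.card : ℝ) ≤ C * (X : ℝ) ^ e := by
  obtain ⟨w1, hw1⟩ := exists_nat_ge (1 / e)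
  obtain ⟨w0, hw0⟩ := gc n e he
  obtain ⟨M0, hM0⟩ := hw0 (w0 + w1 + 1) (by omega)
  obtain ⟨δ, C, hδ, hC, h⟩ := hM0 (M0 + 1) (by omega)
  refine ⟨w0 + w1 + 1, M0 + 1, δ, C, by omega, by omega, ?_, hδ, hC, h⟩
  rw [div_le_iff₀ he] at hw1
  push_cast
  nlinarith [Nat.cast_nonneg (α := ℝ) w0]

/-- **two members nearly products of few powers** -/
theorem two_members (n : ℕ) (ε : ℝ) (hε : 0 < ε) : ∃ K : ℕ, ∃ δ : ℝ, 0 < δ ∧ ∀ A : ℕ,
    ∃ C : ℝ, 0 < C ∧ ∀ X Z₁ Z₂ : ℕ, 1 ≤ X → 1 ≤ Z₁ → 1 ≤ Z₂ → ∀ i j k : Fin 3,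
    i ≠ j → j ≠ k → i ≠ k → ∀ Q : Finset (ℕ × ℕ),
    (∀ q ∈ Q, (0 < q.1 ∧ 0 < q.2 ∧ Nat.Coprime q.1 q.2) ∧ (∀ l, rad (num (tri q) l) ≤ X) ∧
      X ^ K ≤ q.1 + q.2 ∧ Real.log ((q.1 + q.2 : ℕ) : ℝ) ≤ (X : ℝ) ^ δ ∧
      Near n X Z₁ (X ^ A) (num (tri q) i) ∧ Near n X Z₂ (X ^ A) (num (tri q) j)) →
    (Q.card : ℝ) ≤ C * (X : ℝ) ^ ε * (Z₁ * Z₂) := by
  classical
  obtain ⟨e, he⟩ : ∃ e : ℝ, e = ε / 4 := ⟨_, rfl⟩
  have he0 : 0 < e := by rw [he]; positivity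
  obtain ⟨w1, M1, δ1, C1, hw1, hM1, hew1, hδ1, hC1, g1⟩ := gc_par n e he0
  obtain ⟨n1, hn1⟩ : ∃ n1, n1 = max n (2 * w1 + (1 + M1)) := ⟨_, rfl⟩
  obtain ⟨w2, M2, δ2, C2, hw2, hM2, hew2, hδ2, hC2, g2⟩ := gc_par n1 e he0
  obtain ⟨n2, hn2⟩ : ∃ n2, n2 = max n1 (2 * w2 + (1 + M2)) := ⟨_, rfl⟩
  obtain ⟨w3, M3, δ3, C3, hw3, hM3, hew3, hδ3, hC3, g3⟩ := gc_par n2 e he0
  obtain ⟨n3, hn3⟩ : ∃ n3, n3 = max n2 (2 * w3 + (1 + M3)) := ⟨_, rfl⟩
  obtain ⟨K0, C4, hK0, hC4, hnt⟩ := Pool.Agent.Y913.Zm.nt_count n3 ε hε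
  obtain ⟨K, hK⟩ := exists_nat_ge K0
  refine ⟨K, min δ1 (min δ2 δ3), by positivity, fun A => ?_⟩
  obtain ⟨D, hD, hSs⟩ := Ss_card A e he0
  refine ⟨D ^ 2 * C1 + D * C2 + C3 + C4, by positivity, ?_⟩
  intro X Z₁ Z₂ hX hZ₁ hZ₂ i j k hij hjk hik Q hQ
  have hX0 : (0 : ℝ) < X := by exact_mod_cast hX
  have hX1 : (1 : ℝ) ≤ X := by exact_mod_cast hX
  have hZ₁r : (1 : ℝ) ≤ Z₁ := by exact_mod_cast hZ₁
  have hZ₂r : (1 : ℝ) ≤ Z₂ := by exact_mod_cast hZ₂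
  have hXe : ∀ t : ℝ, t ≤ 4 → (X : ℝ) ^ (t * e) ≤ (X : ℝ) ^ ε := by
    intro t ht
    apply Real.rpow_le_rpow_of_exponent_le hX1
    rw [he]
    nlinarith
  have hXδ : ∀ δ', min δ1 (min δ2 δ3) ≤ δ' → (X : ℝ) ^ min δ1 (min δ2 δ3) ≤ (X : ℝ) ^ δ' :=
    fun δ' h => Real.rpow_le_rpow_of_exponent_le hX1 h
  have hd1 := hXδ δ1 (min_le_left _ _)
  have hd2 := hXδ δ2 ((min_le_right _ _).trans (min_le_left _ _))
  have hd3 := hXδ δ3 ((min_le_right _ _).trans (min_le_right _ _))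
  have hn01 : n ≤ n1 := by rw [hn1]; exact le_max_left _ _
  have hn12 : n1 ≤ n2 := by rw [hn2]; exact le_max_left _ _
  have hn23 : n2 ≤ n3 := by rw [hn3]; exact le_max_left _ _
  have habc : ∀ q ∈ Q, IsABCTriple (tri q).1 (tri q).2.1 (tri q).2.2 := fun q hq =>
    tri_abc (hQ q hq).1.1 (hQ q hq).1.2.1 (hQ q hq).1.2.2
  -- the four parts
  set P1 : ℕ × ℕ → Prop := fun q => Dp w1 M1 X (num (tri q) k) with hP1
  set P2 : ℕ × ℕ → Prop := fun q => Dp w2 M2 X (num (tri q) j) with hP2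
  set P3 : ℕ × ℕ → Prop := fun q => Dp w3 M3 X (num (tri q) i) with hP3
  have hnb1 : ∀ q ∈ Q, ¬ P1 q → NB n1 (X : ℝ) (num (tri q) k) := by
    intro q hq hn
    apply NB.mono_n (nb_of_not_Dp hw1 hM1 hX (num_pos (habc q hq) k) ((hQ q hq).2.1 k) hn) hX1
    rw [hn1]
    exact le_max_right _ _
  have hnb2 : ∀ q ∈ Q, ¬ P2 q → NB n2 (X : ℝ) (num (tri q) j) := by
    intro q hq hn
    apply NB.mono_n (nb_of_not_Dp hw2 hM2 hX (num_pos (habc q hq) j) ((hQ q hq).2.1 j) hn) hX1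
    rw [hn2]
    exact le_max_right _ _
  have hnb3 : ∀ q ∈ Q, ¬ P3 q → NB n3 (X : ℝ) (num (tri q) i) := by
    intro q hq hn
    apply NB.mono_n (nb_of_not_Dp hw3 hM3 hX (num_pos (habc q hq) i) ((hQ q hq).2.1 i) hn) hX1
    rw [hn3]
    exact le_max_right _ _
  have hsplit : Q.card = (Q.filter fun q => P1 q).card +
      ((Q.filter fun q => ¬ P1 q).filter fun q => P2 q).card +
      (((Q.filter fun q => ¬ P1 q).filter fun q => ¬ P2 q).filter fun q => P3 q).card +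
      (((Q.filter fun q => ¬ P1 q).filter fun q => ¬ P2 q).filter fun q => ¬ P3 q).card := by
    have e1 : (Q.filter fun q => P1 q).card + (Q.filter fun q => ¬ P1 q).card = Q.card :=
      Finset.card_filter_add_card_filter_not (s := Q) P1
    have e2 : ((Q.filter fun q => ¬ P1 q).filter fun q => P2 q).card +
        ((Q.filter fun q => ¬ P1 q).filter fun q => ¬ P2 q).card =
        (Q.filter fun q => ¬ P1 q).card :=
      Finset.card_filter_add_card_filter_not (s := Q.filter fun q => ¬ P1 q) P2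
    have e3 : (((Q.filter fun q => ¬ P1 q).filter fun q => ¬ P2 q).filter fun q => P3 q).card +
        (((Q.filter fun q => ¬ P1 q).filter fun q => ¬ P2 q).filter fun q => ¬ P3 q).card =
        ((Q.filter fun q => ¬ P1 q).filter fun q => ¬ P2 q).card :=
      Finset.card_filter_add_card_filter_not
        (s := (Q.filter fun q => ¬ P1 q).filter fun q => ¬ P2 q) P3
    omega
  -- first part
  have b1 : ((Q.filter fun q => P1 q).card : ℝ) ≤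
      (((Rs w1 X ×ˢ (Ss (X ^ A) Z₁ ×ˢ Ss (X ^ A) Z₂)).card : ℕ) : ℝ) * (C1 * (X : ℝ) ^ e) := by
    apply card_le_of_cover _ _ (fun z q => (X ≤ z.1 ^ (2 * w1) ∧ z.1 ^ M1 ∣ num (tri q) k) ∧
      (∃ u, num (tri q) i = z.2.1 * u ∧ NB n (X : ℝ) u) ∧
      (∃ u, num (tri q) j = z.2.2 * u ∧ NB n (X : ℝ) u))
    · intro q hq
      rw [mem_filter] at hq
      obtain ⟨hq, hP⟩ := hq
      obtain ⟨-, -, -, -, ⟨s, u, h1, h2, h3, h4⟩, ⟨s', u', h1', h2', h3', h4'⟩⟩ := hQ q hq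
      obtain ⟨r, hr1, hr2⟩ := Dp_mem hw1 hX hP
      refine ⟨(r, (s, s')), ?_, hr2, ⟨u, h1, h2⟩, ⟨u', h1', h2'⟩⟩
      have hs : 1 ≤ s := by
        have := num_pos (habc q hq) i
        rw [h1] at this
        exact Nat.pos_of_mul_pos_right this
      have hs' : 1 ≤ s' := by
        have := num_pos (habc q hq) j
        rw [h1'] at this
        exact Nat.pos_of_mul_pos_right this
      rw [mem_product, mem_product]
      unfold Ss
      rw [mem_filter, mem_filter, mem_Icc, mem_Icc]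
      exact ⟨hr1, ⟨⟨hs, h4⟩, by exact_mod_cast h3⟩, ⟨hs', h4'⟩, by exact_mod_cast h3'⟩
    · rintro ⟨r, s, s'⟩ hz
      rw [mem_product] at hz
      have hr := hz.1
      unfold Rs at hr
      rw [mem_filter] at hr
      set Q' := (Q.filter fun q => P1 q).filter fun q =>
        (X ≤ r ^ (2 * w1) ∧ r ^ M1 ∣ num (tri q) k) ∧
        (∃ u, num (tri q) i = s * u ∧ NB n (X : ℝ) u) ∧
        (∃ u, num (tri q) j = s' * u ∧ NB n (X : ℝ) u) with hQ'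
      rcases Q'.eq_empty_or_nonempty with h0 | ⟨q0, hq0⟩
      · show ((Q'.card : ℕ) : ℝ) ≤ _
        rw [h0, card_empty, Nat.cast_zero]
        positivity
      have hmem : ∀ q ∈ Q', q ∈ Q ∧ (X ≤ r ^ (2 * w1) ∧ r ^ M1 ∣ num (tri q) k) ∧
          (∃ u, num (tri q) i = s * u ∧ NB n (X : ℝ) u) ∧
          (∃ u, num (tri q) j = s' * u ∧ NB n (X : ℝ) u) := by
        intro q hq
        rw [hQ', mem_filter, mem_filter] at hq
        exact ⟨hq.1.1, hq.2⟩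
      exact g1 X r hX (hmem q0 hq0).2.1.1 hr.2 i j k hij hjk hik s s' Q' (by
        intro q hq
        obtain ⟨h1, ⟨-, h2⟩, h3, h4⟩ := hmem q hq
        obtain ⟨t1, -, -, t2, -⟩ := hQ q h1
        exact ⟨t1, t2.trans hd1, h2, h3, h4⟩)
  -- second part
  have b2 : (((Q.filter fun q => ¬ P1 q).filter fun q => P2 q).card : ℝ) ≤
      (((Rs w2 X ×ˢ Ss (X ^ A) Z₁).card : ℕ) : ℝ) * (C2 * (X : ℝ) ^ e) := by
    apply card_le_of_cover _ _ (fun z q => (X ≤ z.1 ^ (2 * w2) ∧ z.1 ^ M2 ∣ num (tri q) j) ∧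
      (∃ u, num (tri q) i = z.2 * u ∧ NB n1 (X : ℝ) u))
    · intro q hq
      rw [mem_filter, mem_filter] at hq
      obtain ⟨⟨hq, hnP⟩, hP⟩ := hq
      obtain ⟨-, -, -, -, ⟨s, u, h1, h2, h3, h4⟩, -⟩ := hQ q hq
      obtain ⟨r, hr1, hr2⟩ := Dp_mem hw2 hX hP
      refine ⟨(r, s), ?_, hr2, ⟨u, h1, h2.mono_n hX1 hn01⟩⟩
      have hs : 1 ≤ s := by
        have := num_pos (habc q hq) i
        rw [h1] at this
        exact Nat.pos_of_mul_pos_right this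
      rw [mem_product]
      unfold Ss
      rw [mem_filter, mem_Icc]
      exact ⟨hr1, ⟨hs, h4⟩, by exact_mod_cast h3⟩
    · rintro ⟨r, s⟩ hz
      rw [mem_product] at hz
      have hr := hz.1
      unfold Rs at hr
      rw [mem_filter] at hr
      set Q' := ((Q.filter fun q => ¬ P1 q).filter fun q => P2 q).filter fun q =>
        (X ≤ r ^ (2 * w2) ∧ r ^ M2 ∣ num (tri q) j) ∧
        (∃ u, num (tri q) i = s * u ∧ NB n1 (X : ℝ) u) with hQ'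
      rcases Q'.eq_empty_or_nonempty with h0 | ⟨q0, hq0⟩
      · show ((Q'.card : ℕ) : ℝ) ≤ _
        rw [h0, card_empty, Nat.cast_zero]
        positivity
      have hmem : ∀ q ∈ Q', (q ∈ Q ∧ ¬ P1 q) ∧ (X ≤ r ^ (2 * w2) ∧ r ^ M2 ∣ num (tri q) j) ∧
          (∃ u, num (tri q) i = s * u ∧ NB n1 (X : ℝ) u) := by
        intro q hq
        rw [hQ', mem_filter, mem_filter, mem_filter] at hq
        exact ⟨hq.1.1, hq.2⟩
      exact g2 X r hX (hmem q0 hq0).2.1.1 hr.2 i k j hik hjk.symm hij s 1 Q' (by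
        intro q hq
        obtain ⟨⟨h1, h1'⟩, ⟨-, h2⟩, h3⟩ := hmem q hq
        obtain ⟨t1, -, -, t2, -⟩ := hQ q h1
        exact ⟨t1, t2.trans hd2, h2, h3, ⟨_, (one_mul _).symm, hnb1 q h1 h1'⟩⟩)
  -- third part
  have b3 : ((((Q.filter fun q => ¬ P1 q).filter fun q => ¬ P2 q).filter fun q => P3 q).card : ℝ) ≤
      ((Rs w3 X).card : ℝ) * (C3 * (X : ℝ) ^ e) := by
    apply card_le_of_cover _ _ (fun r q => X ≤ r ^ (2 * w3) ∧ r ^ M3 ∣ num (tri q) i)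
    · intro q hq
      rw [mem_filter] at hq
      exact Dp_mem hw3 hX hq.2
    · intro r hr
      unfold Rs at hr
      rw [mem_filter] at hr
      set Q' := (((Q.filter fun q => ¬ P1 q).filter fun q => ¬ P2 q).filter fun q => P3 q).filter
        fun q => X ≤ r ^ (2 * w3) ∧ r ^ M3 ∣ num (tri q) i with hQ'
      rcases Q'.eq_empty_or_nonempty with h0 | ⟨q0, hq0⟩
      · rw [h0, card_empty, Nat.cast_zero]
        positivity
      have hmem : ∀ q ∈ Q', ((q ∈ Q ∧ ¬ P1 q) ∧ ¬ P2 q) ∧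
          (X ≤ r ^ (2 * w3) ∧ r ^ M3 ∣ num (tri q) i) := by
        intro q hq
        rw [hQ', mem_filter, mem_filter, mem_filter, mem_filter] at hq
        exact ⟨hq.1.1, hq.2⟩
      exact g3 X r hX (hmem q0 hq0).2.1 hr.2 j k i hjk hik.symm hij.symm 1 1 Q' (by
        intro q hq
        obtain ⟨⟨⟨h1, h1'⟩, h1''⟩, -, h2⟩ := hmem q hq
        obtain ⟨t1, -, -, t2, -⟩ := hQ q h1
        exact ⟨t1, t2.trans hd3, h2, ⟨_, (one_mul _).symm, hnb2 q h1 h1''⟩,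
          ⟨_, (one_mul _).symm, (hnb1 q h1 h1').mono_n hX1 hn12⟩⟩)
  -- fourth part
  have b4 := hnt X hX1
    (((Q.filter fun q => ¬ P1 q).filter fun q => ¬ P2 q).filter fun q => ¬ P3 q) (by
    intro q hq
    rw [mem_filter, mem_filter, mem_filter] at hq
    obtain ⟨⟨⟨hq0, hq1⟩, hq2⟩, hq3⟩ := hq
    have hnb : ∀ l : Fin 3, NB n3 (X : ℝ) (num (tri q) l) := by
      intro l
      have hl : l = i ∨ l = j ∨ l = k := three i j k l hij hjk hik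
      rcases hl with rfl | rfl | rfl
      · exact hnb3 q hq0 hq3
      · exact (hnb2 q hq0 hq2).mono_n hX1 hn23
      · exact (hnb1 q hq0 hq1).mono_n hX1 (hn12.trans hn23)
    obtain ⟨⟨p1, p2, p3⟩, -, hbig, -⟩ := hQ q hq0
    refine ⟨p1, p2, p3, hnb 0, hnb 1, hnb 2, ?_⟩
    calc (X : ℝ) ^ K0 ≤ (X : ℝ) ^ (K : ℝ) := Real.rpow_le_rpow_of_exponent_le hX1 hK
      _ = ((X ^ K : ℕ) : ℝ) := by rw [Real.rpow_natCast]; push_cast; rfl
      _ ≤ ((q.1 + q.2 : ℕ) : ℝ) := by exact_mod_cast hbig)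
  have hV1 : (1 : ℝ) ≤ Z₁ * Z₂ := by nlinarith
  have hZZ : (Z₁ : ℝ) ≤ Z₁ * Z₂ := by nlinarith
  have hS1 := hSs X Z₁ hX
  have hS2 := hSs X Z₂ hX
  have c1 : (((Rs w1 X ×ˢ (Ss (X ^ A) Z₁ ×ˢ Ss (X ^ A) Z₂)).card : ℕ) : ℝ) * (C1 * (X : ℝ) ^ e) ≤
      D ^ 2 * C1 * (X : ℝ) ^ ε * (Z₁ * Z₂) := by
    rw [card_product, card_product]
    push_cast
    calc ((Rs w1 X).card : ℝ) * (((Ss (X ^ A) Z₁).card : ℝ) * (Ss (X ^ A) Z₂).card) *
          (C1 * (X : ℝ) ^ e)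
        ≤ (X : ℝ) ^ e * ((D * (X : ℝ) ^ e * Z₁) * (D * (X : ℝ) ^ e * Z₂)) * (C1 * (X : ℝ) ^ e) := by
          apply mul_le_mul_of_nonneg_right _ (by positivity)
          apply mul_le_mul (card_Rs hew1 hX) _ (by positivity) (by positivity)
          exact mul_le_mul hS1 hS2 (by positivity) (by positivity)
      _ = D ^ 2 * C1 * ((X : ℝ) ^ e * (X : ℝ) ^ e * (X : ℝ) ^ e * (X : ℝ) ^ e) * (Z₁ * Z₂) := by ring
      _ = D ^ 2 * C1 * (X : ℝ) ^ (4 * e) * (Z₁ * Z₂) := by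
          rw [← Real.rpow_add hX0, ← Real.rpow_add hX0, ← Real.rpow_add hX0]
          congr 3
          ring
      _ ≤ _ := by
          apply mul_le_mul_of_nonneg_right _ (by positivity)
          exact mul_le_mul_of_nonneg_left (hXe 4 le_rfl) (by positivity)
  have c2 : (((Rs w2 X ×ˢ Ss (X ^ A) Z₁).card : ℕ) : ℝ) * (C2 * (X : ℝ) ^ e) ≤
      D * C2 * (X : ℝ) ^ ε * (Z₁ * Z₂) := by
    rw [card_product]
    push_cast
    calc ((Rs w2 X).card : ℝ) * ((Ss (X ^ A) Z₁).card : ℝ) * (C2 * (X : ℝ) ^ e)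
        ≤ (X : ℝ) ^ e * (D * (X : ℝ) ^ e * Z₁) * (C2 * (X : ℝ) ^ e) := by
          apply mul_le_mul_of_nonneg_right _ (by positivity)
          exact mul_le_mul (card_Rs hew2 hX) hS1 (by positivity) (by positivity)
      _ = D * C2 * ((X : ℝ) ^ e * (X : ℝ) ^ e * (X : ℝ) ^ e) * Z₁ := by ring
      _ = D * C2 * (X : ℝ) ^ (3 * e) * Z₁ := by
          rw [← Real.rpow_add hX0, ← Real.rpow_add hX0]
          congr 3
          ring
      _ ≤ _ := by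
          apply mul_le_mul _ hZZ (by positivity) (by positivity)
          exact mul_le_mul_of_nonneg_left (hXe 3 (by norm_num)) (by positivity)
  have c3 : ((Rs w3 X).card : ℝ) * (C3 * (X : ℝ) ^ e) ≤ C3 * (X : ℝ) ^ ε * (Z₁ * Z₂) := by
    calc ((Rs w3 X).card : ℝ) * (C3 * (X : ℝ) ^ e) ≤ (X : ℝ) ^ e * (C3 * (X : ℝ) ^ e) :=
          mul_le_mul_of_nonneg_right (card_Rs hew3 hX) (by positivity)
      _ = C3 * ((X : ℝ) ^ e * (X : ℝ) ^ e) := by ring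
      _ = C3 * (X : ℝ) ^ (2 * e) := by rw [← Real.rpow_add hX0, ← two_mul]
      _ ≤ C3 * (X : ℝ) ^ ε := mul_le_mul_of_nonneg_left (hXe 2 (by norm_num)) hC3.le
      _ ≤ _ := le_mul_of_one_le_right (by positivity) hV1
  have c4 : C4 * (X : ℝ) ^ ε ≤ C4 * (X : ℝ) ^ ε * (Z₁ * Z₂) :=
    le_mul_of_one_le_right (by positivity) hV1
  rw [hsplit]
  push_cast
  have hexp : (D ^ 2 * C1 + D * C2 + C3 + C4) * (X : ℝ) ^ ε * (Z₁ * Z₂) =
      D ^ 2 * C1 * (X : ℝ) ^ ε * (Z₁ * Z₂) + D * C2 * (X : ℝ) ^ ε * (Z₁ * Z₂) +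
      C3 * (X : ℝ) ^ ε * (Z₁ * Z₂) + C4 * (X : ℝ) ^ ε * (Z₁ * Z₂) := by ring
  rw [hexp]
  have e1 := b1.trans c1
  have e2 := b2.trans c2
  have e3 := b3.trans c3
  have e4 := b4.trans c4
  linarith

end Pool.Agent.T2H20.ABC
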